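import Pool.Agent.Lib.MP_dc8965_an.Defs

/-!
Intersections of limits of finite spaces are limits of finite spaces.
-/

open MeasureTheory Filter Topology Set
open scoped ENNReal NNReal

namespace DC8965

section abs
variable {X ι : Type*} [NormedAddCommGroup X] [NormedSpace ℂ X]

lemma infDist_triangle (S : Submodule ℂ X) (f g : X) :
    Metric.infDist f (S : Set X) ≤ Metric.infDist g (S : Set X) + ‖f - g‖ := by
  have := Metric.infDist_le_infDist_add_dist (s := (S : Set X)) (x := f) (y := g)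
  rwa [dist_eq_norm] at this

/-- a limit space is closed -/
lemma IsLim.isClosed {e : ι → X} {M : Submodule ℂ X} (h : IsLim e M) : IsClosed (M : Set X) := by
  obtain ⟨S, hS⟩ := h
  rw [← isSeqClosed_iff_isClosed]
  intro f a hf hlim
  change a ∈ M
  rw [hS a, Metric.tendsto_atTop]
  intro ε hε
  rw [Metric.tendsto_atTop] at hlim
  obtain ⟨k, hk⟩ := hlim (ε / 2) (half_pos hε)
  have hk' := hk k le_rfl
  have h1 := (hS (f k)).mp (hf k)
  rw [Metric.tendsto_atTop] at h1
  obtain ⟨N, hN⟩ := h1 (ε / 2) (half_pos hε)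
  refine ⟨N, fun n hn => ?_⟩
  have h2 := hN n hn
  rw [Real.dist_eq, sub_zero, abs_of_nonneg Metric.infDist_nonneg] at h2 ⊢
  have h3 := infDist_triangle (fsp e (S n)) a (f k)
  rw [dist_comm, dist_eq_norm] at hk'
  linarith

/-- countable intersections -/
lemma isLim_iInf {e : ι → X} [TopologicalSpace.SeparableSpace X] (M : ℕ → Submodule ℂ X)
    (h : ∀ i, IsLim e (M i)) : IsLim e (⨅ i, M i) := by
  choose S hS using h
  -- a dense sequence in the intersection
  let N : Submodule ℂ X := ⨅ i, M i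
  have hsep : TopologicalSpace.IsSeparable (N : Set X) := TopologicalSpace.IsSeparable.of_separableSpace _
  obtain ⟨c, hcN, hcc, hcd⟩ := hsep.exists_countable_dense_subset
  have hne : (c : Set X).Nonempty := by
    by_contra hc
    rw [Set.not_nonempty_iff_eq_empty] at hc
    rw [hc] at hcd
    have : (0 : X) ∈ closure (∅ : Set X) := hcd N.zero_mem
    simp at this
  obtain ⟨g, hg⟩ := hcc.exists_eq_range hne
  have hgN : ∀ j, g j ∈ N := fun j => hcN (hg ▸ Set.mem_range_self j)
  have hgM : ∀ j i, g j ∈ M i := fun j i => (Submodule.mem_iInf _).mp (hgN j) i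
  -- thresholds
  have hthr : ∀ i : ℕ, ∃ n₀ : ℕ, ∀ n, n₀ ≤ n → ∀ j, j ≤ i →
      Metric.infDist (g j) (fsp e (S i n) : Set X) < 1 / ((i : ℝ) + 1) := by
    intro i
    have h1 : ∀ j, ∀ᶠ n in atTop, Metric.infDist (g j) (fsp e (S i n) : Set X) < 1 / ((i : ℝ) + 1) :=
      fun j => ((hS i (g j)).mp (hgM j i)).eventually (gt_mem_nhds (by positivity))
    have h2 : ∀ᶠ n in atTop, ∀ j ∈ Finset.range (i + 1),
        Metric.infDist (g j) (fsp e (S i n) : Set X) < 1 / ((i : ℝ) + 1) :=
      (Finset.eventually_all _).mpr fun j _ => h1 j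
    obtain ⟨n₀, hn₀⟩ := eventually_atTop.mp h2
    exact ⟨n₀, fun n hn j hj => hn₀ n hn j (Finset.mem_range.mpr (Nat.lt_succ_of_le hj))⟩
  choose n₀ hn₀ using hthr
  refine ⟨fun l => S (Nat.unpair l).1 (n₀ (Nat.unpair l).1 + (Nat.unpair l).2), fun f => ?_⟩
  constructor
  · intro hf
    rw [Metric.tendsto_atTop]
    intro ε hε
    -- approximate f by some g j
    have hfc : f ∈ closure c := hcd hf
    obtain ⟨y, hy, hyd⟩ := Metric.mem_closure_iff.mp hfc (ε / 2) (half_pos hε)
    rw [hg] at hy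
    obtain ⟨j, rfl⟩ := hy
    rw [dist_eq_norm] at hyd
    -- large i
    obtain ⟨i₀, hi₀⟩ := exists_nat_gt (2 / ε)
    let i₁ := max i₀ j
    have hbig : ∀ i, i₁ ≤ i → ∀ m,
        Metric.infDist f (fsp e (S i (n₀ i + m)) : Set X) < ε := by
      intro i hi m
      have h1 := hn₀ i (n₀ i + m) (Nat.le_add_right _ _) j ((le_max_right _ _).trans hi)
      have h2 := infDist_triangle (fsp e (S i (n₀ i + m))) f (g j)
      have h3 : 1 / ((i : ℝ) + 1) < ε / 2 := by
        have : (i₀ : ℝ) ≤ i := by exact_mod_cast (le_max_left _ _).trans hi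
        rw [div_lt_iff₀ (by positivity)]
        have h4 : 2 / ε < (i : ℝ) + 1 := by linarith
        rw [div_lt_iff₀ hε] at h4
        nlinarith
      linarith
    -- small i
    have hsmall : ∀ i, ∃ m₀, ∀ m, m₀ ≤ m →
        Metric.infDist f (fsp e (S i (n₀ i + m)) : Set X) < ε := by
      intro i
      have h1 := ((hS i f).mp ((Submodule.mem_iInf _).mp hf i)).eventually (gt_mem_nhds hε)
      obtain ⟨m₀, hm₀⟩ := eventually_atTop.mp h1
      exact ⟨m₀, fun m hm => hm₀ _ (hm.trans (Nat.le_add_left _ _))⟩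
    choose m₀ hm₀ using hsmall
    -- the exceptional pairs form a finite set
    let Bad : Finset ℕ := (Finset.range i₁).biUnion fun i =>
      (Finset.range (m₀ i)).image fun m => Nat.pair i m
    refine ⟨Bad.sup id + 1, fun l hl => ?_⟩
    rw [Real.dist_eq, sub_zero, abs_of_nonneg Metric.infDist_nonneg]
    by_cases hi : i₁ ≤ (Nat.unpair l).1
    · exact hbig _ hi _
    · by_cases hm : m₀ (Nat.unpair l).1 ≤ (Nat.unpair l).2
      · exact hm₀ _ _ hm
      · exfalso
        have hmem : l ∈ Bad := by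
          simp only [Bad, Finset.mem_biUnion, Finset.mem_range, Finset.mem_image]
          exact ⟨_, not_le.mp hi, _, not_le.mp hm, Nat.pair_unpair l⟩
        have := Finset.le_sup (f := id) hmem
        simp only [id] at this
        omega
  · intro hf
    rw [Submodule.mem_iInf]
    intro i
    rw [hS i f, Metric.tendsto_atTop]
    intro ε hε
    rw [Metric.tendsto_atTop] at hf
    obtain ⟨L, hL⟩ := hf ε hε
    refine ⟨n₀ i + L, fun n hn => ?_⟩
    have h1 := hL (Nat.pair i (n - n₀ i)) (by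
      have := Nat.right_le_pair i (n - n₀ i)
      omega)
    simp only [Nat.unpair_pair] at h1
    have h2 : n₀ i + (n - n₀ i) = n := by omega
    rw [h2] at h1
    exact h1

/-- arbitrary nonempty intersections -/
theorem isLim_sInf {e : ι → X} [TopologicalSpace.SeparableSpace X] (F : Set (Submodule ℂ X))
    (hne : F.Nonempty) (h : ∀ M ∈ F, IsLim e M) : IsLim e (sInf F) := by
  -- Lindelöf
  have hsc : SecondCountableTopology X := UniformSpace.secondCountable_of_separable X
  have hopen : ∀ M : F, IsOpen ((M.1 : Set X)ᶜ) := fun M =>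
    (h M.1 M.2).isClosed.isOpen_compl
  obtain ⟨T, hTc, hTU⟩ := TopologicalSpace.isOpen_iUnion_countable (fun M : F => (M.1 : Set X)ᶜ) hopen
  obtain ⟨M₀, hM₀⟩ := hne
  let T' : Set F := insert ⟨M₀, hM₀⟩ T
  have hT'c : T'.Countable := hTc.insert _
  obtain ⟨φ, hφ⟩ := hT'c.exists_eq_range (Set.insert_nonempty _ _)
  have key : sInf F = ⨅ n, (φ n).1 := by
    apply le_antisymm
    · exact le_iInf fun n => sInf_le (φ n).2
    · intro f hf
      rw [Submodule.mem_sInf]
      intro M hM
      by_contra hfM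
      have h1 : f ∈ ⋃ M : F, ((M.1 : Set X)ᶜ) := Set.mem_iUnion.mpr ⟨⟨M, hM⟩, hfM⟩
      rw [← hTU] at h1
      obtain ⟨M', hM'T, hfM'⟩ := Set.mem_iUnion₂.mp h1
      have h2 : M' ∈ Set.range φ := hφ ▸ Set.mem_insert_of_mem _ hM'T
      obtain ⟨n, rfl⟩ := h2
      exact hfM' ((Submodule.mem_iInf _).mp hf n)
  rw [key]
  exact isLim_iInf _ fun n => h _ (φ n).2

end abs

end DC8965
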