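import Pool.Agent.Lib.MP_dc8965_an.Abs1

/-!
A criterion for preimages of limits of finite spaces.
-/

open MeasureTheory Filter Topology Set
open scoped ENNReal NNReal

namespace DC8965

section abs
variable {X ι : Type*} [NormedAddCommGroup X] [NormedSpace ℂ X]

/-- an operator mapping the generators into a subspace maps their span into it -/
lemma map_fsp_le {e : ι → X} {E : Finset ι} {A : X →L[ℂ] X} {W : Submodule ℂ X}
    (h : ∀ i ∈ E, A (e i) ∈ W) {x : X} (hx : x ∈ fsp e E) : A x ∈ W := by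
  have h1 : fsp e E ≤ W.comap (A : X →ₗ[ℂ] X) := by
    rw [fsp, Submodule.span_le]
    rintro _ ⟨i, hi, rfl⟩
    exact h i hi
  exact h1 hx

/-- The criterion. -/
theorem isLim_comap {e : ι → X} [TopologicalSpace.SeparableSpace X] (T : X →L[ℂ] X) {c : ℂ}
    (hc : c ≠ 0) {C : ℝ} (M' : Submodule ℂ X) (S : ℕ → Finset ι)
    (hS : ∀ f : X, f ∈ M' ↔ Tendsto (fun n => Metric.infDist f (fsp e (S n) : Set X)) atTop (𝓝 0))
    (H : ∀ ε : ℝ, 0 < ε → ∀ F G : Finset X, (∀ g ∈ F, T g ∈ M') → ∀ᶠ k in atTop,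
      ∃ A : X →L[ℂ] X, ‖A‖ ≤ C ∧ (∀ h ∈ G, ‖A h - c • T h‖ < ε) ∧ ∃ E : Finset ι,
        (∀ i ∈ E, A (e i) ∈ fsp e (S k)) ∧ ∀ g ∈ F, ∃ x ∈ fsp e E, ‖g - x‖ < ε) :
    IsLim e (M'.comap (T : X →ₗ[ℂ] X)) := by
  classical
  let N : Submodule ℂ X := M'.comap (T : X →ₗ[ℂ] X)
  have hsep : TopologicalSpace.IsSeparable (N : Set X) := TopologicalSpace.IsSeparable.of_separableSpace _
  obtain ⟨c', hcN, hcc, hcd⟩ := hsep.exists_countable_dense_subset
  have hne : (c' : Set X).Nonempty := by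
    by_contra hc
    rw [Set.not_nonempty_iff_eq_empty] at hc
    rw [hc] at hcd
    have : (0 : X) ∈ closure (∅ : Set X) := hcd N.zero_mem
    simp at this
  obtain ⟨g, hg⟩ := hcc.exists_eq_range hne
  have hgN : ∀ j, T (g j) ∈ M' := fun j => hcN (hg ▸ Set.mem_range_self j)
  have : Nonempty X := ⟨0⟩
  let h : ℕ → X := TopologicalSpace.denseSeq X
  have hhd : DenseRange h := TopologicalSpace.denseRange_denseSeq X
  -- the levels
  let Q : ℕ → ℕ → (X →L[ℂ] X) → Finset ι → Prop := fun l k A E =>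
    ‖A‖ ≤ C ∧ (∀ j, j ≤ l → ‖A (h j) - c • T (h j)‖ < 1 / ((l : ℝ) + 1)) ∧
      (∀ i ∈ E, A (e i) ∈ fsp e (S k)) ∧ ∀ j, j ≤ l → ∃ x ∈ fsp e E, ‖g j - x‖ < 1 / ((l : ℝ) + 1)
  let P : ℕ → ℕ → Prop := fun l k => ∃ A E, Q l k A E
  have hP : ∀ l, ∀ᶠ k in atTop, P l k := by
    intro l
    have h1 := H (1 / ((l : ℝ) + 1)) (by positivity) ((Finset.range (l + 1)).image g)
      ((Finset.range (l + 1)).image h) (by
        intro y hy
        obtain ⟨j, -, rfl⟩ := Finset.mem_image.mp hy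
        exact hgN j)
    filter_upwards [h1] with k hk
    obtain ⟨A, hA, hA2, E, hE, hE2⟩ := hk
    refine ⟨A, E, hA, fun j hj => hA2 _ (Finset.mem_image_of_mem _ (Finset.mem_range.mpr (Nat.lt_succ_of_le hj))),
      hE, fun j hj => hE2 _ (Finset.mem_image_of_mem _ (Finset.mem_range.mpr (Nat.lt_succ_of_le hj)))⟩
  let L : ℕ → ℕ := fun k => Nat.findGreatest (fun l => P l k) k
  have hL : ∀ l, ∀ᶠ k in atTop, l ≤ L k := by
    intro l
    filter_upwards [hP l, eventually_ge_atTop l] with k hk hk2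
    exact Nat.le_findGreatest hk2 hk
  have hPL : ∀ᶠ k in atTop, P (L k) k := by
    filter_upwards [hP 0] with k hk
    exact Nat.findGreatest_spec (P := fun l => P l k) (Nat.zero_le k) hk
  -- choose
  have hch : ∀ k, ∃ A E, P (L k) k → Q (L k) k A E := by
    intro k
    by_cases hk : P (L k) k
    · obtain ⟨A, E, hq⟩ := hk
      exact ⟨A, E, fun _ => hq⟩
    · exact ⟨0, ∅, fun h => absurd h hk⟩
  choose A E hAE using hch
  have hQ : ∀ᶠ k in atTop, Q (L k) k (A k) (E k) := hPL.mono fun k hk => hAE k hk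
  refine ⟨E, fun f => ?_⟩
  constructor
  · intro hf
    rw [Metric.tendsto_atTop]
    intro ε hε
    have hfc : f ∈ closure c' := hcd hf
    obtain ⟨y, hy, hyd⟩ := Metric.mem_closure_iff.mp hfc (ε / 2) (half_pos hε)
    rw [hg] at hy
    obtain ⟨j, rfl⟩ := hy
    rw [dist_eq_norm] at hyd
    obtain ⟨i₀, hi₀⟩ := exists_nat_gt (2 / ε)
    rw [← eventually_atTop]
    filter_upwards [hQ, hL (max i₀ j)] with k hk hk2
    rw [Real.dist_eq, sub_zero, abs_of_nonneg Metric.infDist_nonneg]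
    obtain ⟨x, hx, hxd⟩ := hk.2.2.2 j ((le_max_right _ _).trans hk2)
    have h1 : Metric.infDist f (fsp e (E k) : Set X) ≤ ‖f - x‖ := by
      rw [← dist_eq_norm]; exact Metric.infDist_le_dist_of_mem hx
    have h3 : 1 / ((L k : ℝ) + 1) < ε / 2 := by
      have : (i₀ : ℝ) ≤ L k := by exact_mod_cast (le_max_left _ _).trans hk2
      rw [div_lt_iff₀ (by positivity)]
      have h4 : 2 / ε < (L k : ℝ) + 1 := by linarith
      rw [div_lt_iff₀ hε] at h4
      nlinarith
    have h5 : ‖f - x‖ ≤ ‖f - g j‖ + ‖g j - x‖ := norm_sub_le_norm_sub_add_norm_sub _ _ _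
    linarith
  · intro hf
    -- approximants
    have hx : ∀ k, ∃ x ∈ fsp e (E k), ‖f - x‖ < Metric.infDist f (fsp e (E k) : Set X) + 1 / ((k : ℝ) + 1) := by
      intro k
      have h1 : Metric.infDist f (fsp e (E k) : Set X)
          < Metric.infDist f (fsp e (E k) : Set X) + 1 / ((k : ℝ) + 1) := by
        have : (0 : ℝ) < 1 / ((k : ℝ) + 1) := by positivity
        linarith
      obtain ⟨x, hx, hxd⟩ := (Metric.infDist_lt_iff ⟨0, (fsp e (E k)).zero_mem⟩).mp h1
      exact ⟨x, hx, by rwa [← dist_eq_norm]⟩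
    choose x hxE hxd using hx
    have hxlim : Tendsto (fun k => ‖f - x k‖) atTop (𝓝 0) := by
      have h1 : Tendsto (fun k : ℕ => Metric.infDist f (fsp e (E k) : Set X) + 1 / ((k : ℝ) + 1))
          atTop (𝓝 (0 + 0)) := hf.add tendsto_one_div_add_atTop_nhds_zero_nat
      rw [add_zero] at h1
      exact squeeze_zero (fun _ => norm_nonneg _) (fun k => (hxd k).le) h1
    have hC : ∀ᶠ k in atTop, ‖A k‖ ≤ C := hQ.mono fun k hk => hk.1
    have hC0 : 0 ≤ C := by
      obtain ⟨k, hk⟩ := hC.exists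
      exact (norm_nonneg _).trans hk
    -- strong convergence at f
    have hstrong : Tendsto (fun k => ‖A k f - c • T f‖) atTop (𝓝 0) := by
      rw [Metric.tendsto_atTop]
      intro ε hε
      let K : ℝ := C + ‖c‖ * ‖T‖ + 1
      have hK : 0 < K := by positivity
      obtain ⟨j, hj⟩ : ∃ j, dist f (h j) < ε / (2 * K) := by
        have := hhd f
        obtain ⟨_, ⟨j, rfl⟩, hj⟩ := Metric.mem_closure_iff.mp this (ε / (2 * K)) (by positivity)
        exact ⟨j, hj⟩
      rw [dist_eq_norm] at hj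
      obtain ⟨i₀, hi₀⟩ := exists_nat_gt (2 / ε)
      rw [← eventually_atTop]
      filter_upwards [hQ, hL (max i₀ j)] with k hk hk2
      rw [Real.dist_eq, sub_zero, abs_of_nonneg (norm_nonneg _)]
      have h1 := hk.2.1 j ((le_max_right _ _).trans hk2)
      have h3 : 1 / ((L k : ℝ) + 1) < ε / 2 := by
        have : (i₀ : ℝ) ≤ L k := by exact_mod_cast (le_max_left _ _).trans hk2
        rw [div_lt_iff₀ (by positivity)]
        have h4 : 2 / ε < (L k : ℝ) + 1 := by linarith
        rw [div_lt_iff₀ hε] at h4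
        nlinarith
      have h5 : A k f - c • T f = A k (f - h j) + (A k (h j) - c • T (h j)) - c • T (f - h j) := by
        rw [map_sub, map_sub, smul_sub]; abel
      rw [h5]
      have h6 : ‖A k (f - h j)‖ ≤ C * ‖f - h j‖ :=
        ((A k).le_opNorm _).trans (mul_le_mul_of_nonneg_right hk.1 (norm_nonneg _))
      have h7 : ‖c • T (f - h j)‖ ≤ ‖c‖ * ‖T‖ * ‖f - h j‖ := by
        rw [norm_smul, mul_assoc]
        exact mul_le_mul_of_nonneg_left (T.le_opNorm _) (norm_nonneg _)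
      have h8 : (C + ‖c‖ * ‖T‖) * ‖f - h j‖ ≤ ε / 2 := by
        have : (C + ‖c‖ * ‖T‖) * ‖f - h j‖ ≤ K * (ε / (2 * K)) := by
          apply mul_le_mul _ hj.le (norm_nonneg _) hK.le
          simp only [K]; linarith
        have h9 : K * (ε / (2 * K)) = ε / 2 := by field_simp
        linarith
      calc ‖A k (f - h j) + (A k (h j) - c • T (h j)) - c • T (f - h j)‖
          ≤ ‖A k (f - h j) + (A k (h j) - c • T (h j))‖ + ‖c • T (f - h j)‖ := norm_sub_le _ _
        _ ≤ ‖A k (f - h j)‖ + ‖A k (h j) - c • T (h j)‖ + ‖c • T (f - h j)‖ := by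
            gcongr; exact norm_add_le _ _
        _ < ε := by nlinarith
    -- conclusion
    change T f ∈ M'
    have hcT : c • T f ∈ M' := by
      rw [hS]
      have hbound : ∀ᶠ k in atTop, Metric.infDist (c • T f) (fsp e (S k) : Set X)
          ≤ C * ‖f - x k‖ + ‖A k f - c • T f‖ := by
        filter_upwards [hQ] with k hk
        have h1 : A k (x k) ∈ fsp e (S k) := map_fsp_le hk.2.2.1 (hxE k)
        have h2 : Metric.infDist (c • T f) (fsp e (S k) : Set X) ≤ ‖c • T f - A k (x k)‖ := by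
          rw [← dist_eq_norm]; exact Metric.infDist_le_dist_of_mem h1
        have h3 : c • T f - A k (x k) = A k (f - x k) - (A k f - c • T f) := by
          rw [map_sub]; abel
        have h4 : ‖A k (f - x k)‖ ≤ C * ‖f - x k‖ :=
          ((A k).le_opNorm _).trans (mul_le_mul_of_nonneg_right hk.1 (norm_nonneg _))
        calc Metric.infDist (c • T f) (fsp e (S k) : Set X) ≤ ‖c • T f - A k (x k)‖ := h2
          _ = ‖A k (f - x k) - (A k f - c • T f)‖ := by rw [h3]
          _ ≤ ‖A k (f - x k)‖ + ‖A k f - c • T f‖ := norm_sub_le _ _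
          _ ≤ _ := by gcongr
      have hlim : Tendsto (fun k => C * ‖f - x k‖ + ‖A k f - c • T f‖) atTop (𝓝 (C * 0 + 0)) :=
        (hxlim.const_mul C).add hstrong
      rw [mul_zero, add_zero] at hlim
      exact squeeze_zero' (Eventually.of_forall fun _ => Metric.infDist_nonneg) hbound hlim
    have := M'.smul_mem c⁻¹ hcT
    rwa [smul_smul, inv_mul_cancel₀ hc, one_smul] at this

end abs

end DC8965
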