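import Pool.Agent.Lib.MP_dc8965_an.Abs2

/-!
The key lemma: preimages under operators that are limits of polynomials in co-isometries.
-/

open MeasureTheory Filter Topology Set
open scoped ENNReal NNReal Polynomial

namespace DC8965

/-- (K1) a small generic constant makes the roots simple and avoids finitely many points -/
lemma exists_generic (s₀ : ℂ[X]) (hs : s₀.derivative ≠ 0) (B : Finset ℂ) {δ : ℝ} (hδ : 0 < δ) :
    ∃ η : ℂ, ‖η‖ < δ ∧ (∀ b ∈ B, (s₀ + Polynomial.C η).eval b ≠ 0) ∧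
      (s₀ + Polynomial.C η).roots.Nodup ∧ s₀ + Polynomial.C η ≠ 0 := by
  classical
  let Bad : Finset ℂ := (B ∪ s₀.derivative.roots.toFinset).image fun b => -s₀.eval b
  have hinf : (Metric.ball (0 : ℂ) δ).Infinite := by
    apply infinite_of_mem_nhds (0 : ℂ)
    exact Metric.ball_mem_nhds _ hδ
  obtain ⟨η, hη, hηB⟩ := hinf.exists_notMem_finset Bad
  have hne : s₀ + Polynomial.C η ≠ 0 := by
    intro h
    apply hs
    have := congrArg Polynomial.derivative h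
    simpa using this
  refine ⟨η, by simpa using hη, ?_, ?_, hne⟩
  · intro b hb h
    apply hηB
    rw [Polynomial.eval_add, Polynomial.eval_C] at h
    refine Finset.mem_image.mpr ⟨b, Finset.mem_union_left _ hb, ?_⟩
    rw [neg_eq_iff_add_eq_zero]; exact h
  · rw [Multiset.nodup_iff_count_le_one]
    intro v
    rw [Polynomial.count_roots]
    by_contra hlt
    have hlt' : 1 < (s₀ + Polynomial.C η).rootMultiplicity v := not_le.mp hlt
    rw [Polynomial.one_lt_rootMultiplicity_iff_isRoot hne] at hlt'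
    obtain ⟨h1, h2⟩ := hlt'
    rw [Polynomial.derivative_add, Polynomial.derivative_C, add_zero] at h2
    apply hηB
    have h1' : s₀.eval v + η = 0 := by
      have := h1.eq_zero
      rwa [Polynomial.eval_add, Polynomial.eval_C] at this
    refine Finset.mem_image.mpr ⟨v, Finset.mem_union_right _ ?_, ?_⟩
    · rw [Multiset.mem_toFinset, Polynomial.mem_roots hs]; exact h2
    · rw [neg_eq_iff_add_eq_zero]; exact h1'

section abs
variable {X ι : Type*} [NormedAddCommGroup X] [NormedSpace ℂ X]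

/-- (K2) decomposition of the kernel of a polynomial with simple roots -/
lemma ker_decomp (A : X →L[ℂ] X) (W : Finset ℂ) (hW : W.Nonempty) (g : X)
    (hg : Polynomial.aeval A (∏ w ∈ W, (Polynomial.X - Polynomial.C w)) g = 0) :
    ∃ gs : ℂ → X, g = ∑ w ∈ W, gs w ∧ ∀ w ∈ W, A (gs w) = w • gs w := by
  classical
  refine ⟨fun w => Polynomial.aeval A (Lagrange.basis W id w) g, ?_, ?_⟩
  · have h1 := Lagrange.sum_basis (s := W) (v := (id : ℂ → ℂ)) (Set.injOn_id _) hW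
    have h2 := congrArg (fun P => Polynomial.aeval A P g) h1
    simp only [map_sum, map_one, _root_.sum_apply, one_apply_eq_self] at h2
    exact h2.symm
  · intro w hw
    have h1 : (Polynomial.X - Polynomial.C w) * Lagrange.basis W id w
        = Polynomial.C (∏ j ∈ W.erase w, (w - j)⁻¹) * ∏ j ∈ W, (Polynomial.X - Polynomial.C j) := by
      rw [← Finset.mul_prod_erase W _ hw, Lagrange.basis]
      simp only [Lagrange.basisDivisor, id, Finset.prod_mul_distrib, map_prod]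
      ring
    have h2 : Polynomial.aeval A ((Polynomial.X - Polynomial.C w) * Lagrange.basis W id w) g = 0 := by
      rw [h1, map_mul, Polynomial.aeval_C]
      change (algebraMap ℂ (X →L[ℂ] X) _) (Polynomial.aeval A (∏ j ∈ W, (Polynomial.X - Polynomial.C j)) g) = 0
      rw [hg, map_zero]
    rw [map_mul, map_sub, Polynomial.aeval_X, Polynomial.aeval_C] at h2
    change (A - algebraMap ℂ (X →L[ℂ] X) w) (Polynomial.aeval A (Lagrange.basis W id w) g) = 0 at h2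
    rw [_root_.sub_apply, sub_eq_zero, Algebra.algebraMap_eq_smul_one,
      _root_.smul_apply, one_apply_eq_self] at h2
    exact h2

/-- (K3) solving `z + K z = y` -/
lemma solve_half [CompleteSpace X] (K : X →L[ℂ] X) (hK : ‖K‖ ≤ 1 / 2) (y : X) :
    ∃ z : X, z + K z = y ∧ ‖z‖ ≤ 2 * ‖y‖ := by
  have h1 : ‖-K‖ < 1 := by rw [norm_neg]; linarith
  let U : (X →L[ℂ] X)ˣ := Units.oneSub (-K) h1
  have hU : (U : X →L[ℂ] X) = 1 + K := by
    simp [U]
  let z : X := (↑(U⁻¹) : X →L[ℂ] X) y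
  have hz : z + K z = y := by
    have h2 : (U : X →L[ℂ] X) z = y := by
      change ((U : X →L[ℂ] X) * (↑(U⁻¹) : X →L[ℂ] X)) y = y
      rw [Units.mul_inv]; rfl
    rw [hU] at h2
    simpa using h2
  refine ⟨z, hz, ?_⟩
  have h3 : ‖K z‖ ≤ 1 / 2 * ‖z‖ := (K.le_opNorm z).trans (mul_le_mul_of_nonneg_right hK (norm_nonneg _))
  have h4 : z = y - K z := by rw [← hz]; abel
  have h5 : ‖z‖ ≤ ‖y‖ + ‖K z‖ := by
    calc ‖z‖ = ‖y - K z‖ := by rw [← h4]
      _ ≤ ‖y‖ + ‖K z‖ := norm_sub_le _ _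
  linarith

/-- polynomials act on eigenvectors by their value -/
lemma aeval_eigen (A : X →L[ℂ] X) {x : X} {w : ℂ} (h : A x = w • x) (P : ℂ[X]) :
    Polynomial.aeval A P x = P.eval w • x := by
  induction P using Polynomial.induction_on' with
  | add p q hp hq =>
    rw [map_add, _root_.add_apply, hp, hq, Polynomial.eval_add, add_smul]
  | monomial n a =>
    have hpow : ∀ n : ℕ, (A ^ n) x = w ^ n • x := by
      intro n
      induction n with
      | zero => simp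
      | succ n ih =>
        rw [pow_succ']
        change A ((A ^ n) x) = _
        rw [ih, map_smul, h, smul_smul, pow_succ]
    rw [Polynomial.aeval_monomial, Polynomial.eval_monomial]
    change (algebraMap ℂ (X →L[ℂ] X) a) ((A ^ n) x) = _
    rw [hpow, Algebra.algebraMap_eq_smul_one, _root_.smul_apply,
      one_apply_eq_self, smul_smul]

lemma norm_pow_le_one {A : X →L[ℂ] X} (hA : ‖A‖ ≤ 1) (m : ℕ) : ‖A ^ m‖ ≤ 1 := by
  rcases Nat.eq_zero_or_pos m with rfl | hm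
  · rw [pow_zero]; exact ContinuousLinearMap.norm_id_le
  · exact (norm_pow_le' A hm).trans (pow_le_one₀ (norm_nonneg _) hA)

lemma VR_pow {V R : X →L[ℂ] X} (h : ∀ g, V (R g) = g) (m : ℕ) (g : X) : (V ^ m) ((R ^ m) g) = g := by
  induction m generalizing g with
  | zero => simp
  | succ m ih =>
    rw [pow_succ, pow_succ']
    change (V ^ m) (V (R ((R ^ m) g))) = g
    rw [h, ih]

/-- The key lemma. -/
theorem key [CompleteSpace X] {e : ι → X} (T : X →L[ℂ] X) (M' : Submodule ℂ X)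
    (S : ℕ → Finset ι)
    (hS : ∀ f : X, f ∈ M' ↔ Tendsto (fun n => Metric.infDist f (fsp e (S n) : Set X)) atTop (𝓝 0))
    (Vf Rf : ℝ → X →L[ℂ] X) (χ : ℝ → ι → ℂ)
    (hVn : ∀ l, ‖Vf l‖ ≤ 1) (hRn : ∀ l, ‖Rf l‖ ≤ 1) (hVR : ∀ l, 0 < l → ∀ g, Vf l (Rf l g) = g)
    (hV0 : ∀ l, 0 < l → ∀ g, Tendsto (fun m : ℕ => (Vf l ^ m) g) atTop (𝓝 0))
    (hVe : ∀ l, 0 < l → ∀ i, Vf l (e i) = χ l i • e i)
    (hker : ∀ l, 0 < l → ∀ w : ℂ, w ≠ 0 → ∀ g, Vf l g = w • g → ∀ ε : ℝ, 0 < ε →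
      ∃ E : Finset ι, (∀ i ∈ E, χ l i = w) ∧ ∃ x ∈ fsp e E, ‖g - x‖ < ε)
    (hpoly : ∀ ε : ℝ, 0 < ε → ∀ G : Finset X, ∃ l : ℝ, 0 < l ∧ ∃ P : ℂ[X],
      ‖Polynomial.aeval (Vf l) P‖ ≤ ‖T‖ ∧ ∀ h ∈ G, ‖Polynomial.aeval (Vf l) P h - T h‖ < ε)
    (c : ℝ) (hc0 : 0 < c) (hc1 : c ≤ 1) (hcT : c * ‖T‖ ≤ 1 / 4) :
    ∀ ε : ℝ, 0 < ε → ∀ F G : Finset X, (∀ g ∈ F, T g ∈ M') → ∀ᶠ k in atTop,
      ∃ A : X →L[ℂ] X, ‖A‖ ≤ 2 ∧ (∀ h ∈ G, ‖A h - (c : ℂ) • T h‖ < ε) ∧ ∃ E : Finset ι,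
        (∀ i ∈ E, A (e i) ∈ fsp e (S k)) ∧ ∀ g ∈ F, ∃ x ∈ fsp e E, ‖g - x‖ < ε := by
  classical
  intro ε hε F G hF
  obtain ⟨ε₁, hε₁, hε₁'⟩ : ∃ ε₁ : ℝ, 0 < ε₁ ∧ 10 * ε₁ < ε := ⟨ε / 11, by positivity, by linarith⟩
  obtain ⟨l, hl, P, hPn, hP⟩ := hpoly ε₁ hε₁ (F ∪ G)
  set V := Vf l with hVdef
  set R := Rf l with hRdef
  -- choose m
  obtain ⟨m, hm, hmd⟩ : ∃ m : ℕ, (∀ h ∈ F ∪ G, ‖(V ^ m) h‖ < ε₁) ∧ P.natDegree < m := by
    have h1 : ∀ h ∈ F ∪ G, ∀ᶠ m : ℕ in atTop, ‖(V ^ m) h‖ < ε₁ := by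
      intro h _
      have := (hV0 l hl h).norm
      rw [norm_zero] at this
      exact this.eventually (gt_mem_nhds hε₁)
    have h2 := (Finset.eventually_all (F ∪ G)).mpr h1
    obtain ⟨m, hm, hm'⟩ := (h2.and (eventually_gt_atTop P.natDegree)).exists
    exact ⟨m, hm, hm'⟩
  let s₀ : ℂ[X] := Polynomial.X ^ m + Polynomial.C (c : ℂ) * P
  have hs₀deg : s₀.natDegree = m := by
    have h1 : (Polynomial.C (c : ℂ) * P).natDegree < (Polynomial.X ^ m : ℂ[X]).natDegree := by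
      rw [Polynomial.natDegree_X_pow]
      exact (Polynomial.natDegree_C_mul_le _ _).trans_lt hmd
    rw [Polynomial.natDegree_add_eq_left_of_natDegree_lt h1, Polynomial.natDegree_X_pow]
  have hm0 : 0 < m := (Nat.zero_le _).trans_lt hmd
  have hs₀' : s₀.derivative ≠ 0 := by
    intro h
    have := Polynomial.derivative_eq_zero.mp h
    omega
  -- bound for the vectors
  obtain ⟨δ, hδ, hδ4, hδF⟩ : ∃ δ : ℝ, 0 < δ ∧ δ ≤ 1 / 4 ∧ ∀ h ∈ F ∪ G, δ * ‖h‖ ≤ ε₁ := by
    obtain ⟨B, hB⟩ := ((F ∪ G).image fun h => ‖h‖).exists_le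
    refine ⟨min (1 / 4) (ε₁ / (|B| + 1)), by positivity, min_le_left _ _, fun h hh => ?_⟩
    have h1 : ‖h‖ ≤ |B| + 1 := by
      have := hB _ (Finset.mem_image_of_mem (fun h => ‖h‖) hh)
      have h3 := le_abs_self B
      linarith
    calc min (1 / 4) (ε₁ / (|B| + 1)) * ‖h‖ ≤ ε₁ / (|B| + 1) * (|B| + 1) := by
          gcongr; exact min_le_right _ _
      _ = ε₁ := by
          have : |B| + 1 ≠ 0 := by positivity
          field_simp
  -- k large
  have hk1 : ∀ g ∈ F, ∀ᶠ k in atTop, Metric.infDist (T g) (fsp e (S k) : Set X) < ε₁ := fun g hg =>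
    ((hS (T g)).mp (hF g hg)).eventually (gt_mem_nhds hε₁)
  have hk2 := (Finset.eventually_all F).mpr hk1
  filter_upwards [hk2] with k hk
  obtain ⟨η, hηδ, hηB, hηnodup, hs_ne⟩ := exists_generic s₀ hs₀'
    (insert 0 ((S k).image (χ l))) hδ
  set s : ℂ[X] := s₀ + Polynomial.C η with hsdef
  let A : X →L[ℂ] X := Polynomial.aeval V s
  have hAeq : A = V ^ m + (c : ℂ) • Polynomial.aeval V P + η • (1 : X →L[ℂ] X) := by
    simp only [A, hsdef, s₀, map_add, map_mul, map_pow, Polynomial.aeval_X, Polynomial.aeval_C,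
      Algebra.algebraMap_eq_smul_one, smul_mul_assoc, one_mul]
  have hcP : ‖(c : ℂ) • Polynomial.aeval V P‖ ≤ 1 / 4 := by
    rw [norm_smul, Complex.norm_real, Real.norm_eq_abs, abs_of_pos hc0]
    exact (mul_le_mul_of_nonneg_left hPn hc0.le).trans hcT
  have hη1 : ‖η • (1 : X →L[ℂ] X)‖ ≤ 1 / 4 := by
    rw [norm_smul]
    calc ‖η‖ * ‖(1 : X →L[ℂ] X)‖ ≤ ‖η‖ * 1 := by
          gcongr; exact ContinuousLinearMap.norm_id_le
      _ ≤ 1 / 4 := by rw [mul_one]; exact hηδ.le.trans hδ4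
  have hAn : ‖A‖ ≤ 2 := by
    rw [hAeq]
    calc ‖V ^ m + (c : ℂ) • Polynomial.aeval V P + η • (1 : X →L[ℂ] X)‖
        ≤ ‖V ^ m + (c : ℂ) • Polynomial.aeval V P‖ + ‖η • (1 : X →L[ℂ] X)‖ := norm_add_le _ _
      _ ≤ ‖V ^ m‖ + ‖(c : ℂ) • Polynomial.aeval V P‖ + ‖η • (1 : X →L[ℂ] X)‖ := by
          gcongr; exact norm_add_le _ _
      _ ≤ 1 + 1 / 4 + 1 / 4 := by gcongr; exact norm_pow_le_one (hVn l) m
      _ ≤ 2 := by norm_num
  -- A is close to c T on F ∪ G
  have hAT : ∀ h ∈ F ∪ G, ‖A h - (c : ℂ) • T h‖ ≤ 3 * ε₁ := by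
    intro h hh
    have h1 : A h - (c : ℂ) • T h
        = (V ^ m) h + (c : ℂ) • (Polynomial.aeval V P h - T h) + η • h := by
      rw [hAeq]
      simp only [_root_.add_apply, _root_.smul_apply,
        one_apply_eq_self, smul_sub]
      abel
    rw [h1]
    have h2 : ‖(c : ℂ) • (Polynomial.aeval V P h - T h)‖ ≤ ε₁ := by
      rw [norm_smul, Complex.norm_real, Real.norm_eq_abs, abs_of_pos hc0]
      calc c * ‖Polynomial.aeval V P h - T h‖ ≤ 1 * ε₁ := by
            gcongr; exact (hP h hh).le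
        _ = ε₁ := one_mul _
    have h3 : ‖η • h‖ ≤ ε₁ := by
      rw [norm_smul]
      exact (mul_le_mul_of_nonneg_right hηδ.le (norm_nonneg _)).trans (hδF h hh)
    calc ‖(V ^ m) h + (c : ℂ) • (Polynomial.aeval V P h - T h) + η • h‖
        ≤ ‖(V ^ m) h + (c : ℂ) • (Polynomial.aeval V P h - T h)‖ + ‖η • h‖ := norm_add_le _ _
      _ ≤ ‖(V ^ m) h‖ + ‖(c : ℂ) • (Polynomial.aeval V P h - T h)‖ + ‖η • h‖ := by
          gcongr; exact norm_add_le _ _
      _ ≤ ε₁ + ε₁ + ε₁ := by gcongr; exact (hm h hh).le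
      _ = 3 * ε₁ := by ring
  -- right inverse of A
  have hsolve : ∀ y : X, ∃ x : X, A x = y ∧ ‖x‖ ≤ 2 * ‖y‖ := by
    intro y
    let K : X →L[ℂ] X := ((c : ℂ) • Polynomial.aeval V P + η • (1 : X →L[ℂ] X)) * R ^ m
    have hK : ‖K‖ ≤ 1 / 2 := by
      calc ‖K‖ ≤ ‖(c : ℂ) • Polynomial.aeval V P + η • (1 : X →L[ℂ] X)‖ * ‖R ^ m‖ := norm_mul_le _ _
        _ ≤ (1 / 4 + 1 / 4) * 1 := by
            gcongr
            · exact (norm_add_le _ _).trans (add_le_add hcP hη1)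
            · exact norm_pow_le_one (hRn l) m
        _ = 1 / 2 := by norm_num
    obtain ⟨z, hz, hzn⟩ := solve_half K hK y
    refine ⟨(R ^ m) z, ?_, ?_⟩
    · rw [hAeq, add_assoc, _root_.add_apply, VR_pow (hVR l hl)]
      exact hz
    · calc ‖(R ^ m) z‖ ≤ ‖R ^ m‖ * ‖z‖ := (R ^ m).le_opNorm z
        _ ≤ 1 * (2 * ‖y‖) := by
            gcongr
            exact norm_pow_le_one (hRn l) m
        _ = 2 * ‖y‖ := one_mul _
  -- action on eigenvectors
  have hAe : ∀ i, A (e i) = s.eval (χ l i) • e i := fun i => aeval_eigen V (hVe l hl i) s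
  -- the set of roots
  let W : Finset ℂ := s.roots.toFinset
  have hsplit : s = Polynomial.C s.leadingCoeff * ∏ w ∈ W, (Polynomial.X - Polynomial.C w) := by
    have h1 := (IsAlgClosed.splits s).eq_prod_roots
    have h2 : (s.roots.map fun a => Polynomial.X - Polynomial.C a).prod
        = ∏ w ∈ W, (Polynomial.X - Polynomial.C w) := by
      rw [Finset.prod_multiset_map_count]
      refine Finset.prod_congr rfl fun w hw => ?_
      have h3 : s.roots.count w = 1 :=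
        Multiset.count_eq_one_of_mem hηnodup (Multiset.mem_toFinset.mp hw)
      rw [h3, pow_one]
    rw [← h2]; exact h1
  have hsdeg : s.natDegree = m := by
    rw [hsdef, Polynomial.natDegree_add_C, hs₀deg]
  have hWne : W.Nonempty := by
    rw [Finset.nonempty_iff_ne_empty]
    intro h
    have h1 : s.roots = 0 := by
      rw [← Multiset.toFinset_eq_empty]; exact h
    have h2 := (IsAlgClosed.splits s).natDegree_eq_card_roots
    rw [h1, Multiset.card_zero] at h2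
    omega
  have hW0 : ∀ w ∈ W, w ≠ 0 := by
    intro w hw h0
    have h1 : s.IsRoot w := (Polynomial.mem_roots hs_ne).mp (Multiset.mem_toFinset.mp hw)
    rw [h0] at h1
    exact hηB 0 (Finset.mem_insert_self _ _) h1.eq_zero
  have hWroot : ∀ w ∈ W, s.eval w = 0 := fun w hw =>
    ((Polynomial.mem_roots hs_ne).mp (Multiset.mem_toFinset.mp hw)).eq_zero
  -- approximation of one vector
  have happrox : ∀ g ∈ F, ∃ E : Finset ι, (∀ i ∈ E, A (e i) ∈ fsp e (S k)) ∧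
      ∃ x ∈ fsp e E, ‖g - x‖ < ε := by
    intro g hg
    obtain ⟨y₀, hy₀, hy₀d⟩ := (Metric.infDist_lt_iff ⟨0, (fsp e (S k)).zero_mem⟩).mp (hk g hg)
    rw [dist_eq_norm] at hy₀d
    have hy₀d : ‖T g - y₀‖ < ε₁ := hy₀d
    have hy : (c : ℂ) • y₀ ∈ fsp e (S k) := (fsp e (S k)).smul_mem _ hy₀
    obtain ⟨x, hx, hxn⟩ := hsolve (A g - (c : ℂ) • y₀)
    have hAy : ‖A g - (c : ℂ) • y₀‖ ≤ 4 * ε₁ := by
      have h1 : A g - (c : ℂ) • y₀ = (A g - (c : ℂ) • T g) + (c : ℂ) • (T g - y₀) := by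
        rw [smul_sub]; abel
      rw [h1]
      have h2 : ‖(c : ℂ) • (T g - y₀)‖ ≤ ε₁ := by
        rw [norm_smul, Complex.norm_real, Real.norm_eq_abs, abs_of_pos hc0]
        calc c * ‖T g - y₀‖ ≤ 1 * ε₁ := by gcongr
          _ = ε₁ := one_mul _
      calc _ ≤ ‖A g - (c : ℂ) • T g‖ + ‖(c : ℂ) • (T g - y₀)‖ := norm_add_le _ _
        _ ≤ 3 * ε₁ + ε₁ := add_le_add (hAT g (Finset.mem_union_left _ hg)) h2
        _ = 4 * ε₁ := by ring
    have hxn' : ‖x‖ ≤ 8 * ε₁ := by linarith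
    -- y' with A y' = c y₀
    have hy' : ∃ y' ∈ fsp e (S k), A y' = (c : ℂ) • y₀ := by
      have h1 : fsp e (S k) ≤ (fsp e (S k)).map (A : X →ₗ[ℂ] X) := by
        rw [fsp, Submodule.span_le]
        rintro _ ⟨i, hi, rfl⟩
        have h2 : s.eval (χ l i) ≠ 0 :=
          hηB _ (Finset.mem_insert_of_mem (Finset.mem_image_of_mem _ hi))
        refine ⟨(s.eval (χ l i))⁻¹ • e i, ?_, ?_⟩
        · exact Submodule.smul_mem _ _ (Submodule.subset_span ⟨i, hi, rfl⟩)
        · change A ((s.eval (χ l i))⁻¹ • e i) = e i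
          rw [map_smul, hAe, smul_smul, inv_mul_cancel₀ h2, one_smul]
      obtain ⟨y', hy', hy'2⟩ := h1 hy
      exact ⟨y', hy', hy'2⟩
    obtain ⟨y', hy'S, hAy'⟩ := hy'
    -- kernel part
    have hker0 : A (g - x - y') = 0 := by
      rw [map_sub, map_sub, hx, hAy']; abel
    have hker1 : Polynomial.aeval V (∏ w ∈ W, (Polynomial.X - Polynomial.C w)) (g - x - y') = 0 := by
      have h1 : A (g - x - y') = s.leadingCoeff •
          Polynomial.aeval V (∏ w ∈ W, (Polynomial.X - Polynomial.C w)) (g - x - y') := by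
        change Polynomial.aeval V s (g - x - y') = _
        conv_lhs => rw [hsplit]
        rw [map_mul, Polynomial.aeval_C, Algebra.algebraMap_eq_smul_one, smul_mul_assoc, one_mul,
          _root_.smul_apply]
      rw [hker0] at h1
      exact (smul_eq_zero.mp h1.symm).resolve_left (Polynomial.leadingCoeff_ne_zero.mpr hs_ne)
    obtain ⟨gs, hgs, hgsw⟩ := ker_decomp V W hWne _ hker1
    have hWcard : (0 : ℝ) < W.card := by exact_mod_cast hWne.card_pos
    have hch : ∀ w ∈ W, ∃ E : Finset ι, (∀ i ∈ E, χ l i = w) ∧ ∃ x ∈ fsp e E,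
        ‖gs w - x‖ < ε₁ / W.card := fun w hw =>
      hker l hl w (hW0 w hw) (gs w) (hgsw w hw) _ (div_pos hε₁ hWcard)
    choose! Ew hEw xw hxw hxwd using hch
    refine ⟨S k ∪ W.biUnion Ew, ?_, y' + ∑ w ∈ W, xw w, ?_, ?_⟩
    · intro i hi
      rw [hAe]
      rcases Finset.mem_union.mp hi with hi | hi
      · exact Submodule.smul_mem _ _ (Submodule.subset_span ⟨i, hi, rfl⟩)
      · obtain ⟨w, hw, hi⟩ := Finset.mem_biUnion.mp hi
        rw [hEw w hw i hi, hWroot w hw, zero_smul]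
        exact Submodule.zero_mem _
    · refine Submodule.add_mem _ ?_ (Submodule.sum_mem _ fun w hw => ?_)
      · exact Submodule.span_mono (Set.image_mono (by
          intro i hi; exact Finset.mem_union_left _ hi)) hy'S
      · exact Submodule.span_mono (Set.image_mono (by
          intro i hi
          exact Finset.mem_union_right _ (Finset.mem_biUnion.mpr ⟨w, hw, hi⟩))) (hxw w hw)
    · have h1 : g - (y' + ∑ w ∈ W, xw w) = x + ∑ w ∈ W, (gs w - xw w) := by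
        rw [Finset.sum_sub_distrib, ← hgs]; abel
      rw [h1]
      have h2 : ‖∑ w ∈ W, (gs w - xw w)‖ ≤ ε₁ := by
        calc ‖∑ w ∈ W, (gs w - xw w)‖ ≤ ∑ w ∈ W, ‖gs w - xw w‖ := norm_sum_le _ _
          _ ≤ ∑ _w ∈ W, ε₁ / W.card := Finset.sum_le_sum fun w hw => (hxwd w hw).le
          _ = ε₁ := by
              rw [Finset.sum_const, nsmul_eq_mul]; exact mul_div_cancel₀ ε₁ hWcard.ne'
      calc ‖x + ∑ w ∈ W, (gs w - xw w)‖ ≤ ‖x‖ + ‖∑ w ∈ W, (gs w - xw w)‖ := norm_add_le _ _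
        _ ≤ 8 * ε₁ + ε₁ := add_le_add hxn' h2
        _ < ε := by linarith
  -- put together
  choose! Eg hEg xg hxg hxgd using happrox
  refine ⟨A, hAn, fun h hh => ?_, F.biUnion Eg, ?_, ?_⟩
  · exact (hAT h (Finset.mem_union_right _ hh)).trans_lt (by linarith)
  · intro i hi
    obtain ⟨g, hg, hi⟩ := Finset.mem_biUnion.mp hi
    exact hEg g hg i hi
  · intro g hg
    refine ⟨xg g, ?_, hxgd g hg⟩
    exact Submodule.span_mono (Set.image_mono (by
      intro i hi; exact Finset.mem_biUnion.mpr ⟨g, hg, hi⟩)) (hxg g hg)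

end abs

end DC8965
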