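import Mathlib

/-!
Interface between the sequence theorem (Theorem S) and the half-line model, `MP_dc8965_an`.
-/

open scoped ENNReal NNReal Polynomial

namespace DC8965

/-- The operator `(T_v y)(i) = ∑_{j<N} v j * y (i+j)` is bounded by `B` on `ℓ^p`. -/
def MB (p : ℝ) (N : ℕ) (v : ℕ → ℂ) (B : ℝ) : Prop :=
  ∀ y : ℕ → ℂ, ∑' i : ℕ, ‖∑ j ∈ Finset.range N, v j * y (i + j)‖ₑ ^ p
    ≤ (ENNReal.ofReal B) ^ p * ∑' i : ℕ, ‖y i‖ₑ ^ p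

/-- The sequence theorem for the exponents `p`, `q`. -/
def TheoremS (p q : ℝ) : Prop :=
  ∀ ε : ℝ, 0 < ε → ∀ k : ℕ, ∃ κ : ℝ, 0 < κ ∧ ∀ (I : ℕ) (c : ℕ → ℂ) (a : Fin k → ℕ → ℂ),
    (∀ n, I ≤ n → c n = 0) → (∀ i n, I ≤ n → a i n = 0) →
    (∀ (i : Fin k) (N : ℕ) (v : ℕ → ℂ) (B : ℝ), 0 ≤ B → MB p N v B →
      ‖∑ j ∈ Finset.range N, v j * ∑ m ∈ Finset.range I, c m * a i (j + m)‖ ≤ κ * B) →
    ∃ (U : ℂ[X]) (x : Fin k → ℕ → ℂ), U.roots.Nodup ∧ U.eval 0 ≠ 0 ∧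
      (∀ i, Summable fun n => ‖x i n‖) ∧
      (∀ i j, ∑ m ∈ Finset.range (U.natDegree + 1), U.coeff m * x i (j + m) = 0) ∧
      ∑' n : ℕ, ‖U.coeff n - c n‖ₑ ^ q ≤ ENNReal.ofReal ε ∧
      ∀ i, ∑' n : ℕ, ‖x i n - a i n‖ₑ ^ p ≤ ENNReal.ofReal ε

end DC8965
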