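import Mathlib

/-!
# MP_dc8965_an : the half line model

`nu` is Lebesgue measure on `(0,∞)`, `Y p = L^p(0,∞)`, `V p u` is the left translation
`g ↦ g(· + u)`, `R p u` is the right translation, `ex p b` is `t ↦ exp(-b t)`.
-/

open MeasureTheory Filter Topology Set
open scoped ENNReal NNReal

namespace DC8965

/-- Lebesgue measure on the half line `(0,∞)`. -/
noncomputable def nu : Measure ℝ := volume.restrict (Set.Ioi 0)

/-- Complex `L^p(0,∞)`. -/
abbrev Y (p : ℝ≥0∞) : Type := Lp ℂ p nu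

lemma map_shift (u : ℝ) : Measure.map (fun t : ℝ => t + u) nu = volume.restrict (Set.Ioi u) := by
  have h : MeasurePreserving (fun t : ℝ => t + u) volume volume := measurePreserving_add_right volume u
  have h2 := (h.restrict_preimage (s := Set.Ioi u) measurableSet_Ioi).map_eq
  have h3 : (fun t : ℝ => t + u) ⁻¹' Set.Ioi u = Set.Ioi 0 := by
    ext t; simp
  rw [h3] at h2
  exact h2

lemma restrict_le_nu {u : ℝ} (hu : 0 ≤ u) : volume.restrict (Set.Ioi u) ≤ nu :=
  Measure.restrict_mono (Set.Ioi_subset_Ioi hu) le_rfl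

lemma qmp_shift {u : ℝ} (hu : 0 ≤ u) : Measure.QuasiMeasurePreserving (fun t : ℝ => t + u) nu nu := by
  refine ⟨by fun_prop, ?_⟩
  rw [map_shift]
  exact Measure.absolutelyContinuous_of_le (restrict_le_nu hu)

lemma lintegral_shift (u : ℝ) (f : ℝ → ℝ≥0∞) :
    ∫⁻ t, f (t + u) ∂nu = ∫⁻ t in Set.Ioi u, f t := by
  have h := (MeasurableEquiv.addRight u).measurableEmbedding.lintegral_map (μ := nu) f
  have h2 : Measure.map (⇑(MeasurableEquiv.addRight u)) nu = volume.restrict (Set.Ioi u) := map_shift u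
  rw [h2] at h
  simpa using h.symm

lemma lintegral_shift_le {u : ℝ} (hu : 0 ≤ u) (f : ℝ → ℝ≥0∞) :
    ∫⁻ t, f (t + u) ∂nu ≤ ∫⁻ t, f t ∂nu := by
  rw [lintegral_shift]
  exact lintegral_mono' (restrict_le_nu hu) le_rfl

lemma memLp_shift {p : ℝ≥0∞} {g : ℝ → ℂ} (hg : MemLp g p nu) {u : ℝ} (hu : 0 ≤ u) :
    MemLp (fun t => g (t + u)) p nu := by
  have h : MemLp g p (Measure.map (fun t : ℝ => t + u) nu) := by
    rw [map_shift]; exact hg.mono_measure (restrict_le_nu hu)
  exact h.comp_of_map (by fun_prop)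

lemma eLpNorm_shift_le {p : ℝ≥0∞} {g : ℝ → ℂ} (hg : MemLp g p nu) {u : ℝ} (hu : 0 ≤ u) :
    eLpNorm (fun t => g (t + u)) p nu ≤ eLpNorm g p nu := by
  have h : AEStronglyMeasurable g (Measure.map (fun t : ℝ => t + u) nu) := by
    rw [map_shift]; exact hg.1.mono_measure (restrict_le_nu hu)
  have h2 := eLpNorm_map_measure (p := p) h (by fun_prop : AEMeasurable (fun t : ℝ => t + u) nu)
  have h3 : eLpNorm (fun t => g (t + u)) p nu = eLpNorm g p (volume.restrict (Set.Ioi u)) := by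
    rw [← map_shift u, h2]; rfl
  rw [h3]
  exact eLpNorm_mono_measure _ (restrict_le_nu hu)

section
variable (p : ℝ≥0∞) [Fact (1 ≤ p)]

/-- Left translation as a linear map. -/
noncomputable def Vlin (u : ℝ) (hu : 0 ≤ u) : Y p →ₗ[ℂ] Y p where
  toFun g := (memLp_shift (Lp.memLp g) hu).toLp
  map_add' f g := by
    apply Lp.ext
    refine (MemLp.coeFn_toLp _).trans ?_
    refine EventuallyEq.trans ?_ (Lp.coeFn_add _ _).symm
    have h1 := (qmp_shift hu).ae (Lp.coeFn_add f g)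
    filter_upwards [h1, MemLp.coeFn_toLp (memLp_shift (Lp.memLp f) hu),
      MemLp.coeFn_toLp (memLp_shift (Lp.memLp g) hu)] with t h1 h2 h3
    simp only [Pi.add_apply] at h1 ⊢
    rw [h1, h2, h3]
  map_smul' c g := by
    apply Lp.ext
    refine (MemLp.coeFn_toLp _).trans ?_
    refine EventuallyEq.trans ?_ (Lp.coeFn_smul _ _).symm
    have h1 := (qmp_shift hu).ae (Lp.coeFn_smul c g)
    filter_upwards [h1, MemLp.coeFn_toLp (memLp_shift (Lp.memLp g) hu)] with t h1 h2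
    simp only [Pi.smul_apply, RingHom.id_apply] at h1 ⊢
    rw [h1, h2]

open Classical in
/-- Left translation `g ↦ g(· + u)` on `L^p(0,∞)` (for `u ≥ 0`; `0` for `u < 0`). -/
noncomputable def V (u : ℝ) : Y p →L[ℂ] Y p :=
  if hu : 0 ≤ u then
    LinearMap.mkContinuous (Vlin p u hu) 1 (fun g => by
      rw [one_mul]
      change ‖(memLp_shift (Lp.memLp g) hu).toLp‖ ≤ ‖g‖
      rw [Lp.norm_toLp, Lp.norm_def]
      exact ENNReal.toReal_mono (Lp.eLpNorm_ne_top g) (eLpNorm_shift_le (Lp.memLp g) hu))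
  else 0

variable {p}

lemma V_ae {u : ℝ} (hu : 0 ≤ u) (g : Y p) : ⇑(V p u g) =ᵐ[nu] fun t => g (t + u) := by
  rw [V, dif_pos hu]
  exact MemLp.coeFn_toLp (memLp_shift (Lp.memLp g) hu)

lemma norm_V_le_one (u : ℝ) : ‖V p u‖ ≤ 1 := by
  by_cases hu : 0 ≤ u
  · rw [V, dif_pos hu]
    exact LinearMap.mkContinuous_norm_le _ zero_le_one _
  · rw [V, dif_neg hu]; simp

lemma norm_V_apply_le (u : ℝ) (g : Y p) : ‖V p u g‖ ≤ ‖g‖ := by
  calc ‖V p u g‖ ≤ ‖V p u‖ * ‖g‖ := (V p u).le_opNorm g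
    _ ≤ 1 * ‖g‖ := by gcongr; exact norm_V_le_one u
    _ = ‖g‖ := one_mul _

lemma V_zero : V p 0 = ContinuousLinearMap.id ℂ (Y p) := by
  ext1 g
  apply Lp.ext
  refine (V_ae le_rfl g).trans ?_
  simp

lemma V_V {u v : ℝ} (hu : 0 ≤ u) (hv : 0 ≤ v) (g : Y p) : V p u (V p v g) = V p (u + v) g := by
  apply Lp.ext
  have h1 := V_ae hu (V p v g)
  have h2 := (qmp_shift hu).ae (V_ae hv g)
  have h3 := V_ae (add_nonneg hu hv) g
  filter_upwards [h1, h2, h3] with t h1 h2 h3
  rw [h1, h2, h3, add_assoc]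

lemma V_comm {u v : ℝ} (hu : 0 ≤ u) (hv : 0 ≤ v) (g : Y p) :
    V p u (V p v g) = V p v (V p u g) := by
  rw [V_V hu hv, V_V hv hu, add_comm]

lemma V_pow {l : ℝ} (hl : 0 ≤ l) (m : ℕ) : (V p l) ^ m = V p (m * l) := by
  induction m with
  | zero => simp [V_zero]; rfl
  | succ m ih =>
    rw [pow_succ', ih]
    ext1 g
    have : V p l * V p (m * l) = (V p l).comp (V p (m * l)) := rfl
    rw [this, ContinuousLinearMap.comp_apply, V_V hl (by positivity)]
    congr 2
    push_cast; ring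

end


lemma map_unshift (u : ℝ) : Measure.map (fun t : ℝ => t - u) (volume.restrict (Set.Ioi u)) = nu := by
  rw [← map_shift u, Measure.map_map (by fun_prop) (by fun_prop)]
  have : (fun t : ℝ => t - u) ∘ (fun t : ℝ => t + u) = id := by
    ext t; simp
  rw [this, Measure.map_id]

/-- The right translate of a function. -/
noncomputable def rsh (u : ℝ) (g : ℝ → ℂ) : ℝ → ℂ := Set.indicator (Set.Ioi u) (fun t => g (t - u))

lemma aesm_unshift {g : ℝ → ℂ} (hg : AEStronglyMeasurable g nu) (u : ℝ) :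
    AEStronglyMeasurable (fun t => g (t - u)) (volume.restrict (Set.Ioi u)) := by
  have h : AEStronglyMeasurable g (Measure.map (fun t : ℝ => t - u) (volume.restrict (Set.Ioi u))) := by
    rw [map_unshift]; exact hg
  exact h.comp_aemeasurable (by fun_prop)

lemma nu_restrict {u : ℝ} (hu : 0 ≤ u) : nu.restrict (Set.Ioi u) = volume.restrict (Set.Ioi u) := by
  rw [nu, Measure.restrict_restrict measurableSet_Ioi,
    Set.inter_eq_left.mpr (Set.Ioi_subset_Ioi hu)]

lemma eLpNorm_rsh {p : ℝ≥0∞} {g : ℝ → ℂ} (hg : AEStronglyMeasurable g nu) {u : ℝ} (hu : 0 ≤ u) :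
    eLpNorm (rsh u g) p nu = eLpNorm g p nu := by
  rw [rsh, eLpNorm_indicator_eq_eLpNorm_restrict measurableSet_Ioi, nu_restrict hu]
  have h : AEStronglyMeasurable g (Measure.map (fun t : ℝ => t - u) (volume.restrict (Set.Ioi u))) := by
    rw [map_unshift]; exact hg
  have h2 := eLpNorm_map_measure (p := p) h (by fun_prop)
  rw [map_unshift] at h2
  rw [h2]; rfl

lemma memLp_rsh {p : ℝ≥0∞} {g : ℝ → ℂ} (hg : MemLp g p nu) {u : ℝ} (hu : 0 ≤ u) :
    MemLp (rsh u g) p nu := by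
  refine ⟨?_, ?_⟩
  · rw [rsh, aestronglyMeasurable_indicator_iff measurableSet_Ioi, nu_restrict hu]
    exact aesm_unshift hg.1 u
  · rw [eLpNorm_rsh hg.1 hu]; exact hg.2

lemma ae_unshift {u : ℝ} (hu : 0 ≤ u) {P : ℝ → Prop} (h : ∀ᵐ t ∂nu, P t) :
    ∀ᵐ t ∂nu, u < t → P (t - u) := by
  have h1 : Measure.QuasiMeasurePreserving (fun t : ℝ => t - u) (volume.restrict (Set.Ioi u)) nu :=
    ⟨by fun_prop, by rw [map_unshift]⟩
  have h2 := h1.ae h
  rw [← nu_restrict hu] at h2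
  exact (ae_restrict_iff' measurableSet_Ioi).mp h2

section
variable (p : ℝ≥0∞) [Fact (1 ≤ p)]

/-- Right translation as a linear map. -/
noncomputable def Rlin (u : ℝ) (hu : 0 ≤ u) : Y p →ₗ[ℂ] Y p where
  toFun g := (memLp_rsh (Lp.memLp g) hu).toLp
  map_add' f g := by
    apply Lp.ext
    refine (MemLp.coeFn_toLp _).trans ?_
    refine EventuallyEq.trans ?_ (Lp.coeFn_add _ _).symm
    have h1 := ae_unshift hu (Lp.coeFn_add f g)
    filter_upwards [h1, MemLp.coeFn_toLp (memLp_rsh (Lp.memLp f) hu),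
      MemLp.coeFn_toLp (memLp_rsh (Lp.memLp g) hu)] with t h1 h2 h3
    simp only [Pi.add_apply] at h1 ⊢
    rw [h2, h3]
    simp only [rsh, Set.indicator_apply, Set.mem_Ioi]
    split_ifs with h
    · exact h1 h
    · simp
  map_smul' c g := by
    apply Lp.ext
    refine (MemLp.coeFn_toLp _).trans ?_
    refine EventuallyEq.trans ?_ (Lp.coeFn_smul _ _).symm
    have h1 := ae_unshift hu (Lp.coeFn_smul c g)
    filter_upwards [h1, MemLp.coeFn_toLp (memLp_rsh (Lp.memLp g) hu)] with t h1 h2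
    simp only [Pi.smul_apply, RingHom.id_apply] at h1 ⊢
    rw [h2]
    simp only [rsh, Set.indicator_apply, Set.mem_Ioi]
    split_ifs with h
    · exact h1 h
    · simp

open Classical in
/-- Right translation on `L^p(0,∞)`, extended by `0` (for `u ≥ 0`; `0` for `u < 0`). -/
noncomputable def R (u : ℝ) : Y p →L[ℂ] Y p :=
  if hu : 0 ≤ u then
    LinearMap.mkContinuous (Rlin p u hu) 1 (fun g => by
      rw [one_mul]
      change ‖(memLp_rsh (Lp.memLp g) hu).toLp‖ ≤ ‖g‖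
      rw [Lp.norm_toLp, Lp.norm_def, eLpNorm_rsh (Lp.memLp g).1 hu])
  else 0

variable {p}

lemma R_ae {u : ℝ} (hu : 0 ≤ u) (g : Y p) : ⇑(R p u g) =ᵐ[nu] rsh u g := by
  rw [R, dif_pos hu]
  exact MemLp.coeFn_toLp (memLp_rsh (Lp.memLp g) hu)

lemma norm_R_le_one (u : ℝ) : ‖R p u‖ ≤ 1 := by
  by_cases hu : 0 ≤ u
  · rw [R, dif_pos hu]
    exact LinearMap.mkContinuous_norm_le _ zero_le_one _
  · rw [R, dif_neg hu]; simp

lemma V_R {u : ℝ} (hu : 0 ≤ u) (g : Y p) : V p u (R p u g) = g := by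
  apply Lp.ext
  have h1 := V_ae hu (R p u g)
  have h2 := (qmp_shift hu).ae (R_ae hu g)
  have h3 : ∀ᵐ t ∂nu, 0 < t := by
    rw [nu]; exact ae_restrict_mem measurableSet_Ioi
  filter_upwards [h1, h2, h3] with t h1 h2 h3
  rw [h1, h2, rsh, Set.indicator_of_mem]
  · simp
  · simpa using h3

/-- Exponents: complex numbers of positive real part. -/
abbrev Ix : Type := {b : ℂ // 0 < b.re}

lemma norm_cexp_neg (b : ℂ) (t : ℝ) : ‖Complex.exp (-b * t)‖ = Real.exp (-b.re * t) := by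
  rw [Complex.norm_exp]; simp

lemma memLp_exp (p : ℝ≥0∞) (b : Ix) : MemLp (fun t : ℝ => Complex.exp (-b.1 * t)) p nu := by
  have hm : AEStronglyMeasurable (fun t : ℝ => Complex.exp (-b.1 * t)) nu := by
    apply Continuous.aestronglyMeasurable; fun_prop
  rcases eq_or_ne p 0 with rfl | hp0
  · exact memLp_zero_iff_aestronglyMeasurable.mpr hm
  rcases eq_or_ne p ∞ with rfl | hp
  · refine memLp_top_of_bound hm 1 ?_
    have h3 : ∀ᵐ t ∂nu, 0 < t := by
      rw [nu]; exact ae_restrict_mem measurableSet_Ioi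
    filter_upwards [h3] with t ht
    rw [norm_cexp_neg, Real.exp_le_one_iff]
    have := b.2
    nlinarith [mul_pos this ht]
  · rw [← integrable_norm_rpow_iff hm hp0 hp]
    have hp' : 0 < p.toReal := ENNReal.toReal_pos hp0 hp
    have : (fun t : ℝ => ‖Complex.exp (-b.1 * t)‖ ^ p.toReal)
        = fun t : ℝ => Real.exp (-(b.1.re * p.toReal) * t) := by
      ext t
      rw [norm_cexp_neg, ← Real.exp_mul]; ring_nf
    rw [this]
    exact exp_neg_integrableOn_Ioi 0 (mul_pos b.2 hp')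

/-- The exponential `t ↦ exp(-b t)` in `L^p(0,∞)`. -/
noncomputable def ex (p : ℝ≥0∞) (b : Ix) : Y p := (memLp_exp p b).toLp

lemma ex_ae (p : ℝ≥0∞) (b : Ix) : ⇑(ex p b) =ᵐ[nu] fun t : ℝ => Complex.exp (-b.1 * t) :=
  MemLp.coeFn_toLp _

lemma V_ex {u : ℝ} (hu : 0 ≤ u) (b : Ix) :
    V p u (ex p b) = Complex.exp (-b.1 * u) • ex p b := by
  apply Lp.ext
  have h1 := V_ae hu (ex p b)
  have h2 := (qmp_shift hu).ae (ex_ae p b)
  have h3 := ex_ae p b
  have h4 := Lp.coeFn_smul (Complex.exp (-b.1 * u)) (ex p b)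
  filter_upwards [h1, h2, h3, h4] with t h1 h2 h3 h4
  rw [h1, h2, h4, Pi.smul_apply, h3, smul_eq_mul, ← Complex.exp_add]
  congr 1; push_cast; ring

end

/-! ### finite exponential spaces and their limits -/

/-- The span of finitely many of the vectors `e i`. -/
def fsp {X ι : Type*} [NormedAddCommGroup X] [NormedSpace ℂ X] (e : ι → X) (S : Finset ι) :
    Submodule ℂ X := Submodule.span ℂ (e '' (S : Set ι))

/-- `M` is the limit of a sequence of finite spaces `span {e i : i ∈ S n}`. -/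
def IsLim {X ι : Type*} [NormedAddCommGroup X] [NormedSpace ℂ X] (e : ι → X)
    (M : Submodule ℂ X) : Prop :=
  ∃ S : ℕ → Finset ι, ∀ f : X, f ∈ M ↔
    Tendsto (fun n => Metric.infDist f (fsp e (S n) : Set X)) atTop (𝓝 0)

end DC8965
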