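import Pool.Agent.Lib.MP_dc8965_an.HSClaim

/-!
All closed invariant subspaces, given the sequence theorem.
-/

open MeasureTheory Filter Topology Set
open scoped ENNReal NNReal Polynomial

namespace DC8965

section abs
variable {X ι : Type*} [NormedAddCommGroup X] [NormedSpace ℂ X]

/-- the limit of a sequence of subspaces -/
def limSub (W : ℕ → Submodule ℂ X) : Submodule ℂ X where
  carrier := {f | Tendsto (fun n => Metric.infDist f (W n : Set X)) atTop (𝓝 0)}
  zero_mem' := by
    have h : ∀ n, Metric.infDist (0 : X) (W n : Set X) = 0 := fun n =>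
      Metric.infDist_zero_of_mem (W n).zero_mem
    change Tendsto (fun n => Metric.infDist (0 : X) (W n : Set X)) atTop (𝓝 0)
    simp only [h]
    exact tendsto_const_nhds
  add_mem' := by
    intro f g hf hg
    have h1 : Tendsto (fun n => Metric.infDist f (W n : Set X) + Metric.infDist g (W n : Set X))
        atTop (𝓝 (0 + 0)) := Tendsto.add hf hg
    rw [add_zero] at h1
    refine squeeze_zero (fun n => Metric.infDist_nonneg) (fun n => ?_) h1
    refine le_of_forall_pos_lt_add fun ε hε => ?_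
    obtain ⟨x, hx, hxd⟩ := (Metric.infDist_lt_iff (x := f) (r := Metric.infDist f (W n : Set X) + ε / 2)
      ⟨0, (W n).zero_mem⟩).mp (by linarith)
    obtain ⟨y, hy, hyd⟩ := (Metric.infDist_lt_iff (x := g) (r := Metric.infDist g (W n : Set X) + ε / 2)
      ⟨0, (W n).zero_mem⟩).mp (by linarith)
    have h2 := Metric.infDist_le_dist_of_mem (x := f + g) ((W n).add_mem hx hy)
    have h3 : dist (f + g) (x + y) ≤ dist f x + dist g y := dist_add_add_le _ _ _ _
    linarith
  smul_mem' := by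
    intro c f hf
    have h1 : Tendsto (fun n => ‖c‖ * Metric.infDist f (W n : Set X)) atTop (𝓝 (‖c‖ * 0)) :=
      Tendsto.const_mul _ hf
    rw [mul_zero] at h1
    refine squeeze_zero (fun n => Metric.infDist_nonneg) (fun n => ?_) h1
    refine le_of_forall_pos_lt_add fun ε hε => ?_
    obtain ⟨x, hx, hxd⟩ := (Metric.infDist_lt_iff (x := f) (r := Metric.infDist f (W n : Set X)
      + ε / (‖c‖ + 1)) ⟨0, (W n).zero_mem⟩).mp (by
        have : 0 < ε / (‖c‖ + 1) := by positivity
        linarith)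
    have h2 := Metric.infDist_le_dist_of_mem (x := c • f) ((W n).smul_mem c hx)
    have h3 : dist (c • f) (c • x) = ‖c‖ * dist f x := dist_smul₀ _ _ _
    have h4 : ‖c‖ * dist f x ≤ ‖c‖ * (Metric.infDist f (W n : Set X) + ε / (‖c‖ + 1)) := by
      gcongr
    have h5 : ‖c‖ * (ε / (‖c‖ + 1)) < ε := by
      rw [← mul_div_assoc, div_lt_iff₀ (by positivity)]
      nlinarith [norm_nonneg c]
    rw [mul_add] at h4
    linarith

lemma mem_limSub (W : ℕ → Submodule ℂ X) (f : X) :
    f ∈ limSub W ↔ Tendsto (fun n => Metric.infDist f (W n : Set X)) atTop (𝓝 0) := Iff.rfl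

lemma isLim_limSub (e : ι → X) (S : ℕ → Finset ι) : IsLim e (limSub fun n => fsp e (S n)) :=
  ⟨S, fun _ => Iff.rfl⟩

end abs

/-- Hahn-Banach for a closed subspace -/
lemma hs_hahn_banach {X : Type*} [NormedAddCommGroup X] [NormedSpace ℂ X] (M : Submodule ℂ X)
    (hM : IsClosed (M : Set X)) (f : X) (hf : f ∉ M) :
    ∃ φ : X →L[ℂ] ℂ, (∀ g ∈ M, φ g = 0) ∧ φ f ≠ 0 := by
  have hconv : Convex ℝ (M : Set X) := (M.restrictScalars ℝ).convex
  obtain ⟨φ, u, h1, h2⟩ := RCLike.geometric_hahn_banach_closed_point (𝕜 := ℂ) hconv hM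
    (x := f) hf
  have hre : ∀ g ∈ M, (φ g).re = 0 := by
    intro g hg
    by_contra hne
    have h3 := h1 ((((u + 1) / (φ g).re : ℝ) : ℂ) • g) (M.smul_mem _ hg)
    have h4 : (φ ((((u + 1) / (φ g).re : ℝ) : ℂ) • g)).re = u + 1 := by
      rw [map_smul, smul_eq_mul, Complex.re_ofReal_mul]
      field_simp
    simp only [RCLike.re_to_complex] at h3
    rw [h4] at h3
    linarith
  have h0 : ∀ g ∈ M, φ g = 0 := by
    intro g hg
    apply Complex.ext
    · simpa using hre g hg
    · have h3 := hre (Complex.I • g) (M.smul_mem _ hg)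
      rw [map_smul, smul_eq_mul, Complex.I_mul_re] at h3
      simpa using h3
  refine ⟨φ, h0, fun hφ => ?_⟩
  have h3 := h1 0 M.zero_mem
  rw [map_zero] at h3
  rw [hφ] at h2
  exact absurd (h3.trans h2) (lt_irrefl _)

variable {p : ℝ≥0∞} [Fact (1 ≤ p)]

/-- All closed translation invariant subspaces, given the sequence theorem. -/
theorem hs_half_all (hp : p ≠ ∞) {q : ℝ} (hpq : p.toReal.HolderConjugate q)
    (hS : TheoremS p.toReal q) (M : Submodule ℂ (Y p)) (hM : IsClosed (M : Set (Y p)))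
    (hV : ∀ u : ℝ, 0 ≤ u → ∀ g ∈ M, V p u g ∈ M) : IsLim (ex p) M := by
  classical
  have hsep := separable_Y (p := p) hp
  have key : ∀ f : Y p, f ∉ M → ∃ N : Submodule ℂ (Y p), IsLim (ex p) N ∧ M ≤ N ∧ f ∉ N := by
    intro f hfM
    obtain ⟨φ, hφM, hφf⟩ := hs_hahn_banach M hM f hfM
    -- dense sequence
    obtain ⟨d, hd⟩ := TopologicalSpace.exists_dense_seq M
    have hE : ∀ n : ℕ, ∃ E : Finset Ix, (∀ i : Fin n, ∃ x ∈ fsp (ex p) E,
        ‖(d i : Y p) - x‖ < 1 / ((n : ℝ) + 1)) ∧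
        ‖φ f‖ / (4 * (‖φ‖ + 1)) ≤ Metric.infDist f (fsp (ex p) E : Set (Y p)) := fun n =>
      hs_claimE hp hpq hS φ f hφf (fun i : Fin n => (d i : Y p))
        (fun i u hu => hφM _ (hV u hu _ (d i).2)) (by positivity)
    choose E hE1 hE2 using hE
    refine ⟨limSub fun n => fsp (ex p) (E n), isLim_limSub _ _, ?_, ?_⟩
    · intro g hg
      rw [mem_limSub, Metric.tendsto_atTop]
      intro ε hε
      have hd' : (⟨g, hg⟩ : M) ∈ closure (Set.range d) := hd _
      obtain ⟨_, ⟨j, rfl⟩, hj⟩ := Metric.mem_closure_iff.mp hd' (ε / 2) (half_pos hε)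
      obtain ⟨n₀, hn₀⟩ := exists_nat_one_div_lt (half_pos hε)
      refine ⟨max (j + 1) n₀, fun n hn => ?_⟩
      have hjn : j < n := lt_of_lt_of_le (Nat.lt_succ_self j) ((le_max_left _ _).trans hn)
      obtain ⟨x, hx, hxd⟩ := hE1 n ⟨j, hjn⟩
      rw [Real.dist_eq, sub_zero, abs_of_nonneg Metric.infDist_nonneg]
      have h1 := Metric.infDist_le_dist_of_mem (x := g) hx
      have h2 : dist g x ≤ dist g (d j) + dist (d j : Y p) x := dist_triangle _ _ _
      have h3 : dist g (d j : Y p) < ε / 2 := hj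
      have h4 : dist (d j : Y p) x < 1 / ((n : ℝ) + 1) := by rw [dist_eq_norm]; exact hxd
      have h5 : (1 : ℝ) / (n + 1) ≤ 1 / (n₀ + 1) := by
        have : (n₀ : ℝ) ≤ n := by exact_mod_cast (le_max_right _ _).trans hn
        gcongr
      linarith
    · intro hfN
      rw [mem_limSub] at hfN
      have h1 : 0 < ‖φ f‖ / (4 * (‖φ‖ + 1)) := by
        have := norm_pos_iff.mpr hφf
        positivity
      have h2 := hfN.eventually (gt_mem_nhds h1)
      obtain ⟨n, hn⟩ := h2.exists
      exact absurd hn (not_lt.mpr (hE2 n))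
  have hMeq : M = sInf {N : Submodule ℂ (Y p) | IsLim (ex p) N ∧ M ≤ N} := by
    apply le_antisymm
    · exact le_sInf fun N hN => hN.2
    · intro f hf
      by_contra hfM
      obtain ⟨N, hN1, hN2, hN3⟩ := key f hfM
      exact hN3 ((Submodule.mem_sInf.mp hf) N ⟨hN1, hN2⟩)
  rw [hMeq]
  exact half_sInf hp _ fun N hN => hN.1

end DC8965
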