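import Pool.Agent.Lib.MP_dc8965_an.Defs

open MeasureTheory Filter Topology Set
open scoped ENNReal NNReal

namespace DC8965

variable {p : ℝ≥0∞} [Fact (1 ≤ p)]

omit [Fact (1 ≤ p)] in
lemma Cont_memLp_ext (g : Y p) : MemLp (Set.indicator (Set.Ioi (0 : ℝ)) g) p volume :=
  (memLp_indicator_iff_restrict measurableSet_Ioi).2 (Lp.memLp g)

/-- extension by zero -/
noncomputable def Cont_ext (g : Y p) : Lp ℂ p (volume : Measure ℝ) := (Cont_memLp_ext g).toLp

/-- restriction to the half line -/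
noncomputable def Cont_res : Lp ℂ p (volume : Measure ℝ) →L[ℂ] Y p :=
  LpToLpRestrictCLM ℝ ℂ ℂ volume p (Set.Ioi (0 : ℝ))

lemma Cont_res_ae (f : Lp ℂ p (volume : Measure ℝ)) : ⇑(Cont_res f) =ᵐ[nu] f :=
  LpToLpRestrictCLM_coeFn ℂ (Set.Ioi (0 : ℝ)) f

lemma Cont_V_eq (g : Y p) {u : ℝ} (hu : 0 ≤ u) :
    V p u g = Cont_res ((DomAddAct.mk u : ℝᵈᵃᵃ) +ᵥ Cont_ext g) := by
  apply Lp.ext
  have h1 := V_ae hu g
  have h2 := Cont_res_ae ((DomAddAct.mk u : ℝᵈᵃᵃ) +ᵥ Cont_ext g : Lp ℂ p (volume : Measure ℝ))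
  have h3 : ⇑((DomAddAct.mk u : ℝᵈᵃᵃ) +ᵥ Cont_ext g : Lp ℂ p (volume : Measure ℝ)) =ᵐ[volume]
      fun t => Cont_ext g (u + t) := DomAddAct.vadd_Lp_ae_eq _ _
  have h4 : ∀ᵐ t ∂(volume : Measure ℝ), Cont_ext g (u + t) =
      Set.indicator (Set.Ioi (0 : ℝ)) g (u + t) := by
    have hq : Measure.QuasiMeasurePreserving (fun t : ℝ => u + t) volume volume :=
      (measurePreserving_add_left volume u).quasiMeasurePreserving
    exact hq.ae (MemLp.coeFn_toLp (Cont_memLp_ext g))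
  have h3' := ae_restrict_of_ae (s := Set.Ioi (0 : ℝ)) h3
  have h4' := ae_restrict_of_ae (s := Set.Ioi (0 : ℝ)) h4
  have h0 : ∀ᵐ t ∂nu, 0 < t := by
    rw [nu]; exact ae_restrict_mem measurableSet_Ioi
  filter_upwards [h1, h2, h3', h4', h0] with t h1 h2 h3 h4 h0
  rw [h1, h2, h3, h4, Set.indicator_of_mem]
  · rw [add_comm]
  · simp only [Set.mem_Ioi]
    linarith

/-- Strong continuity of the translation semigroup. -/
theorem continuousOn_V (hp : p ≠ ∞) (g : Y p) : ContinuousOn (fun u : ℝ => V p u g) (Set.Ici 0) := by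
  have : Fact (p ≠ ∞) := ⟨hp⟩
  have hc : Continuous fun u : ℝ => Cont_res ((DomAddAct.mk u : ℝᵈᵃᵃ) +ᵥ Cont_ext g) := by
    refine Cont_res.continuous.comp ?_
    have h1 : Continuous fun a : ℝᵈᵃᵃ => a +ᵥ Cont_ext g := by fun_prop
    exact h1.comp DomAddAct.continuous_mk
  refine hc.continuousOn.congr fun u hu => ?_
  exact Cont_V_eq g hu

instance Cont_lf : IsLocallyFiniteMeasure nu := by
  unfold nu; infer_instance

theorem tendsto_V_atTop (hp : p ≠ ∞) (g : Y p) :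
    Tendsto (fun u : ℝ => V p u g) atTop (𝓝 0) := by
  rw [NormedAddGroup.tendsto_nhds_zero]
  intro ε hε
  obtain ⟨h, hcs, hle, hcont, hmem⟩ := (Lp.memLp g).exists_hasCompactSupport_eLpNorm_sub_le hp
    (ε := ENNReal.ofReal (ε / 2)) (by simp; linarith)
  set H : Y p := hmem.toLp with hH
  have hgH : ‖g - H‖ ≤ ε / 2 := by
    have h1 : g - H = ((Lp.memLp g).sub hmem).toLp := by
      rw [MemLp.toLp_sub (Lp.memLp g) hmem, Lp.toLp_coeFn]
    rw [h1, Lp.norm_toLp]
    exact ENNReal.toReal_le_of_le_ofReal (by linarith) hle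
  obtain ⟨L, hL⟩ := hcs.isCompact.isBounded.exists_norm_le
  filter_upwards [eventually_gt_atTop L, eventually_ge_atTop 0] with u hu hu0
  have hz : V p u H = 0 := by
    apply Lp.ext
    have h1 := V_ae hu0 H
    have h2 := (qmp_shift hu0).ae (MemLp.coeFn_toLp hmem)
    have h0 : ∀ᵐ t ∂nu, 0 < t := by
      rw [nu]; exact ae_restrict_mem measurableSet_Ioi
    filter_upwards [h1, h2, h0, Lp.coeFn_zero ℂ p nu] with t h1 h2 h0 hz
    rw [h1, h2, hz]
    simp only [Pi.zero_apply]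
    by_contra hne
    have h3 : t + u ∈ tsupport h := subset_tsupport h hne
    have h4 := hL _ h3
    rw [Real.norm_eq_abs, abs_of_pos (by linarith)] at h4
    linarith
  have h5 : V p u g = V p u (g - H) := by rw [map_sub, hz, sub_zero]
  rw [h5]
  exact lt_of_le_of_lt ((norm_V_apply_le u _).trans hgH) (by linarith)

end DC8965
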