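import Pool.Agent.Lib.MP_dc8965_an.Defs

open MeasureTheory Filter Topology Set
open scoped ENNReal NNReal

namespace DC8965

variable {p : ℝ≥0∞} [Fact (1 ≤ p)]

/-! ### eigenvectors of translations -/

lemma Ker_norm_eq_zero_on (hp : p ≠ ∞) {u : ℝ} (hu : 0 ≤ u) {c : ℂ} (hc : 1 ≤ ‖c‖) {g : Y p}
    (hg : V p u g = c • g) : ∀ᵐ t ∂(volume.restrict (Ioc 0 u)), g t = 0 := by
  have hp0 : p ≠ 0 := (lt_of_lt_of_le zero_lt_one (Fact.out : 1 ≤ p)).ne'
  have hp' : 0 < p.toReal := ENNReal.toReal_pos hp0 hp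
  have hsplit : nu = volume.restrict (Ioc 0 u) + volume.restrict (Ioi u) := by
    rw [nu, ← Ioc_union_Ioi_eq_Ioi hu, Measure.restrict_union _ measurableSet_Ioi]
    rw [Set.disjoint_left]
    intro t ht ht'
    exact absurd ht.2 (not_le.2 ht')
  have hI : ∫⁻ t, ‖g t‖ₑ ^ p.toReal ∂nu < ∞ :=
    lintegral_rpow_enorm_lt_top_of_eLpNorm_lt_top hp0 hp (Lp.memLp g).2
  have h1 : ∫⁻ t, ‖g t‖ₑ ^ p.toReal ∂nu = (∫⁻ t in Ioc 0 u, ‖g t‖ₑ ^ p.toReal) +
      ∫⁻ t in Ioi u, ‖g t‖ₑ ^ p.toReal := by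
    have hgen : ∀ φ : ℝ → ℝ≥0∞, ∫⁻ t, φ t ∂nu = (∫⁻ t in Ioc 0 u, φ t) + ∫⁻ t in Ioi u, φ t := by
      intro φ
      rw [hsplit, lintegral_add_measure]
    exact hgen _
  have h2 : ∫⁻ t, ‖g t‖ₑ ^ p.toReal ∂nu ≤ ∫⁻ t in Ioi u, ‖g t‖ₑ ^ p.toReal := by
    rw [← lintegral_shift u (fun t => ‖g t‖ₑ ^ p.toReal)]
    refine lintegral_mono_ae ?_
    have h3 := V_ae hu g
    have h4 := Lp.coeFn_smul c g
    rw [hg] at h3
    filter_upwards [h3, h4] with t h3 h4
    rw [← h3, h4, Pi.smul_apply, smul_eq_mul, enorm_mul]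
    have h5 : (1:ℝ≥0∞) ≤ ‖c‖ₑ := by
      rw [← ofReal_norm]
      exact ENNReal.one_le_ofReal.2 hc
    calc ‖g t‖ₑ ^ p.toReal = (1 * ‖g t‖ₑ) ^ p.toReal := by rw [one_mul]
      _ ≤ (‖c‖ₑ * ‖g t‖ₑ) ^ p.toReal := by gcongr
  have h6 : ∫⁻ t in Ioc 0 u, ‖g t‖ₑ ^ p.toReal = 0 := by
    rw [h1] at h2 hI
    have hfin : ∫⁻ t in Ioi u, ‖g t‖ₑ ^ p.toReal ≠ ∞ :=
      ne_top_of_le_ne_top hI.ne le_add_self
    by_contra hne
    have h7 : ∫⁻ t in Ioi u, ‖g t‖ₑ ^ p.toReal < (∫⁻ t in Ioc 0 u, ‖g t‖ₑ ^ p.toReal) +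
      ∫⁻ t in Ioi u, ‖g t‖ₑ ^ p.toReal := by
      rw [add_comm]
      exact ENNReal.lt_add_right hfin hne
    exact absurd h2 (not_le.2 h7)
  have hm : AEMeasurable (fun t => ‖g t‖ₑ ^ p.toReal) (volume.restrict (Ioc 0 u)) :=
    ((Lp.stronglyMeasurable g).measurable.enorm.pow_const _).aemeasurable
  rw [lintegral_eq_zero_iff' hm] at h6
  filter_upwards [h6] with t ht
  simp only [Pi.zero_apply, ENNReal.rpow_eq_zero_iff] at ht
  rcases ht with ht | ht
  · exact enorm_eq_zero.1 ht.1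
  · exact absurd ht.1 enorm_ne_top

lemma Ker_pow {l : ℝ} (hl : 0 ≤ l) {w : ℂ} {g : Y p} (hg : V p l g = w • g) (n : ℕ) :
    V p (n * l) g = w ^ n • g := by
  rw [← V_pow hl n]
  induction n with
  | zero => simp
  | succ n ih =>
    have h1 : (V p l) ^ (n + 1) = (V p l) ^ n * V p l := pow_succ _ _
    have h2 : ((V p l) ^ n * V p l) g = ((V p l) ^ n) (V p l g) := rfl
    rw [h1, h2, hg, map_smul, ih, smul_smul, pow_succ']

lemma Ker_big (hp : p ≠ ∞) {l : ℝ} (hl : 0 < l) {w : ℂ} (hw : 1 ≤ ‖w‖) {g : Y p}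
    (hg : V p l g = w • g) : g = 0 := by
  apply Lp.ext
  refine EventuallyEq.trans ?_ (Lp.coeFn_zero ℂ p nu).symm
  have h1 : ∀ n : ℕ, ∀ᵐ t ∂(volume : Measure ℝ), t ∈ Ioc 0 (n * l) → g t = 0 := fun n => by
    have h2 := Ker_norm_eq_zero_on hp (by positivity : 0 ≤ n * l)
      (c := w ^ n) (by rw [norm_pow]; exact one_le_pow₀ hw) (Ker_pow hl.le hg n)
    exact (ae_restrict_iff' measurableSet_Ioc).1 h2
  have h3 : ∀ᵐ t ∂(volume : Measure ℝ), t ∈ Ioi (0:ℝ) → g t = (0 : ℝ → ℂ) t := by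
    filter_upwards [ae_all_iff.2 h1] with t ht ht0
    obtain ⟨n, hn⟩ := exists_nat_ge (t / l)
    exact ht n ⟨ht0, by rwa [div_le_iff₀ hl] at hn⟩
  exact (ae_restrict_iff' measurableSet_Ioi).2 h3

/-- The norm of an eigenvector is controlled by its restriction to `(0,l]`. -/
lemma Ker_bound {l : ℝ} (hl : 0 < l) {w : ℂ} {f : Y p} (hf : V p l f = w • f) :
    ‖f‖ * (1 - ‖w‖) ≤ (eLpNorm f p (volume.restrict (Ioc 0 l))).toReal := by
  have hm : AEStronglyMeasurable f nu := (Lp.stronglyMeasurable f).aestronglyMeasurable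
  have hfin : eLpNorm f p (volume.restrict (Ioc 0 l)) ≠ ∞ := by
    refine ne_top_of_le_ne_top (Lp.eLpNorm_ne_top f) (eLpNorm_mono_measure _ ?_)
    exact Measure.restrict_mono (fun t ht => ht.1) le_rfl
  have h1 : eLpNorm f p nu ≤ eLpNorm f p (volume.restrict (Ioc 0 l)) +
      eLpNorm f p (volume.restrict (Ioi l)) := by
    have e1 : eLpNorm f p (volume.restrict (Ioc 0 l)) = eLpNorm ((Ioc 0 l).indicator f) p nu := by
      rw [eLpNorm_indicator_eq_eLpNorm_restrict measurableSet_Ioc]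
      congr 1
      rw [nu, Measure.restrict_restrict measurableSet_Ioc,
        Set.inter_eq_left.mpr (show Ioc 0 l ⊆ Ioi 0 from fun t ht => ht.1)]
    have e2 : eLpNorm f p (volume.restrict (Ioi l)) = eLpNorm ((Ioi l).indicator f) p nu := by
      rw [eLpNorm_indicator_eq_eLpNorm_restrict measurableSet_Ioi, nu_restrict hl.le]
    have e3 : eLpNorm f p nu = eLpNorm ((Ioc 0 l).indicator f + (Ioi l).indicator f) p nu := by
      refine eLpNorm_congr_ae ?_
      have h0 : ∀ᵐ t ∂nu, t ∈ Ioi (0:ℝ) := by rw [nu]; exact ae_restrict_mem measurableSet_Ioi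
      filter_upwards [h0] with t ht
      have ht' : 0 < t := ht
      rw [Pi.add_apply]
      rcases le_or_gt t l with h | h
      · rw [indicator_of_mem (show t ∈ Ioc 0 l from ⟨ht', h⟩),
          indicator_of_notMem (show t ∉ Ioi l from not_lt.2 h), add_zero]
      · rw [indicator_of_notMem (show t ∉ Ioc 0 l from fun h' => absurd h'.2 (not_le.2 h)),
          indicator_of_mem (show t ∈ Ioi l from h), zero_add]
    rw [e1, e2, e3]
    exact eLpNorm_add_le (hm.indicator measurableSet_Ioc) (hm.indicator measurableSet_Ioi) Fact.out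
  have h2 : eLpNorm f p (volume.restrict (Ioi l)) = eLpNorm (V p l f) p nu := by
    have h3 : AEStronglyMeasurable f (Measure.map (fun t : ℝ => t + l) nu) :=
      (Lp.stronglyMeasurable f).aestronglyMeasurable
    have h4 := eLpNorm_map_measure (p := p) h3 (by fun_prop : AEMeasurable (fun t : ℝ => t + l) nu)
    rw [map_shift] at h4
    rw [h4]
    exact (eLpNorm_congr_ae (V_ae hl.le f)).symm
  have h5 : (eLpNorm f p (volume.restrict (Ioi l))).toReal = ‖w‖ * ‖f‖ := by
    rw [h2, ← Lp.norm_def, hf, norm_smul]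
  have h6 : eLpNorm f p (volume.restrict (Ioi l)) ≠ ∞ := by
    rw [h2]; exact Lp.eLpNorm_ne_top _
  have h7 := ENNReal.toReal_mono (ENNReal.add_ne_top.2 ⟨hfin, h6⟩) h1
  rw [ENNReal.toReal_add hfin h6, h5, ← Lp.norm_def] at h7
  linarith

lemma Ker_fsp {l : ℝ} (hl : 0 ≤ l) {w : ℂ} {E : Finset Ix}
    (hE : ∀ b ∈ E, Complex.exp (-b.1 * l) = w) {x : Y p} (hx : x ∈ fsp (ex p) E) :
    V p l x = w • x := by
  have h1 : fsp (ex p) E ≤ LinearMap.ker ((V p l : Y p →ₗ[ℂ] Y p) - w • LinearMap.id) := by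
    rw [fsp, Submodule.span_le]
    rintro _ ⟨b, hb, rfl⟩
    rw [SetLike.mem_coe, LinearMap.mem_ker]
    simp only [LinearMap.sub_apply, ContinuousLinearMap.coe_coe, LinearMap.smul_apply,
      LinearMap.id_apply]
    rw [V_ex hl, hE b hb, sub_self]
  have h2 := h1 hx
  rw [LinearMap.mem_ker] at h2
  simp only [LinearMap.sub_apply, ContinuousLinearMap.coe_coe, LinearMap.smul_apply,
      LinearMap.id_apply] at h2
  exact sub_eq_zero.1 h2

/-! ### trigonometric polynomials -/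

lemma Ker_qmp {l : ℝ} [hT : Fact (0 < l)] :
    Measure.QuasiMeasurePreserving ((↑) : ℝ → AddCircle l) (volume.restrict (Ioc 0 (0 + l)))
      (AddCircle.haarAddCircle (T := l)) := by
  have h1 := (AddCircle.measurePreserving_mk l 0).quasiMeasurePreserving
  refine ⟨h1.measurable, h1.absolutelyContinuous.trans ?_⟩
  rw [AddCircle.volume_eq_smul_haarAddCircle]
  exact Measure.smul_absolutelyContinuous

/-- Every trigonometric polynomial gives a combination of exponentials. -/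
lemma Ker_trig {l : ℝ} [hT : Fact (0 < l)] {w b0 : ℂ} (hb0 : 0 < b0.re)
    (hw : Complex.exp (-b0 * l) = w) {P : Lp ℂ p (AddCircle.haarAddCircle (T := l))}
    (hP : P ∈ Submodule.span ℂ (range (fourierLp (T := l) p))) :
    ∃ E : Finset Ix, (∀ b ∈ E, Complex.exp (-b.1 * l) = w) ∧ ∃ x ∈ fsp (ex p) E,
      ∀ᵐ t ∂(volume.restrict (Ioc 0 (0 + l))),
        x t = Complex.exp (-b0 * t) * P (t : AddCircle l) := by
  classical
  have hl : (l:ℂ) ≠ 0 := by exact_mod_cast hT.out.ne'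
  have hac : volume.restrict (Ioc 0 (0 + l)) ≪ nu :=
    Measure.absolutelyContinuous_of_le (Measure.restrict_mono (fun t ht => ht.1) le_rfl)
  induction hP using Submodule.span_induction with
  | mem P hP =>
    obtain ⟨k, rfl⟩ := hP
    have hre : 0 < (b0 - 2 * Real.pi * Complex.I * k / l).re := by
      have : (2 * Real.pi * Complex.I * k / l : ℂ).re = 0 := by
        have h1 : (2 * Real.pi * Complex.I * k / l : ℂ) = ((2 * Real.pi * k / l : ℝ) : ℂ) * Complex.I := by
          push_cast; ring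
        rw [h1, Complex.re_ofReal_mul, Complex.I_re, mul_zero]
      rw [Complex.sub_re, this, sub_zero]
      exact hb0
    refine ⟨{⟨b0 - 2 * Real.pi * Complex.I * k / l, hre⟩}, ?_, ex p ⟨_, hre⟩, ?_, ?_⟩
    · intro b hb
      rw [Finset.mem_singleton] at hb
      subst hb
      rw [← hw]
      have h1 : -(b0 - 2 * Real.pi * Complex.I * k / l) * (l:ℂ) =
          -b0 * l + k * (2 * Real.pi * Complex.I) := by
        field_simp
        ring
      simp only
      rw [h1, Complex.exp_add, Complex.exp_int_mul_two_pi_mul_I, mul_one]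
    · exact Submodule.subset_span ⟨_, by simp, rfl⟩
    · have h1 := hac.ae_le (ex_ae p (⟨_, hre⟩ : Ix))
      have h2 := Ker_qmp.ae (coeFn_fourierLp (T := l) p k)
      filter_upwards [h1, h2] with t h1 h2
      rw [h1, h2, fourier_coe_apply, ← Complex.exp_add]
      congr 1
      ring
  | zero =>
    refine ⟨∅, by simp, 0, Submodule.zero_mem _, ?_⟩
    have h1 := hac.ae_le (Lp.coeFn_zero ℂ p nu)
    have h2 := Ker_qmp.ae (Lp.coeFn_zero ℂ p (AddCircle.haarAddCircle (T := l)))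
    filter_upwards [h1, h2] with t h1 h2
    rw [h1, h2]
    simp
  | add P Q _ _ hP hQ =>
    obtain ⟨E, hE, x, hx, hxe⟩ := hP
    obtain ⟨E', hE', x', hx', hxe'⟩ := hQ
    refine ⟨E ∪ E', ?_, x + x', ?_, ?_⟩
    · intro b hb
      rcases Finset.mem_union.1 hb with h | h
      · exact hE b h
      · exact hE' b h
    · refine Submodule.add_mem _ ?_ ?_
      · exact Submodule.span_mono (image_mono (by simp)) hx
      · exact Submodule.span_mono (image_mono (by simp)) hx'
    · have h1 := hac.ae_le (Lp.coeFn_add x x')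
      have h2 := Ker_qmp.ae (Lp.coeFn_add P Q)
      filter_upwards [h1, h2, hxe, hxe'] with t h1 h2 h3 h4
      rw [h1, h2, Pi.add_apply, Pi.add_apply, h3, h4]
      ring
  | smul c P _ hP =>
    obtain ⟨E, hE, x, hx, hxe⟩ := hP
    refine ⟨E, hE, c • x, Submodule.smul_mem _ _ hx, ?_⟩
    have h1 := hac.ae_le (Lp.coeFn_smul c x)
    have h2 := Ker_qmp.ae (Lp.coeFn_smul c P)
    filter_upwards [h1, h2, hxe] with t h1 h2 h3
    rw [h1, h2, Pi.smul_apply, Pi.smul_apply, h3, smul_eq_mul, smul_eq_mul]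
    ring

/-- Eigenvectors of `V l` for the eigenvalue `w ≠ 0` are limits of combinations of the exponentials
`exp(-b t)` with `exp(-b l) = w`. -/
theorem kerApprox (hp : p ≠ ∞) {l : ℝ} (hl : 0 < l) {w : ℂ} (hw : w ≠ 0) {g : Y p}
    (hg : V p l g = w • g) {ε : ℝ} (hε : 0 < ε) :
    ∃ E : Finset Ix, (∀ b ∈ E, Complex.exp (-b.1 * l) = w) ∧ ∃ x ∈ fsp (ex p) E, ‖g - x‖ < ε := by
  rcases le_or_gt 1 ‖w‖ with hw1 | hw1
  · refine ⟨∅, by simp, 0, Submodule.zero_mem _, ?_⟩
    rw [Ker_big hp hl hw1 hg]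
    simpa using hε
  have hT : Fact (0 < l) := ⟨hl⟩
  have hlc : (l:ℂ) ≠ 0 := by exact_mod_cast hl.ne'
  -- the basic exponent
  set b0 : ℂ := -Complex.log w / l with hb0
  have hb0re : 0 < b0.re := by
    have h1 : b0.re = -Real.log ‖w‖ / l := by
      rw [hb0, Complex.div_ofReal_re, Complex.neg_re, Complex.log_re]
    rw [h1]
    exact div_pos (neg_pos.2 (Real.log_neg (norm_pos_iff.2 hw) hw1)) hl
  have hb0w : Complex.exp (-b0 * l) = w := by
    have : -b0 * l = Complex.log w := by rw [hb0]; field_simp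
    rw [this, Complex.exp_log hw]
  -- the function on the circle
  let h0 : ℝ → ℂ := fun t => Complex.exp (b0 * t) * g t
  let hc : AddCircle l → ℂ := AddCircle.liftIoc l 0 h0
  have hmp := AddCircle.measurePreserving_mk l 0
  have hh0 : StronglyMeasurable h0 := by
    have : Continuous fun t : ℝ => Complex.exp (b0 * t) := by fun_prop
    exact this.stronglyMeasurable.mul (Lp.stronglyMeasurable g)
  have hcm : StronglyMeasurable hc := by
    have h1 : StronglyMeasurable fun x : Ioc (0:ℝ) (0 + l) => h0 x :=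
      hh0.comp_measurable measurable_subtype_coe
    exact h1.comp_measurable (AddCircle.measurableEquivIoc l 0).measurable
  have hcoe : ∀ᵐ t : ℝ ∂(volume.restrict (Ioc 0 (0 + l))), hc (t : AddCircle l) = h0 t := by
    refine (ae_restrict_iff' measurableSet_Ioc).2 (ae_of_all _ fun t ht => ?_)
    exact AddCircle.liftIoc_coe_apply ht
  have hle : volume.restrict (Ioc 0 (0 + l)) ≤ nu :=
    Measure.restrict_mono (fun t ht => ht.1) le_rfl
  have hcL : MemLp hc p volume := by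
    refine ⟨hcm.aestronglyMeasurable, ?_⟩
    rw [← eLpNorm_comp_measurePreserving hcm.aestronglyMeasurable hmp]
    have h1 : eLpNorm (hc ∘ ((↑) : ℝ → AddCircle l)) p (volume.restrict (Ioc 0 (0 + l))) ≤
        eLpNorm (Real.exp (b0.re * l) • (g : ℝ → ℂ)) p (volume.restrict (Ioc 0 (0 + l))) := by
      refine eLpNorm_mono_ae ?_
      filter_upwards [hcoe, ae_restrict_mem measurableSet_Ioc] with t ht ht2
      rw [Function.comp_apply, ht, Pi.smul_apply, norm_smul, Real.norm_eq_abs,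
        abs_of_pos (Real.exp_pos _)]
      simp only [h0]
      rw [norm_mul, Complex.norm_exp]
      gcongr
      simp only [Complex.mul_re, Complex.ofReal_re, Complex.ofReal_im, mul_zero, sub_zero]
      have : t ≤ l := by simpa using ht2.2
      gcongr
    refine lt_of_le_of_lt h1 ?_
    have h2 : MemLp (g : ℝ → ℂ) p (volume.restrict (Ioc 0 (0 + l))) := (Lp.memLp g).mono_measure hle
    exact (h2.const_smul (Real.exp (b0.re * l))).2
  have hcH : MemLp hc p (AddCircle.haarAddCircle (T := l)) := hcL.haarAddCircle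
  -- approximation
  set δ : ℝ := ε * (1 - ‖w‖) / (2 * l ^ (1 / p).toReal) with hδ
  have hw2 : 0 < 1 - ‖w‖ := by linarith
  have hlp : 0 < l ^ (1 / p).toReal := Real.rpow_pos_of_pos hl _
  have hδ0 : 0 < δ := by positivity
  have hdense : hcH.toLp ∈ (Submodule.span ℂ (range (fourierLp (T := l) p))).topologicalClosure := by
    rw [span_fourierLp_closure_eq_top hp]
    exact Submodule.mem_top
  rw [← SetLike.mem_coe, Submodule.topologicalClosure_coe, Metric.mem_closure_iff] at hdense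
  obtain ⟨P, hP, hPd⟩ := hdense δ hδ0
  obtain ⟨E, hE, x, hx, hxe⟩ := Ker_trig (p := p) hb0re hb0w hP
  refine ⟨E, hE, x, hx, ?_⟩
  have heig : V p l (g - x) = w • (g - x) := by
    rw [map_sub, hg, Ker_fsp hl.le hE hx, smul_sub]
  have h1 := Ker_bound hl heig
  -- comparison
  have hPm : AEStronglyMeasurable (fun z => hc z - P z) (volume : Measure (AddCircle l)) :=
    hcm.aestronglyMeasurable.sub (Lp.stronglyMeasurable P).aestronglyMeasurable
  have h2 : eLpNorm (g - x : Y p) p (volume.restrict (Ioc 0 l)) ≤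
      eLpNorm (fun z => hc z - P z) p (volume : Measure (AddCircle l)) := by
    rw [← eLpNorm_comp_measurePreserving hPm hmp]
    have e0 : volume.restrict (Ioc 0 l) = volume.restrict (Ioc 0 (0 + l)) := by rw [zero_add]
    rw [e0]
    refine eLpNorm_mono_ae ?_
    have e1 := (Measure.absolutelyContinuous_of_le hle).ae_le (Lp.coeFn_sub g x)
    filter_upwards [e1, hxe, hcoe, ae_restrict_mem measurableSet_Ioc] with t e1 e2 e3 e4
    rw [e1, Pi.sub_apply, e2, Function.comp_apply, e3]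
    have e5 : g t - Complex.exp (-b0 * t) * P (t : AddCircle l) =
        Complex.exp (-b0 * t) * (h0 t - P (t : AddCircle l)) := by
      simp only [h0]
      rw [mul_sub, ← mul_assoc, ← Complex.exp_add]
      simp
    rw [e5, norm_mul]
    refine mul_le_of_le_one_left (norm_nonneg _) ?_
    rw [norm_cexp_neg, Real.exp_le_one_iff]
    nlinarith [mul_pos hb0re e4.1]
  have h3 : eLpNorm (fun z => hc z - P z) p (volume : Measure (AddCircle l)) =
      ENNReal.ofReal l ^ (1 / p).toReal * eLpNorm (hcH.toLp - P : Lp ℂ p _) p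
        (AddCircle.haarAddCircle (T := l)) := by
    rw [AddCircle.volume_eq_smul_haarAddCircle, eLpNorm_smul_measure_of_ne_top hp, smul_eq_mul]
    congr 1
    refine eLpNorm_congr_ae ?_
    filter_upwards [Lp.coeFn_sub hcH.toLp P, hcH.coeFn_toLp] with z e1 e2
    rw [e1, Pi.sub_apply, e2]
  have h4 : (eLpNorm (fun z => hc z - P z) p (volume : Measure (AddCircle l))).toReal =
      l ^ (1 / p).toReal * ‖hcH.toLp - P‖ := by
    rw [h3, ENNReal.toReal_mul, ← Lp.norm_def, ← ENNReal.toReal_rpow, ENNReal.toReal_ofReal hl.le]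
  have h5 : (eLpNorm (g - x : Y p) p (volume.restrict (Ioc 0 l))).toReal ≤
      l ^ (1 / p).toReal * ‖hcH.toLp - P‖ := by
    rw [← h4]
    refine ENNReal.toReal_mono ?_ h2
    rw [h3]
    exact ENNReal.mul_ne_top (ENNReal.rpow_ne_top_of_nonneg ENNReal.toReal_nonneg
      ENNReal.ofReal_ne_top) (Lp.eLpNorm_ne_top _)
  rw [dist_eq_norm] at hPd
  have h6 : ‖g - x‖ * (1 - ‖w‖) ≤ l ^ (1 / p).toReal * δ :=
    h1.trans (h5.trans (mul_le_mul_of_nonneg_left hPd.le hlp.le))
  have h7 : l ^ (1 / p).toReal * δ = ε / 2 * (1 - ‖w‖) := by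
    rw [hδ]; field_simp
  rw [h7] at h6
  have h8 := le_of_mul_le_mul_right h6 hw2
  linarith

end DC8965
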