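import Pool.Agent.Lib.MP_dc8965_an.Steps

open MeasureTheory Filter Topology Set
open scoped ENNReal NNReal

namespace DC8965

variable {p : ℝ≥0∞} [Fact (1 ≤ p)]

/-- (C1) the compression of an operator commuting with translations to step functions is a
Toeplitz matrix -/
theorem avg_T {l : ℝ} (hl : 0 < l) (T : Y p →L[ℂ] Y p)
    (hT : ∀ u : ℝ, 0 ≤ u → ∀ g : Y p, T (V p u g) = V p u (T g)) (I : ℕ) (y : ℕ → ℂ)
    (hy : ∀ i, I ≤ i → y i = 0) (i : ℕ) :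
    avg l i (T (∑ k ∈ Finset.range I, y k • bx p l k))
      = ∑ j ∈ Finset.range I, avg l 0 (T (bx p l j)) * y (i + j) := by
  rw [avg_V hl, ← hT _ (by positivity), V_step hl I i y hy, map_sum, map_sum]
  refine Finset.sum_congr rfl fun j _ => ?_
  rw [map_smul, map_smul, smul_eq_mul, mul_comm, add_comm]

/-- (C2) its norm is at most `‖T‖` -/
theorem toeplitz_bound (hp : p ≠ ∞) {l : ℝ} (hl : 0 < l) (T : Y p →L[ℂ] Y p)
    (hT : ∀ u : ℝ, 0 ≤ u → ∀ g : Y p, T (V p u g) = V p u (T g)) (I : ℕ) (y : ℕ → ℂ)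
    (hy : ∀ i, I ≤ i → y i = 0) :
    ∑' i : ℕ, ‖∑ j ∈ Finset.range I, avg l 0 (T (bx p l j)) * y (i + j)‖ₑ ^ p.toReal
      ≤ (ENNReal.ofReal ‖T‖) ^ p.toReal * ∑' i : ℕ, ‖y i‖ₑ ^ p.toReal := by
  have hq : 0 < p.toReal := toReal_pos' hp
  have hl0 : ENNReal.ofReal l ≠ 0 := (ENNReal.ofReal_pos.mpr hl).ne'
  set J : Y p := ∑ k ∈ Finset.range I, y k • bx p l k with hJ
  have hy' : ∑' i : ℕ, ‖y i‖ₑ ^ p.toReal = ∑ i ∈ Finset.range I, ‖y i‖ₑ ^ p.toReal := by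
    refine tsum_eq_sum fun i hi => ?_
    rw [hy i (by simpa using hi), enorm_zero, ENNReal.zero_rpow_of_pos hq]
  rw [ENNReal.tsum_eq_iSup_nat, hy']
  refine iSup_le fun M => ?_
  have h1 : ENNReal.ofReal l * ∑ i ∈ Finset.range M,
      ‖∑ j ∈ Finset.range I, avg l 0 (T (bx p l j)) * y (i + j)‖ₑ ^ p.toReal
      ≤ ENNReal.ofReal l * ((ENNReal.ofReal ‖T‖) ^ p.toReal
        * ∑ i ∈ Finset.range I, ‖y i‖ₑ ^ p.toReal) := by
    calc _ = ENNReal.ofReal l * ∑ i ∈ Finset.range M, ‖avg l i (T J)‖ₑ ^ p.toReal := by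
          congr 1
          refine Finset.sum_congr rfl fun i _ => ?_
          rw [hJ, avg_T hl T hT I y hy]
      _ = ‖∑ i ∈ Finset.range M, avg l i (T J) • bx p l i‖ₑ ^ p.toReal := (enorm_step hp hl _ _).symm
      _ ≤ ‖T J‖ₑ ^ p.toReal := by
          gcongr
          rw [← ofReal_norm, ← ofReal_norm]
          exact ENNReal.ofReal_le_ofReal (enorm_avg_le hp hl M (T J))
      _ ≤ (ENNReal.ofReal ‖T‖ * ‖J‖ₑ) ^ p.toReal := by
          gcongr
          rw [← ofReal_norm, ← ofReal_norm, ← ENNReal.ofReal_mul (norm_nonneg _)]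
          exact ENNReal.ofReal_le_ofReal (T.le_opNorm J)
      _ = (ENNReal.ofReal ‖T‖) ^ p.toReal * (ENNReal.ofReal l
            * ∑ i ∈ Finset.range I, ‖y i‖ₑ ^ p.toReal) := by
          rw [ENNReal.mul_rpow_of_nonneg _ _ hq.le, hJ, enorm_step hp hl]
      _ = _ := by ring
  exact (ENNReal.mul_le_mul_iff_right hl0 ENNReal.ofReal_ne_top).mp h1

end DC8965
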