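import Pool.Agent.Lib.MP_dc8965_an.Steps

open MeasureTheory Filter Topology Set
open scoped ENNReal NNReal

namespace DC8965

variable {p : ℝ≥0∞} [Fact (1 ≤ p)]

lemma dense_sum_two {M : Type*} [AddCommMonoid M] (f : ℕ → M) (N : ℕ) :
    ∑ i ∈ Finset.range (2 * N), f i = ∑ i ∈ Finset.range N, (f (2 * i) + f (2 * i + 1)) := by
  induction N with
  | zero => simp
  | succ N ih =>
    rw [Finset.sum_range_succ, ← ih, show 2 * (N + 1) = 2 * N + 1 + 1 by ring,
      Finset.sum_range_succ, Finset.sum_range_succ, add_assoc]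

lemma dense_bx_half {l : ℝ} (hl : 0 < l) (i : ℕ) :
    bx p l i = bx p (l / 2) (2 * i) + bx p (l / 2) (2 * i + 1) := by
  apply Lp.ext
  filter_upwards [bx_ae (p := p) l i, bx_ae (p := p) (l / 2) (2 * i),
    bx_ae (p := p) (l / 2) (2 * i + 1),
    Lp.coeFn_add (bx p (l / 2) (2 * i)) (bx p (l / 2) (2 * i + 1))] with t h1 h2 h3 h4
  rw [h4, Pi.add_apply, h1, h2, h3]
  have e1 : ((2 * i : ℕ) : ℝ) * (l / 2) = i * l := by push_cast; ring
  have e2 : (((2 * i : ℕ) : ℝ) + 1) * (l / 2) = (i + 1 / 2) * l := by push_cast; ring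
  have e3 : ((2 * i + 1 : ℕ) : ℝ) * (l / 2) = (i + 1 / 2) * l := by push_cast; ring
  have e4 : (((2 * i + 1 : ℕ) : ℝ) + 1) * (l / 2) = (i + 1) * l := by push_cast; ring
  rw [e1, e2, e3, e4]
  simp only [Set.indicator_apply, Set.mem_Ioc]
  have h5 : (i : ℝ) * l ≤ (i + 1 / 2) * l := by nlinarith
  have h6 : ((i : ℝ) + 1 / 2) * l ≤ (i + 1) * l := by nlinarith
  generalize ((i : ℝ) + 1 / 2) * l = m at h5 h6 ⊢
  by_cases c1 : (i : ℝ) * l < t
  · by_cases c2 : t ≤ m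
    · have c3 : t ≤ (i + 1) * l := c2.trans h6
      have c4 : ¬ m < t := not_lt.2 c2
      simp [c1, c2, c3, c4]
    · have c2' : m < t := not_le.1 c2
      by_cases c3 : t ≤ (i + 1) * l
      · simp [c1, c2, c2', c3]
      · simp [c1, c2, c3]
  · have c2 : ¬ m < t := fun h => c1 (h5.trans_lt h)
    simp [c1, c2]

/-- (D1) refinement of dyadic step functions -/
theorem refine_step (n m K : ℕ) (hnm : n ≤ m) (y : ℕ → ℂ) :
    ∃ y' : ℕ → ℂ, ∑ i ∈ Finset.range (K * 2 ^ n), y i • bx p ((1 / 2 : ℝ) ^ n) i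
      = ∑ i ∈ Finset.range (K * 2 ^ m), y' i • bx p ((1 / 2 : ℝ) ^ m) i := by
  induction m, hnm using Nat.le_induction with
  | base => exact ⟨y, rfl⟩
  | succ m hm ih =>
    obtain ⟨y', hy'⟩ := ih
    refine ⟨fun k => y' (k / 2), ?_⟩
    rw [hy', show K * 2 ^ (m + 1) = 2 * (K * 2 ^ m) by ring, dense_sum_two]
    refine Finset.sum_congr rfl ?_
    intro i _
    have e1 : (1 / 2 : ℝ) ^ (m + 1) = (1 / 2 : ℝ) ^ m / 2 := by rw [pow_succ]; ring
    have e2 : 2 * i / 2 = i := by omega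
    have e3 : (2 * i + 1) / 2 = i := by omega
    simp only [e2, e3]
    rw [e1, ← smul_add, ← dense_bx_half (by positivity)]

lemma dense_step_ae (l : ℝ) (I : ℕ) (y : ℕ → ℂ) :
    ⇑(∑ i ∈ Finset.range I, y i • bx p l i) =ᵐ[nu] fun t => ∑ i ∈ Finset.range I,
      y i * Set.indicator (Set.Ioc (i * l) ((i + 1) * l)) (fun _ => (1 : ℂ)) t := by
  induction I with
  | zero =>
    simp only [Finset.range_zero, Finset.sum_empty]
    exact Lp.coeFn_zero _ _ _
  | succ I ih =>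
    rw [Finset.sum_range_succ]
    filter_upwards [Lp.coeFn_add (∑ i ∈ Finset.range I, y i • bx p l i) (y I • bx p l I), ih,
      Lp.coeFn_smul (y I) (bx p l I), bx_ae (p := p) l I] with t h1 h2 h3 h4
    rw [h1, Pi.add_apply, h2, h3, Pi.smul_apply, h4, Finset.sum_range_succ, smul_eq_mul]

lemma dense_mem_Ioc {l : ℝ} (hl : 0 < l) {t : ℝ} (ht : 0 < t) (i : ℕ) :
    t ∈ Set.Ioc (i * l) ((i + 1) * l) ↔ i = ⌈t / l⌉₊ - 1 := by
  have h0 : 0 < t / l := by positivity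
  have h1 : 0 < ⌈t / l⌉₊ := Nat.ceil_pos.2 h0
  have h2 : (i : ℝ) * l < t ↔ i < ⌈t / l⌉₊ := by
    rw [Nat.lt_ceil, lt_div_iff₀ hl]
  have h3 : t ≤ (i + 1) * l ↔ ⌈t / l⌉₊ ≤ i + 1 := by
    rw [Nat.ceil_le, div_le_iff₀ hl]
    push_cast
    rfl
  rw [Set.mem_Ioc, h2, h3]
  omega

lemma dense_step_val {l : ℝ} (hl : 0 < l) (I : ℕ) (y : ℕ → ℂ) :
    ∀ᵐ t ∂nu, (∑ i ∈ Finset.range I, y i • bx p l i : Y p) t
      = if ⌈t / l⌉₊ - 1 < I then y (⌈t / l⌉₊ - 1) else 0 := by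
  have h3 : ∀ᵐ t ∂nu, 0 < t := by
    rw [nu]; exact ae_restrict_mem measurableSet_Ioi
  filter_upwards [dense_step_ae (p := p) l I y, h3] with t h1 ht
  rw [h1]
  have h4 : ∀ i ∈ Finset.range I, y i * Set.indicator (Set.Ioc (i * l) ((i + 1) * l))
      (fun _ => (1 : ℂ)) t = if i = ⌈t / l⌉₊ - 1 then y i else 0 := by
    intro i _
    rw [Set.indicator_apply]
    by_cases h : t ∈ Set.Ioc (i * l) ((i + 1) * l)
    · rw [if_pos h, if_pos ((dense_mem_Ioc hl ht i).1 h), mul_one]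
    · rw [if_neg h, if_neg (fun h' => h ((dense_mem_Ioc hl ht i).2 h')), mul_zero]
  rw [Finset.sum_congr rfl h4]
  simp only [Finset.sum_ite_eq', Finset.mem_range]

lemma dense_ceil {n : ℕ} {t : ℝ} (ht : 0 < t) (K : ℕ) :
    ⌈t / ((1 / 2 : ℝ) ^ n)⌉₊ - 1 < K * 2 ^ n ↔ t ≤ K := by
  have h0 : 0 < t / ((1 / 2 : ℝ) ^ n) := by positivity
  have h1 : 0 < ⌈t / ((1 / 2 : ℝ) ^ n)⌉₊ := Nat.ceil_pos.2 h0
  have h2 : ⌈t / ((1 / 2 : ℝ) ^ n)⌉₊ - 1 < K * 2 ^ n ↔ ⌈t / ((1 / 2 : ℝ) ^ n)⌉₊ ≤ K * 2 ^ n := by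
    omega
  rw [h2, Nat.ceil_le, div_le_iff₀ (by positivity)]
  push_cast
  rw [mul_assoc, ← mul_pow]
  norm_num

instance dense_locfin : IsLocallyFiniteMeasure nu := by
  unfold nu
  infer_instance

/-- (D2) dyadic step functions are dense -/
theorem dense_step (hp : p ≠ ∞) (g : Y p) {ε : ℝ} (hε : 0 < ε) :
    ∃ (n K : ℕ) (y : ℕ → ℂ),
      ‖g - ∑ i ∈ Finset.range (K * 2 ^ n), y i • bx p ((1 / 2 : ℝ) ^ n) i‖ < ε := by
  have hp0 : p ≠ 0 := by
    have : (1 : ℝ≥0∞) ≤ p := Fact.out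
    intro h
    rw [h] at this
    exact absurd this (by simp)
  obtain ⟨h, hsupp, hgh, hcont, hmem⟩ := (Lp.memLp g).exists_hasCompactSupport_eLpNorm_sub_le hp
    (ε := ENNReal.ofReal (ε / 4)) (by
      rw [Ne, ENNReal.ofReal_eq_zero, not_le]; positivity)
  -- support
  obtain ⟨r, hr⟩ := hsupp.isCompact.isBounded.subset_closedBall (0 : ℝ)
  obtain ⟨K, hK⟩ := exists_nat_gt r
  have hvan : ∀ t : ℝ, (K : ℝ) < t → h t = 0 := by
    intro t ht
    by_contra hne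
    have h1 : t ∈ tsupport h := subset_tsupport h hne
    have h2 := hr h1
    rw [mem_closedBall_zero_iff, Real.norm_eq_abs] at h2
    have := le_abs_self t
    linarith
  -- uniform continuity
  set ε' : ℝ := ε / (4 * ((K : ℝ) + 1)) with hε'
  have hε'0 : 0 < ε' := by positivity
  obtain ⟨δ, hδ, hδ'⟩ := Metric.uniformContinuous_iff.1
    (hsupp.uniformContinuous_of_continuous hcont) ε' hε'0
  obtain ⟨n, hn⟩ := exists_pow_lt_of_lt_one hδ (by norm_num : (1 / 2 : ℝ) < 1)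
  set l : ℝ := (1 / 2 : ℝ) ^ n with hl
  have hl0 : 0 < l := by positivity
  refine ⟨n, K, fun i => h (i * l), ?_⟩
  set s : Y p := ∑ i ∈ Finset.range (K * 2 ^ n), (h (i * l)) • bx p l i with hs
  have hpos : ∀ᵐ t ∂nu, 0 < t := by
    rw [nu]; exact ae_restrict_mem measurableSet_Ioi
  have hval := dense_step_val (p := p) hl0 (K * 2 ^ n) (fun i => h (i * l))
  -- the error h - s
  have herr : eLpNorm (h - ⇑s) p nu ≤ ENNReal.ofReal (ε / 4) := by
    have e1 : eLpNorm (h - ⇑s) p nu ≤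
        eLpNorm (Set.indicator (Set.Ioc (0 : ℝ) K) (fun _ => ε')) p nu := by
      refine eLpNorm_mono_ae ?_
      filter_upwards [hval, hpos] with t h1 ht
      rw [Pi.sub_apply, h1]
      by_cases htK : t ≤ K
      · have hmemK : t ∈ Set.Ioc (0 : ℝ) K := ⟨ht, htK⟩
        rw [if_pos ((dense_ceil ht K).2 htK), Set.indicator_of_mem hmemK,
          Real.norm_of_nonneg hε'0.le]
        have h2 : t ∈ Set.Ioc (((⌈t / l⌉₊ - 1 : ℕ) : ℝ) * l) ((((⌈t / l⌉₊ - 1 : ℕ) : ℝ) + 1) * l) :=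
          (dense_mem_Ioc hl0 ht _).2 rfl
        have h3 := hδ' (a := t) (b := ((⌈t / l⌉₊ - 1 : ℕ) : ℝ) * l) (by
          rw [Real.dist_eq, abs_lt]
          have h4 := h2.1
          have h5 := h2.2
          constructor <;> nlinarith)
        rw [dist_eq_norm] at h3
        exact h3.le
      · rw [if_neg (fun h => htK ((dense_ceil ht K).1 h)), hvan t (not_le.1 htK)]
        simp
    refine e1.trans ?_
    rw [eLpNorm_indicator_const measurableSet_Ioc hp0 hp]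
    have e2 : nu (Set.Ioc (0 : ℝ) K) ≤ ENNReal.ofReal ((K : ℝ) + 1) := by
      rw [nu, Measure.restrict_apply measurableSet_Ioc]
      refine (measure_mono Set.inter_subset_left).trans ?_
      rw [Real.volume_Ioc]
      exact ENNReal.ofReal_le_ofReal (by linarith)
    have e3 : nu (Set.Ioc (0 : ℝ) K) ^ (1 / p.toReal) ≤ ENNReal.ofReal ((K : ℝ) + 1) := by
      have hpr : 1 ≤ p.toReal := by
        rw [← ENNReal.toReal_one]
        exact ENNReal.toReal_mono hp Fact.out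
      calc nu (Set.Ioc (0 : ℝ) K) ^ (1 / p.toReal)
          ≤ (ENNReal.ofReal ((K : ℝ) + 1)) ^ (1 / p.toReal) :=
            ENNReal.rpow_le_rpow e2 (by positivity)
        _ ≤ (ENNReal.ofReal ((K : ℝ) + 1)) ^ (1 : ℝ) := by
            refine ENNReal.rpow_le_rpow_of_exponent_le ?_ ?_
            · rw [ENNReal.one_le_ofReal]
              have : (0 : ℝ) ≤ K := Nat.cast_nonneg K
              linarith
            · rw [div_le_one (by linarith)]
              exact hpr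
        _ = _ := ENNReal.rpow_one _
    calc ‖ε'‖ₑ * nu (Set.Ioc (0 : ℝ) K) ^ (1 / p.toReal)
        ≤ ENNReal.ofReal ε' * ENNReal.ofReal ((K : ℝ) + 1) := by
          rw [Real.enorm_of_nonneg hε'0.le]
          gcongr
      _ = ENNReal.ofReal (ε / 4) := by
          rw [← ENNReal.ofReal_mul hε'0.le]
          congr 1
          rw [hε']
          field_simp
  have htot : eLpNorm (⇑(g - s)) p nu ≤ ENNReal.ofReal (ε / 2) := by
    have e1 : eLpNorm (⇑(g - s)) p nu = eLpNorm ((⇑g - h) + (h - ⇑s)) p nu := by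
      refine eLpNorm_congr_ae ?_
      filter_upwards [Lp.coeFn_sub g s] with t ht
      rw [ht]
      simp
    rw [e1]
    refine (eLpNorm_add_le ?_ ?_ Fact.out).trans ?_
    · exact (Lp.aestronglyMeasurable g).sub hmem.1
    · exact hmem.1.sub (Lp.aestronglyMeasurable s)
    · refine (add_le_add hgh herr).trans ?_
      rw [← ENNReal.ofReal_add (by positivity) (by positivity)]
      exact ENNReal.ofReal_le_ofReal (by linarith)
  rw [Lp.norm_def]
  refine lt_of_le_of_lt (ENNReal.toReal_mono ENNReal.ofReal_ne_top htot) ?_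
  rw [ENNReal.toReal_ofReal (by positivity)]
  linarith

/-- (D3) the dyadic averages of a function supported in `(0,K]` converge to it -/
theorem tendsto_avg (hp : p ≠ ∞) (K : ℕ) (g : Y p) (hg : V p K g = 0) :
    Tendsto (fun n : ℕ => ∑ i ∈ Finset.range (K * 2 ^ n),
      avg ((1 / 2 : ℝ) ^ n) i g • bx p ((1 / 2 : ℝ) ^ n) i) atTop (𝓝 g) := by
  rw [Metric.tendsto_atTop]
  intro ε hε
  obtain ⟨n0, K0, y, hy⟩ := dense_step hp g (ε := ε / 2) (by positivity)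
  set s : Y p := ∑ i ∈ Finset.range (K0 * 2 ^ n0), y i • bx p ((1 / 2 : ℝ) ^ n0) i with hs
  set y' : ℕ → ℂ := fun i => if i < K0 * 2 ^ n0 then y i else 0 with hy'
  set s' : Y p := ∑ i ∈ Finset.range (K * 2 ^ n0), y' i • bx p ((1 / 2 : ℝ) ^ n0) i with hs'
  have hl0 : (0 : ℝ) < (1 / 2 : ℝ) ^ n0 := by positivity
  have hpos : ∀ᵐ t ∂nu, 0 < t := by
    rw [nu]; exact ae_restrict_mem measurableSet_Ioi
  have hg0 : ∀ᵐ t ∂nu, (K : ℝ) < t → g t = 0 := by
    have h1 := V_ae (p := p) (u := (K : ℝ)) (Nat.cast_nonneg K) g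
    rw [hg] at h1
    have h2 : ∀ᵐ t ∂nu, g (t + K) = 0 := by
      filter_upwards [h1, Lp.coeFn_zero ℂ p nu] with t h1 h2
      rw [← h1, h2]; rfl
    have h3 := ae_unshift (u := (K : ℝ)) (Nat.cast_nonneg K) h2
    filter_upwards [h3] with t h3 ht
    have := h3 ht
    simpa using this
  have hgs' : ‖g - s'‖ < ε / 2 := by
    refine lt_of_le_of_lt ?_ hy
    rw [Lp.norm_def, Lp.norm_def]
    refine ENNReal.toReal_mono (Lp.eLpNorm_ne_top _) ?_
    refine eLpNorm_mono_ae ?_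
    filter_upwards [hg0, hpos, Lp.coeFn_sub g s, Lp.coeFn_sub g s',
      dense_step_val (p := p) hl0 (K0 * 2 ^ n0) y,
      dense_step_val (p := p) hl0 (K * 2 ^ n0) y'] with t h1 h2 h3 h4 h5 h6
    rw [h3, h4, Pi.sub_apply, Pi.sub_apply, hs, hs', h5, h6]
    by_cases htK : t ≤ K
    · rw [if_pos ((dense_ceil h2 K).2 htK)]
    · rw [if_neg (fun h => htK ((dense_ceil h2 K).1 h)), h1 (not_le.1 htK)]
      simp
  refine ⟨n0, fun n hn => ?_⟩
  obtain ⟨z, hz⟩ := refine_step (p := p) n0 n K hn y'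
  have hln : (0 : ℝ) < (1 / 2 : ℝ) ^ n := by positivity
  have hEs : ∑ i ∈ Finset.range (K * 2 ^ n),
      avg ((1 / 2 : ℝ) ^ n) i s' • bx p ((1 / 2 : ℝ) ^ n) i = s' := by
    rw [hs', hz]
    refine Finset.sum_congr rfl ?_
    intro i hi
    congr 1
    rw [map_sum]
    have : ∀ k ∈ Finset.range (K * 2 ^ n), avg ((1 / 2 : ℝ) ^ n) i (z k • bx p ((1 / 2 : ℝ) ^ n) k)
        = if i = k then z k else 0 := by
      intro k _
      rw [map_smul, avg_bx hln, smul_eq_mul]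
      split_ifs <;> simp
    rw [Finset.sum_congr rfl this, Finset.sum_ite_eq, if_pos hi]
  have hEd : ∑ i ∈ Finset.range (K * 2 ^ n),
      avg ((1 / 2 : ℝ) ^ n) i g • bx p ((1 / 2 : ℝ) ^ n) i - g
      = (∑ i ∈ Finset.range (K * 2 ^ n),
      avg ((1 / 2 : ℝ) ^ n) i (g - s') • bx p ((1 / 2 : ℝ) ^ n) i) - (g - s') := by
    simp_rw [map_sub, sub_smul]
    rw [Finset.sum_sub_distrib, hEs]
    abel
  rw [dist_eq_norm, hEd]
  calc ‖(∑ i ∈ Finset.range (K * 2 ^ n),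
      avg ((1 / 2 : ℝ) ^ n) i (g - s') • bx p ((1 / 2 : ℝ) ^ n) i) - (g - s')‖
      ≤ ‖g - s'‖ + ‖g - s'‖ :=
        (norm_sub_le _ _).trans (add_le_add (enorm_avg_le hp hln _ _) le_rfl)
    _ < ε := by linarith

end DC8965
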