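import Pool.Agent.Lib.MP_dc8965_an.Defs

open MeasureTheory Filter Topology Set
open scoped ENNReal NNReal

namespace DC8965

variable {p : ℝ≥0∞} [Fact (1 ≤ p)]

lemma transf_iUnion {l : ℝ} (hl : 0 < l) :
    (⋃ i : ℕ, Set.Ioc ((i : ℝ) * l) (((i + 1 : ℕ) : ℝ) * l)) = Set.Ioi (0:ℝ) := by
  have h := iUnion_Ioc_map_succ_eq_Ioi (f := fun i : ℕ => (i : ℝ) * l) ?_ ?_
  · simpa using h
  · intro a
    simp only [Nat.bot_eq_zero, Nat.cast_zero, zero_mul]
    positivity
  · rintro ⟨M, hM⟩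
    obtain ⟨n, hn⟩ := exists_nat_gt (M / l)
    have h1 : (n : ℝ) * l ≤ M := hM ⟨n, rfl⟩
    rw [div_lt_iff₀ hl] at hn
    linarith

lemma transf_disj {l : ℝ} (hl : 0 < l) :
    Pairwise (Function.onFun Disjoint
      fun i : ℕ => Set.Ioc ((i : ℝ) * l) (((i + 1 : ℕ) : ℝ) * l)) := by
  have hm : Monotone (fun i : ℕ => (i : ℝ) * l) := by
    intro a b hab
    have : (a : ℝ) ≤ b := by exact_mod_cast hab
    simp only
    gcongr
  exact hm.pairwise_disjoint_on_Ioc_succ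

/-- The integral over the half line as an integral over `(0,l]` of a sum of translates. -/
lemma transf_lintegral {l : ℝ} (hl : 0 < l) {F : ℝ → ℝ≥0∞} (hF : Measurable F) :
    ∫⁻ t, F t ∂nu = ∫⁻ t in Set.Ioc 0 l, ∑' i : ℕ, F (t + i * l) := by
  have hm : ∀ i : ℕ, AEMeasurable (fun t : ℝ => F (t + i * l)) (volume.restrict (Set.Ioc 0 l)) :=
    fun i => (hF.comp (by fun_prop : Measurable fun t : ℝ => t + i * l)).aemeasurable
  rw [nu, ← transf_iUnion hl, lintegral_iUnion (fun i => measurableSet_Ioc) (transf_disj hl),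
    lintegral_tsum hm]
  congr 1
  ext i
  have h : MeasurePreserving (fun t : ℝ => t + i * l) volume volume :=
    measurePreserving_add_right volume _
  have hemb : MeasurableEmbedding (fun t : ℝ => t + i * l) :=
    (MeasurableEquiv.addRight ((i : ℝ) * l)).measurableEmbedding
  have h2 := h.setLIntegral_comp_preimage_emb hemb F
    (Set.Ioc ((i : ℝ) * l) (((i + 1 : ℕ) : ℝ) * l))
  rw [← h2]
  congr 2
  ext t
  simp only [Set.mem_preimage, Set.mem_Ioc]
  push_cast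
  constructor
  · rintro ⟨h1, h2⟩; exact ⟨by linarith, by linarith⟩
  · rintro ⟨h1, h2⟩; exact ⟨by linarith, by linarith⟩

lemma transf_eq {l : ℝ} (hl : 0 < l) (N : ℕ) (b : ℕ → ℂ) :
    Polynomial.aeval (V p l) (∑ j ∈ Finset.range N, Polynomial.monomial j (b j)) =
      ∑ j ∈ Finset.range N, b j • V p (j * l) := by
  rw [map_sum]
  refine Finset.sum_congr rfl fun j _ => ?_
  rw [Polynomial.aeval_monomial, V_pow hl.le, Algebra.algebraMap_eq_smul_one, smul_mul_assoc,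
    one_mul]

lemma transf_ae {l : ℝ} (hl : 0 < l) (N : ℕ) (b : ℕ → ℂ) (g : Y p) :
    ⇑(Polynomial.aeval (V p l) (∑ j ∈ Finset.range N, Polynomial.monomial j (b j)) g) =ᵐ[nu]
      fun t => ∑ j ∈ Finset.range N, b j * g (t + j * l) := by
  rw [transf_eq hl]
  induction N with
  | zero =>
    simp only [Finset.range_zero, Finset.sum_empty, zero_apply]
    exact Lp.coeFn_zero _ _ _
  | succ N ih =>
    rw [Finset.sum_range_succ, add_apply, smul_apply]
    have h1 := Lp.coeFn_add ((∑ j ∈ Finset.range N, b j • V p (j * l)) g) (b N • V p (N * l) g)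
    have h2 := Lp.coeFn_smul (b N) (V p (N * l) g)
    have h3 := V_ae (by positivity : 0 ≤ (N : ℝ) * l) g
    filter_upwards [ih, h1, h2, h3] with t ih h1 h2 h3
    rw [h1, Pi.add_apply, ih, h2, Pi.smul_apply, h3, Finset.sum_range_succ, smul_eq_mul]

/-- Transference from `ℓ^p` to `L^p(0,∞)`. -/
theorem transf (hp : p ≠ ∞) {l : ℝ} (hl : 0 < l) (K : ℝ) (hK : 0 ≤ K) (N : ℕ) (b : ℕ → ℂ)
    (hb : ∀ y : ℕ → ℂ, ∑' i : ℕ, ‖∑ j ∈ Finset.range N, b j * y (i + j)‖ₑ ^ p.toReal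
      ≤ (ENNReal.ofReal K) ^ p.toReal * ∑' i : ℕ, ‖y i‖ₑ ^ p.toReal) :
    ‖Polynomial.aeval (V p l) (∑ j ∈ Finset.range N, Polynomial.monomial j (b j))‖ ≤ K := by
  have hp1 : (1:ℝ≥0∞) ≤ p := Fact.out
  have hp0 : p ≠ 0 := (lt_of_lt_of_le one_pos hp1).ne'
  have hpr : 0 < p.toReal := ENNReal.toReal_pos hp0 hp
  refine ContinuousLinearMap.opNorm_le_bound _ hK fun g => ?_
  set B := Polynomial.aeval (V p l) (∑ j ∈ Finset.range N, Polynomial.monomial j (b j)) with hB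
  have hgm : Measurable (g : ℝ → ℂ) := (Lp.stronglyMeasurable g).measurable
  have hae := transf_ae hl N b g
  set h : ℝ → ℂ := fun t => ∑ j ∈ Finset.range N, b j * g (t + j * l) with hh
  have hhm : Measurable h := by
    refine Finset.measurable_sum _ fun j _ => ?_
    exact (hgm.comp (by fun_prop)).const_mul _
  have key : ∫⁻ t, ‖B g t‖ₑ ^ p.toReal ∂nu ≤
      (ENNReal.ofReal K) ^ p.toReal * ∫⁻ t, ‖g t‖ₑ ^ p.toReal ∂nu := by
    have h1 : ∫⁻ t, ‖B g t‖ₑ ^ p.toReal ∂nu = ∫⁻ t, ‖h t‖ₑ ^ p.toReal ∂nu := by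
      refine lintegral_congr_ae ?_
      filter_upwards [hae] with t ht
      rw [ht]
    rw [h1, transf_lintegral hl (hhm.enorm.pow_const _),
      transf_lintegral hl (hgm.enorm.pow_const _), ← lintegral_const_mul' _ _ (by
        exact ENNReal.rpow_ne_top_of_nonneg hpr.le ENNReal.ofReal_ne_top)]
    refine lintegral_mono fun t => ?_
    refine le_trans (le_of_eq ?_) (hb fun i => g (t + i * l))
    congr 1
    ext i
    congr 2
    refine Finset.sum_congr rfl fun j _ => ?_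
    congr 2
    push_cast
    ring
  have h2 : ‖B g‖ₑ ≤ ENNReal.ofReal K * ‖g‖ₑ := by
    rw [Lp.enorm_def, Lp.enorm_def, eLpNorm_eq_lintegral_rpow_enorm_toReal hp0 hp,
      eLpNorm_eq_lintegral_rpow_enorm_toReal hp0 hp]
    calc (∫⁻ t, ‖B g t‖ₑ ^ p.toReal ∂nu) ^ (1 / p.toReal)
        ≤ ((ENNReal.ofReal K) ^ p.toReal * ∫⁻ t, ‖g t‖ₑ ^ p.toReal ∂nu) ^ (1 / p.toReal) := by
          gcongr
      _ = ENNReal.ofReal K * (∫⁻ t, ‖g t‖ₑ ^ p.toReal ∂nu) ^ (1 / p.toReal) := by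
          rw [ENNReal.mul_rpow_of_nonneg _ _ (by positivity), ← ENNReal.rpow_mul,
            mul_one_div_cancel hpr.ne', ENNReal.rpow_one]
  have h3 := ENNReal.toReal_mono (by finiteness) h2
  rw [ENNReal.toReal_mul, ENNReal.toReal_ofReal hK, toReal_enorm, toReal_enorm] at h3
  exact h3

end DC8965
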