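import Pool.Agent.Lib.MP_dc8965_an.Fejer
import Pool.Agent.Lib.MP_dc8965_an.Transf
import Pool.Agent.Lib.MP_dc8965_an.Dense
import Pool.Agent.Lib.MP_dc8965_an.Compress

/-!
Operators commuting with the translations are strong limits of polynomials in one translation.
-/

open MeasureTheory Filter Topology Set
open scoped ENNReal NNReal Polynomial

namespace DC8965

variable {p : ℝ≥0∞} [Fact (1 ≤ p)]

/-- the Fejér polynomial -/
noncomputable def fpol (p : ℝ≥0∞) [Fact (1 ≤ p)] (T : Y p →L[ℂ] Y p) (l : ℝ) (N : ℕ) : ℂ[X] :=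
  ∑ j ∈ Finset.range N, Polynomial.monomial j ((1 - (j : ℂ) / N) * avg l 0 (T (bx p l j)))

lemma norm_fpol_le (hp : p ≠ ∞) (T : Y p →L[ℂ] Y p)
    (hT : ∀ u : ℝ, 0 ≤ u → ∀ g : Y p, T (V p u g) = V p u (T g)) {l : ℝ} (hl : 0 < l) {N : ℕ}
    (hN : 0 < N) : ‖Polynomial.aeval (V p l) (fpol p T l N)‖ ≤ ‖T‖ := by
  refine transf hp hl ‖T‖ (norm_nonneg _) N _ fun y => ?_
  refine fejer ?_ (ENNReal.ofReal ‖T‖) _ (fun I y hy => toeplitz_bound hp hl T hT I y hy) N hN y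
  have h1 : 1 ≤ p := Fact.out
  have := ENNReal.toReal_mono hp h1
  simpa using this

lemma aeval_fpol (T : Y p →L[ℂ] Y p) {l : ℝ} (hl : 0 < l) (N : ℕ) (g : Y p) :
    Polynomial.aeval (V p l) (fpol p T l N) g
      = ∑ j ∈ Finset.range N, ((1 - (j : ℂ) / N) * avg l 0 (T (bx p l j))) • V p (j * l) g := by
  rw [fpol, map_sum, _root_.sum_apply]
  refine Finset.sum_congr rfl fun j _ => ?_
  rw [Polynomial.aeval_monomial, V_pow hl.le, Algebra.algebraMap_eq_smul_one, smul_mul_assoc,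
    one_mul, _root_.smul_apply]

/-- one step function, one level -/
lemma fpol_step (T : Y p →L[ℂ] Y p)
    (hT : ∀ u : ℝ, 0 ≤ u → ∀ g : Y p, T (V p u g) = V p u (T g)) {l : ℝ} (hl : 0 < l) (I : ℕ)
    (y : ℕ → ℂ) (hy : ∀ i, I ≤ i → y i = 0) {N : ℕ} (hN : 0 < N) (hIN : I ≤ N) :
    ‖Polynomial.aeval (V p l) (fpol p T l N) (∑ i ∈ Finset.range I, y i • bx p l i)
      - ∑ i ∈ Finset.range I, avg l i (T (∑ i ∈ Finset.range I, y i • bx p l i)) • bx p l i‖
      ≤ (∑ j ∈ Finset.range I, (j : ℝ) * ‖avg l 0 (T (bx p l j))‖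
          * ‖∑ i ∈ Finset.range I, y i • bx p l i‖) / N := by
  set s : Y p := ∑ i ∈ Finset.range I, y i • bx p l i with hs
  have hVs : ∀ j : ℕ, V p (j * l) s = ∑ i ∈ Finset.range I, y (i + j) • bx p l i :=
    fun j => V_step hl I j y hy
  have h0 : ∀ j : ℕ, I ≤ j → V p (j * l) s = 0 := by
    intro j hj
    rw [hVs]
    refine Finset.sum_eq_zero fun i _ => ?_
    rw [hy (i + j) (by omega), zero_smul]
  have h1 : ∑ i ∈ Finset.range I, avg l i (T s) • bx p l i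
      = ∑ j ∈ Finset.range I, avg l 0 (T (bx p l j)) • V p (j * l) s := by
    calc ∑ i ∈ Finset.range I, avg l i (T s) • bx p l i
        = ∑ i ∈ Finset.range I, ∑ j ∈ Finset.range I,
            (avg l 0 (T (bx p l j)) * y (i + j)) • bx p l i := by
          refine Finset.sum_congr rfl fun i _ => ?_
          rw [hs, avg_T hl T hT I y hy i, Finset.sum_smul]
      _ = ∑ j ∈ Finset.range I, ∑ i ∈ Finset.range I,
            (avg l 0 (T (bx p l j)) * y (i + j)) • bx p l i := Finset.sum_comm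
      _ = _ := by
          refine Finset.sum_congr rfl fun j _ => ?_
          rw [hVs, Finset.smul_sum]
          refine Finset.sum_congr rfl fun i _ => ?_
          rw [smul_smul]
  have h2 : Polynomial.aeval (V p l) (fpol p T l N) s
      = ∑ j ∈ Finset.range I, ((1 - (j : ℂ) / N) * avg l 0 (T (bx p l j))) • V p (j * l) s := by
    rw [aeval_fpol T hl]
    symm
    refine Finset.sum_subset (Finset.range_mono hIN) fun j _ hj => ?_
    rw [h0 j (by simpa using hj), smul_zero]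
  rw [h1, h2, ← Finset.sum_sub_distrib]
  have h3 : ∀ j ∈ Finset.range I,
      ‖((1 - (j : ℂ) / N) * avg l 0 (T (bx p l j))) • V p (j * l) s
        - avg l 0 (T (bx p l j)) • V p (j * l) s‖
      ≤ ((j : ℝ) * ‖avg l 0 (T (bx p l j))‖ * ‖s‖) / N := by
    intro j _
    rw [← sub_smul]
    have h4 : (1 - (j : ℂ) / N) * avg l 0 (T (bx p l j)) - avg l 0 (T (bx p l j))
        = -((j : ℂ) / N) * avg l 0 (T (bx p l j)) := by ring
    rw [h4, norm_smul, norm_mul, norm_neg, norm_div, Complex.norm_natCast, Complex.norm_natCast]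
    calc (j : ℝ) / N * ‖avg l 0 (T (bx p l j))‖ * ‖V p (j * l) s‖
        ≤ (j : ℝ) / N * ‖avg l 0 (T (bx p l j))‖ * ‖s‖ := by
          gcongr; exact norm_V_apply_le _ _
      _ = ((j : ℝ) * ‖avg l 0 (T (bx p l j))‖ * ‖s‖) / N := by ring
  calc ‖∑ j ∈ Finset.range I, (((1 - (j : ℂ) / N) * avg l 0 (T (bx p l j))) • V p (j * l) s
        - avg l 0 (T (bx p l j)) • V p (j * l) s)‖
      ≤ ∑ j ∈ Finset.range I, ‖((1 - (j : ℂ) / N) * avg l 0 (T (bx p l j))) • V p (j * l) s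
        - avg l 0 (T (bx p l j)) • V p (j * l) s‖ := norm_sum_le _ _
    _ ≤ ∑ j ∈ Finset.range I, ((j : ℝ) * ‖avg l 0 (T (bx p l j))‖ * ‖s‖) / N :=
        Finset.sum_le_sum h3
    _ = _ := by rw [Finset.sum_div]

/-- dyadic step functions can be written at all finer levels, on longer intervals -/
lemma step_level (n K n' K' : ℕ) (hn : n ≤ n') (hK : K ≤ K') (y : ℕ → ℂ) :
    ∃ y' : ℕ → ℂ, (∀ i, K' * 2 ^ n' ≤ i → y' i = 0) ∧
      ∑ i ∈ Finset.range (K * 2 ^ n), y i • bx p ((1 / 2 : ℝ) ^ n) i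
      = ∑ i ∈ Finset.range (K' * 2 ^ n'), y' i • bx p ((1 / 2 : ℝ) ^ n') i := by
  obtain ⟨z, hz⟩ := refine_step (p := p) n n' K hn y
  refine ⟨fun i => if i < K * 2 ^ n' then z i else 0, ?_, ?_⟩
  · intro i hi
    have h1 : K * 2 ^ n' ≤ K' * 2 ^ n' := Nat.mul_le_mul_right _ hK
    exact if_neg (not_lt.mpr (h1.trans hi))
  · rw [hz]
    have h1 : K * 2 ^ n' ≤ K' * 2 ^ n' := Nat.mul_le_mul_right _ hK
    have h2 : ∑ i ∈ Finset.range (K * 2 ^ n'), z i • bx p ((1 / 2 : ℝ) ^ n') i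
        = ∑ i ∈ Finset.range (K * 2 ^ n'),
          (if i < K * 2 ^ n' then z i else 0) • bx p ((1 / 2 : ℝ) ^ n') i := by
      refine Finset.sum_congr rfl fun i hi => ?_
      rw [if_pos (Finset.mem_range.mp hi)]
    rw [h2]
    refine Finset.sum_subset (Finset.range_mono h1) fun i _ hi => ?_
    rw [if_neg (by simpa using hi), zero_smul]

/-- Operators commuting with the translations are strong limits of polynomials in translations,
with norm control. -/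
theorem polyApprox (hp : p ≠ ∞) (T : Y p →L[ℂ] Y p)
    (hT : ∀ u : ℝ, 0 ≤ u → ∀ g : Y p, T (V p u g) = V p u (T g)) {ε : ℝ} (hε : 0 < ε)
    (G : Finset (Y p)) :
    ∃ l : ℝ, 0 < l ∧ ∃ P : ℂ[X], ‖Polynomial.aeval (V p l) P‖ ≤ ‖T‖ ∧
      ∀ h ∈ G, ‖Polynomial.aeval (V p l) P h - T h‖ < ε := by
  classical
  let δ : ℝ := ε / (4 * (‖T‖ + 1))
  have hT0 : 0 ≤ ‖T‖ := norm_nonneg _
  have hδ : 0 < δ := by positivity
  have hδT : ‖T‖ * δ ≤ ε / 4 := by
    have h1 : ‖T‖ * δ ≤ (‖T‖ + 1) * δ := by gcongr; linarith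
    have h2 : (‖T‖ + 1) * δ = ε / 4 := by
      simp only [δ]; field_simp
    linarith
  have h1 : ∀ h : Y p, ∃ (n K : ℕ) (y : ℕ → ℂ),
      ‖h - ∑ i ∈ Finset.range (K * 2 ^ n), y i • bx p ((1 / 2 : ℝ) ^ n) i‖ < δ :=
    fun h => dense_step hp h hδ
  choose nh Kh yh hyh using h1
  let s : Y p → Y p := fun h =>
    ∑ i ∈ Finset.range (Kh h * 2 ^ nh h), yh h i • bx p ((1 / 2 : ℝ) ^ nh h) i
  have hs : ∀ h, ‖h - s h‖ < δ := hyh
  let n₀ : ℕ := G.sup nh
  let K : ℕ := G.sup Kh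
  have hlev : ∀ n, n₀ ≤ n → ∀ h ∈ G, ∃ y' : ℕ → ℂ, (∀ i, K * 2 ^ n ≤ i → y' i = 0) ∧
      s h = ∑ i ∈ Finset.range (K * 2 ^ n), y' i • bx p ((1 / 2 : ℝ) ^ n) i := by
    intro n hn h hh
    exact step_level (nh h) (Kh h) n K ((Finset.le_sup hh).trans hn) (Finset.le_sup hh) (yh h)
  -- T (s h) is supported in (0,K]
  have hsupp : ∀ h ∈ G, V p K (T (s h)) = 0 := by
    intro h hh
    obtain ⟨y', hy', hy'2⟩ := hlev n₀ le_rfl h hh
    have hl : (0 : ℝ) < (1 / 2) ^ n₀ := by positivity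
    have hKl : (K : ℝ) = ((K * 2 ^ n₀ : ℕ) : ℝ) * (1 / 2) ^ n₀ := by
      push_cast
      rw [mul_assoc, ← mul_pow]; norm_num
    rw [← hT K (Nat.cast_nonneg K), hy'2, hKl, V_step hl _ _ y' hy']
    have : ∑ i ∈ Finset.range (K * 2 ^ n₀), y' (i + K * 2 ^ n₀) • bx p ((1 / 2 : ℝ) ^ n₀) i = 0 := by
      refine Finset.sum_eq_zero fun i _ => ?_
      rw [hy' _ (by omega), zero_smul]
    rw [this, map_zero]
  have htend : ∀ h ∈ G, ∀ᶠ n : ℕ in atTop,
      ‖∑ i ∈ Finset.range (K * 2 ^ n), avg ((1 / 2 : ℝ) ^ n) i (T (s h)) •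
        bx p ((1 / 2 : ℝ) ^ n) i - T (s h)‖ < ε / 4 := by
    intro h hh
    have h2 := tendsto_avg hp K (T (s h)) (hsupp h hh)
    rw [Metric.tendsto_atTop] at h2
    obtain ⟨n, hn⟩ := h2 (ε / 4) (by positivity)
    rw [eventually_atTop]
    exact ⟨n, fun m hm => by rw [← dist_eq_norm]; exact hn m hm⟩
  obtain ⟨n, hn, hnn₀⟩ := (((Finset.eventually_all G).mpr htend).and (eventually_ge_atTop n₀)).exists
  set l : ℝ := (1 / 2 : ℝ) ^ n with hl_def
  have hl : 0 < l := by positivity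
  refine ⟨l, hl, ?_⟩
  -- choose N
  let B : Y p → ℝ := fun h => ∑ j ∈ Finset.range (K * 2 ^ n), (j : ℝ) * ‖avg l 0 (T (bx p l j))‖
          * ‖s h‖
  have hB0 : ∀ h, 0 ≤ B h := fun h => Finset.sum_nonneg fun j _ => by positivity
  obtain ⟨N₁, hN₁⟩ := exists_nat_gt ((∑ h ∈ G, B h) / (ε / 4))
  let N : ℕ := max (N₁ + 1) (K * 2 ^ n)
  have hN0 : 0 < N := lt_of_lt_of_le (Nat.succ_pos _) (le_max_left _ _)
  have hBN : ∀ h ∈ G, B h / N < ε / 4 := by
    intro h hh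
    have h2 : B h ≤ ∑ h ∈ G, B h := Finset.single_le_sum (fun h _ => hB0 h) hh
    have h3 : (N₁ : ℝ) < N := by
      exact_mod_cast lt_of_lt_of_le (Nat.lt_succ_self N₁) (le_max_left _ _)
    rw [div_lt_iff₀ (by exact_mod_cast hN0)]
    rw [div_lt_iff₀ (by positivity)] at hN₁
    nlinarith
  refine ⟨fpol p T l N, norm_fpol_le hp T hT hl hN0, fun h hh => ?_⟩
  obtain ⟨y', hy', hy'2⟩ := hlev n hnn₀ h hh
  have h2 := fpol_step T hT hl (K * 2 ^ n) y' hy' hN0 (le_max_right _ _)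
  rw [← hy'2] at h2
  have h3 := hBN h hh
  have h4 := hn h hh
  have h5 := hs h
  have h6 : ‖Polynomial.aeval (V p l) (fpol p T l N) (h - s h)‖ ≤ ‖T‖ * δ := by
    refine (ContinuousLinearMap.le_opNorm _ _).trans ?_
    gcongr
    exact norm_fpol_le hp T hT hl hN0
  have h7 : ‖T (h - s h)‖ ≤ ‖T‖ * δ := by
    refine (ContinuousLinearMap.le_opNorm _ _).trans ?_
    gcongr
  set Es : Y p := ∑ i ∈ Finset.range (K * 2 ^ n), avg l i (T (s h)) • bx p l i with hEs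
  have h8 : Polynomial.aeval (V p l) (fpol p T l N) h - T h
      = Polynomial.aeval (V p l) (fpol p T l N) (h - s h)
        + (Polynomial.aeval (V p l) (fpol p T l N) (s h) - Es) + (Es - T (s h)) - T (h - s h) := by
    rw [map_sub, map_sub]; abel
  rw [h8]
  have h9 : ‖Polynomial.aeval (V p l) (fpol p T l N) (s h) - Es‖ ≤ B h / N := h2
  calc _ ≤ ‖Polynomial.aeval (V p l) (fpol p T l N) (h - s h)
        + (Polynomial.aeval (V p l) (fpol p T l N) (s h) - Es) + (Es - T (s h))‖ + ‖T (h - s h)‖ :=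
        norm_sub_le _ _
    _ ≤ ‖Polynomial.aeval (V p l) (fpol p T l N) (h - s h)
        + (Polynomial.aeval (V p l) (fpol p T l N) (s h) - Es)‖ + ‖Es - T (s h)‖ + ‖T (h - s h)‖ := by
        gcongr; exact norm_add_le _ _
    _ ≤ ‖Polynomial.aeval (V p l) (fpol p T l N) (h - s h)‖
        + ‖Polynomial.aeval (V p l) (fpol p T l N) (s h) - Es‖ + ‖Es - T (s h)‖ + ‖T (h - s h)‖ := by
        gcongr; exact norm_add_le _ _
    _ < ε := by linarith

end DC8965
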