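import Pool.Agent.Lib.MP_dc8965_an.Cont

open MeasureTheory Filter Topology Set
open scoped ENNReal NNReal

namespace DC8965

variable {p : ℝ≥0∞} [Fact (1 ≤ p)]

lemma tlam_p_ne_zero : p ≠ 0 := (lt_of_lt_of_le zero_lt_one (Fact.out : 1 ≤ p)).ne'

lemma tlam_r_pos (hp : p ≠ ∞) : 0 < p.toReal := ENNReal.toReal_pos tlam_p_ne_zero hp

lemma tlam_eLpNorm (hp : p ≠ ∞) (f : ℝ → ℂ) :
    eLpNorm f p nu = (∫⁻ t, ‖f t‖ₑ ^ p.toReal ∂nu) ^ (1 / p.toReal) :=
  eLpNorm_eq_lintegral_rpow_enorm_toReal tlam_p_ne_zero hp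

lemma tlam_eLpNorm_rpow (hp : p ≠ ∞) (f : ℝ → ℂ) :
    eLpNorm f p nu ^ p.toReal = ∫⁻ t, ‖f t‖ₑ ^ p.toReal ∂nu := by
  rw [tlam_eLpNorm hp, ← ENNReal.rpow_mul, one_div, inv_mul_cancel₀ (tlam_r_pos hp).ne',
    ENNReal.rpow_one]

lemma tlam_pos_ae : ∀ᵐ t ∂nu, 0 < t := by
  rw [nu]; exact ae_restrict_mem measurableSet_Ioi

lemma tlam_aesm (hp : p ≠ ∞) (lam : Y p →L[ℂ] ℂ) (G : Y p) :
    AEStronglyMeasurable (fun u => lam (V p u G)) nu := by
  have h : ContinuousOn (fun u : ℝ => lam (V p u G)) (Set.Ici 0) :=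
    lam.continuous.comp_continuousOn (continuousOn_V hp G)
  exact (h.mono Ioi_subset_Ici_self).aestronglyMeasurable measurableSet_Ioi

lemma tlam_bound (hp : p ≠ ∞) (w : ℝ → ℝ≥0∞) (hw : Measurable w)
    (lam : Y p →L[ℂ] ℂ) (C : ℝ≥0∞)
    (hlam : ∀ G : Y p, ‖lam G‖ₑ ^ p.toReal ≤ C * ∫⁻ t, w t * ‖G t‖ₑ ^ p.toReal ∂nu) (G : Y p) :
    ∫⁻ u, ‖lam (V p u G)‖ₑ ^ p.toReal ∂nu ≤
      C * ((∫⁻ t, w t ∂nu) * ∫⁻ t, ‖G t‖ₑ ^ p.toReal ∂nu) := by
  have hG : Measurable (⇑G) := (Lp.stronglyMeasurable G).measurable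
  have h1 : ∫⁻ u, ‖lam (V p u G)‖ₑ ^ p.toReal ∂nu ≤
      ∫⁻ u, C * ∫⁻ t, w t * ‖G (t + u)‖ₑ ^ p.toReal ∂nu ∂nu := by
    apply lintegral_mono_ae
    filter_upwards [tlam_pos_ae] with u hu
    refine (hlam _).trans (le_of_eq ?_)
    congr 1
    apply lintegral_congr_ae
    filter_upwards [V_ae hu.le G] with t ht
    rw [ht]
  have hm : Measurable (Function.uncurry fun u t : ℝ => w t * ‖G (t + u)‖ₑ ^ p.toReal) := by
    apply Measurable.mul
    · exact hw.comp measurable_snd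
    · apply Measurable.pow_const
      apply Measurable.enorm
      exact hG.comp (measurable_snd.add measurable_fst)
  have h2 : ∫⁻ u, C * ∫⁻ t, w t * ‖G (t + u)‖ₑ ^ p.toReal ∂nu ∂nu =
      C * ∫⁻ u, ∫⁻ t, w t * ‖G (t + u)‖ₑ ^ p.toReal ∂nu ∂nu := by
    have : SFinite nu := by rw [nu]; infer_instance
    rw [lintegral_const_mul]
    exact hm.lintegral_prod_right
  have : SFinite nu := by rw [nu]; infer_instance
  rw [h2, lintegral_lintegral_swap hm.aemeasurable] at h1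
  refine h1.trans ?_
  gcongr
  calc ∫⁻ t, ∫⁻ u, w t * ‖G (t + u)‖ₑ ^ p.toReal ∂nu ∂nu
      ≤ ∫⁻ t, w t * ∫⁻ u, ‖G u‖ₑ ^ p.toReal ∂nu ∂nu := by
        apply lintegral_mono_ae
        filter_upwards [tlam_pos_ae] with t ht
        rw [lintegral_const_mul]
        · have h3 := lintegral_shift_le ht.le (fun u => ‖G u‖ₑ ^ p.toReal)
          apply mul_le_mul_right
          refine le_trans (le_of_eq ?_) h3
          apply lintegral_congr
          intro u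
          rw [add_comm]
        · apply Measurable.pow_const
          apply Measurable.enorm
          exact hG.comp (measurable_const.add measurable_id)
    _ = _ := by
        rw [lintegral_mul_const _ hw]

/-- If the functional `lam` is continuous for the weighted norm `(∫ w |G|^p)^{1/p}` with
`∫ w < ∞`, then `G ↦ (u ↦ lam (V u G))` is a bounded operator on `L^p(0,∞)`. -/
theorem exists_Tlam (hp : p ≠ ∞) (w : ℝ → ℝ≥0∞) (hw : Measurable w) (hwi : ∫⁻ t, w t ∂nu ≠ ∞)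
    (lam : Y p →L[ℂ] ℂ) (C : ℝ≥0∞) (hC : C ≠ ∞)
    (hlam : ∀ G : Y p, ‖lam G‖ₑ ^ p.toReal ≤ C * ∫⁻ t, w t * ‖G t‖ₑ ^ p.toReal ∂nu) :
    ∃ T : Y p →L[ℂ] Y p, ∀ G : Y p, ⇑(T G) =ᵐ[nu] fun u => lam (V p u G) := by
  have hr := tlam_r_pos hp
  set K : ℝ≥0∞ := (C * ∫⁻ t, w t ∂nu) ^ (1 / p.toReal) with hK
  have hKtop : K ≠ ∞ := by
    apply ENNReal.rpow_ne_top_of_nonneg (by positivity)
    exact ENNReal.mul_ne_top hC hwi
  have hle : ∀ G : Y p, eLpNorm (fun u => lam (V p u G)) p nu ≤ K * eLpNorm G p nu := by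
    intro G
    rw [tlam_eLpNorm hp, tlam_eLpNorm hp, hK, ← ENNReal.mul_rpow_of_nonneg _ _ (by positivity)]
    apply ENNReal.rpow_le_rpow _ (by positivity)
    rw [mul_assoc]
    exact tlam_bound hp w hw lam C hlam G
  have hmem : ∀ G : Y p, MemLp (fun u => lam (V p u G)) p nu := by
    intro G
    refine ⟨tlam_aesm hp lam G, lt_of_le_of_lt (hle G) ?_⟩
    exact (ENNReal.mul_ne_top hKtop (Lp.eLpNorm_ne_top G)).lt_top
  let T0 : Y p →ₗ[ℂ] Y p :=
    { toFun := fun G => (hmem G).toLp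
      map_add' := fun G H => by
        rw [← MemLp.toLp_add (hmem G) (hmem H)]
        apply MemLp.toLp_congr
        apply Eventually.of_forall
        intro u
        simp
      map_smul' := fun c G => by
        rw [RingHom.id_apply, ← MemLp.toLp_const_smul c (hmem G)]
        apply MemLp.toLp_congr
        apply Eventually.of_forall
        intro u
        simp }
  refine ⟨T0.mkContinuous K.toReal fun G => ?_, fun G => ?_⟩
  · change ‖(hmem G).toLp‖ ≤ K.toReal * ‖G‖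
    rw [Lp.norm_toLp, Lp.norm_def, ← ENNReal.toReal_mul]
    exact ENNReal.toReal_mono (ENNReal.mul_ne_top hKtop (Lp.eLpNorm_ne_top G)) (hle G)
  · exact MemLp.coeFn_toLp (hmem G)

/-- the operators of `exists_Tlam` commute with the translations -/
theorem Tlam_comm (lam : Y p →L[ℂ] ℂ) (T : Y p →L[ℂ] Y p)
    (hT : ∀ G : Y p, ⇑(T G) =ᵐ[nu] fun u => lam (V p u G)) {v : ℝ} (hv : 0 ≤ v) (G : Y p) :
    T (V p v G) = V p v (T G) := by
  apply Lp.ext
  filter_upwards [hT (V p v G), V_ae hv (T G), (qmp_shift hv).ae (hT G), tlam_pos_ae]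
    with u h1 h2 h3 hu
  rw [h1, h2, h3, V_V hu.le hv]

lemma tlam_weight_enorm (hp : p ≠ ∞) {a : ℝ≥0∞} (ha : a ≤ 1) :
    ‖((a.toReal ^ (1 / p.toReal) : ℝ) : ℂ)‖ₑ ^ p.toReal = a := by
  have hr := tlam_r_pos hp
  have ha' : a ≠ ∞ := (lt_of_le_of_lt ha ENNReal.one_lt_top).ne
  have h1 : ‖((a.toReal ^ (1 / p.toReal) : ℝ) : ℂ)‖ₑ = ENNReal.ofReal (a.toReal ^ (1 / p.toReal)) := by
    rw [← ofReal_norm, Complex.norm_real, Real.norm_of_nonneg (by positivity)]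
  rw [h1, ENNReal.ofReal_rpow_of_nonneg (by positivity) hr.le, ← Real.rpow_mul (by positivity),
    one_div, inv_mul_cancel₀ hr.ne', Real.rpow_one, ENNReal.ofReal_toReal ha']

lemma tlam_exists_mul (hp : p ≠ ∞) (w : ℝ → ℝ≥0∞) (hw : Measurable w) (hw1 : ∀ t, w t ≤ 1) :
    ∃ A : Y p →L[ℂ] Y p, ∀ G : Y p,
      ⇑(A G) =ᵐ[nu] fun t => (((w t).toReal ^ (1 / p.toReal) : ℝ) : ℂ) * G t := by
  have hr := tlam_r_pos hp
  set m : ℝ → ℂ := fun t => (((w t).toReal ^ (1 / p.toReal) : ℝ) : ℂ) with hm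
  have hmm : Measurable m := by
    apply Complex.measurable_ofReal.comp
    exact (hw.ennreal_toReal).pow_const _
  have hm1 : ∀ t, ‖m t‖ ≤ 1 := by
    intro t
    have h2 : (w t).toReal ≤ 1 := by
      have := ENNReal.toReal_mono ENNReal.one_ne_top (hw1 t)
      simpa using this
    rw [hm]
    simp only [Complex.norm_real]
    rw [Real.norm_of_nonneg (by positivity)]
    exact Real.rpow_le_one ENNReal.toReal_nonneg h2 (by positivity)
  have hbd : ∀ (G : Y p) (t : ℝ), ‖m t * G t‖ ≤ ‖G t‖ := by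
    intro G t
    rw [norm_mul]
    have := mul_le_mul_of_nonneg_right (hm1 t) (norm_nonneg (G t))
    rwa [one_mul] at this
  have hmem : ∀ G : Y p, MemLp (fun t => m t * G t) p nu := by
    intro G
    refine (Lp.memLp G).of_le ?_ (Eventually.of_forall (hbd G))
    exact hmm.aestronglyMeasurable.mul (Lp.aestronglyMeasurable G)
  let T0 : Y p →ₗ[ℂ] Y p :=
    { toFun := fun G => (hmem G).toLp
      map_add' := fun G H => by
        rw [← MemLp.toLp_add (hmem G) (hmem H)]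
        apply MemLp.toLp_congr
        filter_upwards [Lp.coeFn_add G H] with t ht
        simp only [Pi.add_apply] at ht ⊢
        rw [ht]; ring
      map_smul' := fun c G => by
        rw [RingHom.id_apply, ← MemLp.toLp_const_smul c (hmem G)]
        apply MemLp.toLp_congr
        filter_upwards [Lp.coeFn_smul c G] with t ht
        simp only [Pi.smul_apply, smul_eq_mul] at ht ⊢
        rw [ht]; ring }
  refine ⟨T0.mkContinuous 1 fun G => ?_, fun G => ?_⟩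
  · change ‖(hmem G).toLp‖ ≤ 1 * ‖G‖
    rw [Lp.norm_toLp, Lp.norm_def, one_mul]
    exact ENNReal.toReal_mono (Lp.eLpNorm_ne_top G) (eLpNorm_mono (hbd G))
  · exact MemLp.coeFn_toLp (hmem G)

/-- separation in the weighted norm -/
theorem exists_lam (hp : p ≠ ∞) (w : ℝ → ℝ≥0∞) (hw : Measurable w) (hw1 : ∀ t, w t ≤ 1)
    (M : Submodule ℂ (Y p)) (f : Y p)
    (hf : ¬ ∀ ε : ℝ≥0∞, 0 < ε → ∃ g ∈ M, ∫⁻ t, w t * ‖f t - g t‖ₑ ^ p.toReal ∂nu < ε) :
    ∃ lam : Y p →L[ℂ] ℂ, (∀ g ∈ M, lam g = 0) ∧ lam f ≠ 0 ∧ ∃ C : ℝ≥0∞, C ≠ ∞ ∧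
      ∀ G : Y p, ‖lam G‖ₑ ^ p.toReal ≤ C * ∫⁻ t, w t * ‖G t‖ₑ ^ p.toReal ∂nu := by
  have hr := tlam_r_pos hp
  obtain ⟨A, hA⟩ := tlam_exists_mul hp w hw hw1
  have hAn : ∀ G : Y p, ‖A G‖ₑ ^ p.toReal = ∫⁻ t, w t * ‖G t‖ₑ ^ p.toReal ∂nu := by
    intro G
    rw [Lp.enorm_def, tlam_eLpNorm_rpow hp]
    apply lintegral_congr_ae
    filter_upwards [hA G] with t ht
    rw [ht, enorm_mul, ENNReal.mul_rpow_of_nonneg _ _ hr.le, tlam_weight_enorm hp (hw1 t)]
  set N : Submodule ℂ (Y p) := (M.map (A : Y p →ₗ[ℂ] Y p)).topologicalClosure with hN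
  have hfN : A f ∉ N := by
    intro hmem
    apply hf
    intro ε hε
    have h1 : A f ∈ closure ((M.map (A : Y p →ₗ[ℂ] Y p) : Submodule ℂ (Y p)) : Set (Y p)) := hmem
    rw [EMetric.mem_closure_iff] at h1
    obtain ⟨y, hy, hyd⟩ := h1 (min ε 1 ^ (1 / p.toReal)) (by
      apply ENNReal.rpow_pos
      · exact lt_min hε one_pos
      · exact (lt_of_le_of_lt (min_le_right _ _) ENNReal.one_lt_top).ne)
    obtain ⟨g, hg, rfl⟩ := hy
    refine ⟨g, hg, ?_⟩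
    have h2 : ∫⁻ t, w t * ‖f t - g t‖ₑ ^ p.toReal ∂nu = ‖A (f - g)‖ₑ ^ p.toReal := by
      rw [hAn]
      apply lintegral_congr_ae
      filter_upwards [Lp.coeFn_sub f g] with t ht
      rw [ht, Pi.sub_apply]
    rw [h2, map_sub]
    have h3 : ‖A f - A g‖ₑ < min ε 1 ^ (1 / p.toReal) := by
      have h4 : edist (A f) (A g) = ‖A f - A g‖ₑ := edist_eq_enorm_sub _ _
      rw [← h4]
      exact hyd
    have h5 := ENNReal.rpow_lt_rpow h3 hr
    rw [← ENNReal.rpow_mul, one_div, inv_mul_cancel₀ hr.ne', ENNReal.rpow_one] at h5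
    exact lt_of_lt_of_le h5 (min_le_left _ _)
  have hNc : IsClosed (N : Set (Y p)) := Submodule.isClosed_topologicalClosure _
  obtain ⟨φ, hφ⟩ : ∃ φ : (Y p ⧸ N) →L[ℂ] ℂ, φ (N.mkQ (A f)) ≠ 0 := by
    apply SeparatingDual.exists_ne_zero
    rw [Submodule.mkQ_apply, Ne, Submodule.Quotient.mk_eq_zero]
    exact hfN
  let ψ : Y p →L[ℂ] ℂ := φ.comp N.mkQL
  have hψ0 : ∀ y ∈ N, ψ y = 0 := by
    intro y hy
    change φ (N.mkQL y) = 0
    have : N.mkQL y = 0 := by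
      change N.mkQ y = 0
      rw [Submodule.mkQ_apply, Submodule.Quotient.mk_eq_zero]
      exact hy
    rw [this, map_zero]
  refine ⟨ψ.comp A, fun g hg => ?_, hφ, ‖ψ‖ₑ ^ p.toReal, ?_, fun G => ?_⟩
  · apply hψ0
    apply Submodule.le_topologicalClosure
    exact ⟨g, hg, rfl⟩
  · apply ENNReal.rpow_ne_top_of_nonneg hr.le
    exact enorm_ne_top
  · rw [← hAn, ← ENNReal.mul_rpow_of_nonneg _ _ hr.le]
    apply ENNReal.rpow_le_rpow _ hr.le
    exact ContinuousLinearMap.le_opENorm ψ (A G)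

end DC8965
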