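import Pool.Agent.Lib.MP_dc8965_an.Abs3
import Pool.Agent.Lib.MP_dc8965_an.PolyApprox
import Pool.Agent.Lib.MP_dc8965_an.Cont
import Pool.Agent.Lib.MP_dc8965_an.Ker
import Pool.Agent.Lib.MP_dc8965_an.Tlam

/-!
The main theorems in the half line model.
-/

open MeasureTheory Filter Topology Set
open scoped ENNReal NNReal Polynomial

namespace DC8965

variable {p : ℝ≥0∞} [Fact (1 ≤ p)]

instance : SFinite nu := by unfold nu; infer_instance

lemma separable_Y (hp : p ≠ ∞) : TopologicalSpace.SeparableSpace (Y p) := by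
  have : Fact (p ≠ ∞) := ⟨hp⟩
  infer_instance

/-- Preimages under operators commuting with the translations. -/
theorem half_comap (hp : p ≠ ∞) (T : Y p →L[ℂ] Y p)
    (hT : ∀ u : ℝ, 0 ≤ u → ∀ g : Y p, T (V p u g) = V p u (T g)) (M' : Submodule ℂ (Y p))
    (h : IsLim (ex p) M') : IsLim (ex p) (M'.comap (T : Y p →ₗ[ℂ] Y p)) := by
  have := separable_Y hp
  obtain ⟨S, hS⟩ := h
  let c : ℝ := 1 / (4 * (‖T‖ + 1))
  have hT0 : 0 ≤ ‖T‖ := norm_nonneg _
  have hc0 : 0 < c := by positivity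
  have hc1 : c ≤ 1 := by
    simp only [c]
    rw [div_le_one (by positivity)]
    linarith
  have hcT : c * ‖T‖ ≤ 1 / 4 := by
    simp only [c]
    rw [div_mul_eq_mul_div, one_mul, div_le_div_iff₀ (by positivity) (by positivity)]
    linarith
  have hc : (c : ℂ) ≠ 0 := by exact_mod_cast hc0.ne'
  refine isLim_comap T hc M' S hS (C := 2) ?_
  refine key T M' S hS (fun l => V p l) (fun l => R p l) (fun l b => Complex.exp (-b.1 * l))
    (fun l => norm_V_le_one l) (fun l => norm_R_le_one l) (fun l hl g => V_R hl.le g) ?_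
    (fun l hl b => V_ex hl.le b) ?_ ?_ c hc0 hc1 hcT
  · intro l hl g
    have h1 : Tendsto (fun m : ℕ => (m : ℝ) * l) atTop atTop :=
      tendsto_natCast_atTop_atTop.atTop_mul_const hl
    have h2 := (tendsto_V_atTop hp g).comp h1
    refine h2.congr fun m => ?_
    rw [Function.comp_apply, V_pow hl.le]
  · intro l hl w hw g hg ε hε
    exact kerApprox hp hl hw hg hε
  · intro ε hε G
    exact polyApprox hp T hT hε G

/-- the whole space -/
theorem half_top (hp : p ≠ ∞) : IsLim (ex p) (⊤ : Submodule ℂ (Y p)) := by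
  have h0 : IsLim (ex p) (⊥ : Submodule ℂ (Y p)) := by
    refine ⟨fun _ => ∅, fun f => ?_⟩
    have h1 : (fsp (ex p) (∅ : Finset Ix) : Set (Y p)) = {0} := by
      simp [fsp]
    simp only [h1, Metric.infDist_singleton, dist_zero_right, Submodule.mem_bot]
    constructor
    · rintro rfl; simp
    · intro h
      have := tendsto_nhds_unique h tendsto_const_nhds
      exact norm_eq_zero.mp this.symm
  have h1 := half_comap hp (0 : Y p →L[ℂ] Y p) (fun u _ g => by simp) ⊥ h0
  convert h1 using 1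
  ext f
  simp

/-- arbitrary intersections -/
theorem half_sInf (hp : p ≠ ∞) (F : Set (Submodule ℂ (Y p))) (h : ∀ M ∈ F, IsLim (ex p) M) :
    IsLim (ex p) (sInf F) := by
  have := separable_Y hp
  rcases F.eq_empty_or_nonempty with rfl | hne
  · rw [sInf_empty]; exact half_top hp
  · exact isLim_sInf F hne h

/-- kernels -/
theorem half_ker (hp : p ≠ ∞) (T : Y p →L[ℂ] Y p)
    (hT : ∀ u : ℝ, 0 ≤ u → ∀ g : Y p, T (V p u g) = V p u (T g)) :
    IsLim (ex p) (LinearMap.ker (T : Y p →ₗ[ℂ] Y p)) := by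
  have h0 : IsLim (ex p) (⊥ : Submodule ℂ (Y p)) := by
    have h1 := half_comap hp (ContinuousLinearMap.id ℂ (Y p)) (fun u _ g => rfl)
    refine ⟨fun _ => ∅, fun f => ?_⟩
    have h1 : (fsp (ex p) (∅ : Finset Ix) : Set (Y p)) = {0} := by
      simp [fsp]
    simp only [h1, Metric.infDist_singleton, dist_zero_right, Submodule.mem_bot]
    constructor
    · rintro rfl; simp
    · intro h
      have := tendsto_nhds_unique h tendsto_const_nhds
      exact norm_eq_zero.mp this.symm
  exact half_comap hp T hT ⊥ h0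

/-- translation invariant subspaces that are closed for weighted norms -/
theorem half_closed (hp : p ≠ ∞) (M : Submodule ℂ (Y p))
    (hV : ∀ u : ℝ, 0 ≤ u → ∀ g ∈ M, V p u g ∈ M)
    (hsep : ∀ f : Y p, f ∉ M → ∃ w : ℝ → ℝ≥0∞, Measurable w ∧ (∀ t, w t ≤ 1) ∧
      ∫⁻ t, w t ∂nu ≠ ∞ ∧
      ∃ ε : ℝ≥0∞, 0 < ε ∧ ∀ g ∈ M, ε ≤ ∫⁻ t, w t * ‖f t - g t‖ₑ ^ p.toReal ∂nu) :
    IsLim (ex p) M := by
  let F : Set (Submodule ℂ (Y p)) := {K | ∃ T : Y p →L[ℂ] Y p,
    (∀ u : ℝ, 0 ≤ u → ∀ g : Y p, T (V p u g) = V p u (T g)) ∧ M ≤ LinearMap.ker (T : Y p →ₗ[ℂ] Y p) ∧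
    K = LinearMap.ker (T : Y p →ₗ[ℂ] Y p)}
  have hM : M = sInf F := by
    apply le_antisymm
    · refine le_sInf ?_
      rintro K ⟨T, -, hMT, rfl⟩
      exact hMT
    · intro f hf
      by_contra hfM
      obtain ⟨w, hw, hw1, hwi, ε, hε, hsp⟩ := hsep f hfM
      obtain ⟨lam, hlam0, hlamf, C, hC, hlamC⟩ := exists_lam hp w hw hw1 M f (fun h => by
        obtain ⟨g, hg, hgε⟩ := h ε hε
        exact absurd hgε (not_lt.mpr (hsp g hg)))
      obtain ⟨T, hT⟩ := exists_Tlam hp w hw hwi lam C hC hlamC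
      have hTc : ∀ u : ℝ, 0 ≤ u → ∀ g : Y p, T (V p u g) = V p u (T g) :=
        fun u hu g => Tlam_comm lam T hT hu g
      have hMT : M ≤ LinearMap.ker (T : Y p →ₗ[ℂ] Y p) := by
        intro g hg
        rw [LinearMap.mem_ker]
        change T g = 0
        apply Lp.ext
        refine (hT g).trans ?_
        refine EventuallyEq.trans ?_ (Lp.coeFn_zero _ _ _).symm
        have h3 : ∀ᵐ t ∂nu, 0 < t := by
          rw [nu]; exact ae_restrict_mem measurableSet_Ioi
        filter_upwards [h3] with u hu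
        exact hlam0 _ (hV u hu.le g hg)
      have hfT : f ∈ LinearMap.ker (T : Y p →ₗ[ℂ] Y p) :=
        (Submodule.mem_sInf.mp hf) _ ⟨T, hTc, hMT, rfl⟩
      have hTf : T f = 0 := hfT
      -- the continuous function `u ↦ lam (V u f)` vanishes a.e. on `(0,∞)`
      have h1 : ∀ᵐ u ∂nu, lam (V p u f) = 0 := by
        have h2 := hT f
        rw [hTf] at h2
        filter_upwards [h2, Lp.coeFn_zero ℂ p nu] with u h2 h3
        rw [← h2, h3, Pi.zero_apply]
      have hcont : ContinuousOn (fun u : ℝ => lam (V p u f)) (Set.Ici 0) :=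
        lam.continuous.comp_continuousOn (continuousOn_V hp f)
      have h4 : lam f = 0 := by
        have h5 : Tendsto (fun u : ℝ => lam (V p u f)) (𝓝[Set.Ioi 0] 0) (𝓝 (lam (V p 0 f))) :=
          (hcont 0 (Set.mem_Ici.mpr le_rfl)).mono_left (nhdsWithin_mono _ Set.Ioi_subset_Ici_self)
        have h6 : ∃ᶠ u in 𝓝[Set.Ioi 0] (0 : ℝ), lam (V p u f) = 0 := by
          rw [frequently_iff]
          intro U hU
          obtain ⟨ε, hε, hεU⟩ := (mem_nhdsGT_iff_exists_Ioo_subset (a := (0 : ℝ))).mp hU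
          have h7 : ∃ᵐ u ∂nu, u ∈ Set.Ioo (0 : ℝ) ε := by
            rw [frequently_ae_iff]
            have h8 : {u | u ∈ Set.Ioo (0 : ℝ) ε} = Set.Ioo 0 ε := rfl
            rw [h8, nu, Measure.restrict_apply measurableSet_Ioo,
              Set.inter_eq_left.mpr Set.Ioo_subset_Ioi_self, Real.volume_Ioo]
            simpa using hε
          obtain ⟨u, hu, hu0⟩ := (h7.and_eventually h1).exists
          exact ⟨u, hεU hu, hu0⟩
        rw [V_zero] at h5
        have h9 : lam (ContinuousLinearMap.id ℂ (Y p) f) = 0 := by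
          by_contra hne
          have := h5.eventually (isOpen_ne.mem_nhds hne)
          obtain ⟨u, hu1, hu2⟩ := (h6.and_eventually this).exists
          exact hu2 hu1
        exact h9
      exact hlamf h4
  rw [hM]
  refine half_sInf hp F ?_
  rintro K ⟨T, hTc, -, rfl⟩
  exact half_ker hp T hTc

end DC8965
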