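import Mathlib

open MeasureTheory Filter Topology Set
open scoped ENNReal NNReal

namespace DC8965

lemma moment_int0 {l : ℝ} (hl : 0 < l) (k : ℕ) :
    IntegrableOn (fun u : ℝ => u ^ k * Real.exp (-l * u)) (Set.Ioi 0) := by
  have h := integrableOn_rpow_mul_exp_neg_mul_rpow (p := 1) (s := (k : ℝ)) (b := l)
    (by have : (0 : ℝ) ≤ k := Nat.cast_nonneg k
        linarith) one_pos hl
  refine h.congr_fun ?_ measurableSet_Ioi
  intro u hu
  simp [Real.rpow_natCast, Real.rpow_one]

lemma moment_meas (w : ℝ → ℝ) (hw : ContinuousOn w (Set.Ici 0)) :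
    AEStronglyMeasurable w (volume.restrict (Set.Ioi 0)) :=
  (hw.mono Ioi_subset_Ici_self).aestronglyMeasurable measurableSet_Ioi

lemma moment_int1 {w : ℝ → ℝ} (hw : ContinuousOn w (Set.Ici 0)) {C : ℝ}
    (hb : ∀ u, 0 ≤ u → ‖w u‖ ≤ C) {g : ℝ → ℝ} (hg : IntegrableOn g (Set.Ioi 0)) :
    IntegrableOn (fun u : ℝ => g u * w u) (Set.Ioi 0) := by
  refine Integrable.mul_bdd (c := C) hg (moment_meas w hw) ?_
  refine (ae_restrict_iff' measurableSet_Ioi).2 (Eventually.of_forall ?_)
  intro u hu
  exact hb u (le_of_lt hu)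

lemma moment_step {w : ℝ → ℝ} (hw : ContinuousOn w (Set.Ici 0)) {C : ℝ}
    (hb : ∀ u, 0 ≤ u → ‖w u‖ ≤ C) {b l : ℝ} (hb0 : 0 < b) (hl : b < l)
    (hm : ∀ k : ℕ, ∫ u in Set.Ioi (0 : ℝ), (u ^ k * Real.exp (-l * u)) * w u = 0) (k : ℕ) :
    ∫ u in Set.Ioi (0 : ℝ), (u ^ k * Real.exp (-(l + b) * u)) * w u = 0 := by
  have hl0 : 0 < l := hb0.trans hl
  have hC : 0 ≤ C := (norm_nonneg _).trans (hb 0 le_rfl)
  set F : ℕ → ℝ → ℝ := fun n u =>
    (∑ j ∈ Finset.range n, (-b * u) ^ j / (Nat.factorial j : ℝ)) * ((u ^ k * Real.exp (-l * u)) * w u)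
    with hF
  have hlim : Tendsto (fun n => ∫ u in Set.Ioi (0 : ℝ), F n u) atTop
      (𝓝 (∫ u in Set.Ioi (0 : ℝ), (u ^ k * Real.exp (-(l + b) * u)) * w u)) := by
    apply tendsto_integral_of_dominated_convergence
      (fun u => (u ^ k * Real.exp (-(l - b) * u)) * C)
    · intro n
      have h1 : Continuous (fun u : ℝ => (∑ j ∈ Finset.range n, (-b * u) ^ j / (Nat.factorial j : ℝ))
          * (u ^ k * Real.exp (-l * u))) := by fun_prop
      have h2 := h1.aestronglyMeasurable (μ := volume.restrict (Set.Ioi (0 : ℝ)))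
      have h3 := h2.mul (moment_meas w hw)
      refine h3.congr (Eventually.of_forall ?_)
      intro u
      simp only [Pi.mul_apply, hF]
      ring
    · exact (moment_int0 (sub_pos.2 hl) k).mul_const C
    · intro n
      refine (ae_restrict_iff' measurableSet_Ioi).2 (Eventually.of_forall ?_)
      intro u hu
      have hu0 : (0 : ℝ) < u := hu
      have h1 : ‖∑ j ∈ Finset.range n, (-b * u) ^ j / (Nat.factorial j : ℝ)‖ ≤ Real.exp (b * u) := by
        refine (norm_sum_le _ _).trans ?_
        refine le_trans (le_of_eq ?_) (Real.sum_le_exp_of_nonneg (by positivity) n)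
        refine Finset.sum_congr rfl ?_
        intro j _
        rw [norm_div, norm_pow]
        have : ‖-b * u‖ = b * u := by
          rw [norm_mul, norm_neg, Real.norm_of_nonneg hb0.le, Real.norm_of_nonneg hu0.le]
        rw [this]
        congr 1
        exact Real.norm_of_nonneg (by positivity)
      have h2 : ‖u ^ k * Real.exp (-l * u)‖ = u ^ k * Real.exp (-l * u) :=
        Real.norm_of_nonneg (by positivity)
      calc ‖F n u‖ = ‖∑ j ∈ Finset.range n, (-b * u) ^ j / (Nat.factorial j : ℝ)‖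
            * (‖u ^ k * Real.exp (-l * u)‖ * ‖w u‖) := by
              simp only [hF]
              rw [norm_mul, norm_mul]
        _ ≤ Real.exp (b * u) * ((u ^ k * Real.exp (-l * u)) * C) := by
              rw [h2]
              have := hb u hu0.le
              gcongr
        _ = (u ^ k * Real.exp (-(l - b) * u)) * C := by
              have : Real.exp (-(l - b) * u) = Real.exp (b * u) * Real.exp (-l * u) := by
                rw [← Real.exp_add]; congr 1; ring
              rw [this]; ring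
    · refine Eventually.of_forall ?_
      intro u
      have h1 : Tendsto (fun n => ∑ j ∈ Finset.range n, (-b * u) ^ j / (Nat.factorial j : ℝ)) atTop
          (𝓝 (Real.exp (-b * u))) := by
        have := (NormedSpace.expSeries_div_hasSum_exp (-b * u : ℝ))
        have h2 := this.tendsto_sum_nat
        rw [← Real.exp_eq_exp_ℝ] at h2
        exact h2
      have h2 := h1.mul_const ((u ^ k * Real.exp (-l * u)) * w u)
      have h3 : Real.exp (-b * u) * ((u ^ k * Real.exp (-l * u)) * w u)
          = (u ^ k * Real.exp (-(l + b) * u)) * w u := by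
        have : Real.exp (-(l + b) * u) = Real.exp (-b * u) * Real.exp (-l * u) := by
          rw [← Real.exp_add]; congr 1; ring
        rw [this]; ring
      rw [← h3]
      exact h2
  have hzero : ∀ n, ∫ u in Set.Ioi (0 : ℝ), F n u = 0 := by
    intro n
    have h1 : ∀ u, F n u = ∑ j ∈ Finset.range n, ((-b) ^ j / (Nat.factorial j : ℝ)) *
        ((u ^ (k + j) * Real.exp (-l * u)) * w u) := by
      intro u
      simp only [hF]
      rw [Finset.sum_mul]
      refine Finset.sum_congr rfl ?_
      intro j _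
      rw [mul_pow, pow_add]
      ring
    simp_rw [h1]
    rw [integral_finsetSum]
    · refine Finset.sum_eq_zero ?_
      intro j _
      rw [integral_const_mul, hm, mul_zero]
    · intro j _
      exact (moment_int1 hw hb (moment_int0 hl0 (k + j))).const_mul _
  simp_rw [hzero] at hlim
  exact (tendsto_nhds_unique hlim tendsto_const_nhds)

lemma moment_iter {w : ℝ → ℝ} (hw : ContinuousOn w (Set.Ici 0)) {C : ℝ}
    (hb : ∀ u, 0 ≤ u → ‖w u‖ ≤ C) {a : ℝ} (ha : 0 < a)
    (hm : ∀ k : ℕ, ∫ u in Set.Ioi (0 : ℝ), (u ^ k * Real.exp (-a * u)) * w u = 0) (n : ℕ) :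
    ∀ k : ℕ, ∫ u in Set.Ioi (0 : ℝ), (u ^ k * Real.exp (-(a + n * (a / 2)) * u)) * w u = 0 := by
  induction n with
  | zero => simpa using hm
  | succ n ih =>
    intro k
    have h := moment_step hw hb (b := a / 2) (l := a + n * (a / 2)) (by positivity)
      (by have : (0 : ℝ) ≤ n * (a / 2) := by positivity
          linarith) ih k
    have e : a + ((n + 1 : ℕ) : ℝ) * (a / 2) = a + n * (a / 2) + a / 2 := by
      push_cast; ring
    rw [e]
    exact h

lemma moment_poly {w : ℝ → ℝ} (hw : ContinuousOn w (Set.Ici 0)) {C : ℝ}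
    (hb : ∀ u, 0 ≤ u → ‖w u‖ ≤ C) {a : ℝ} (ha : 0 < a)
    (hm : ∀ k : ℕ, ∫ u in Set.Ioi (0 : ℝ), (u ^ k * Real.exp (-a * u)) * w u = 0)
    (P : Polynomial ℝ) :
    ∫ u in Set.Ioi (0 : ℝ), (P.eval (Real.exp (-(a / 2) * u)) * Real.exp (-a * u)) * w u = 0 := by
  have h1 : ∀ u : ℝ, (P.eval (Real.exp (-(a / 2) * u)) * Real.exp (-a * u)) * w u
      = ∑ n ∈ Finset.range (P.natDegree + 1), P.coeff n *
        ((u ^ 0 * Real.exp (-(a + n * (a / 2)) * u)) * w u) := by
    intro u
    rw [Polynomial.eval_eq_sum_range, Finset.sum_mul, Finset.sum_mul]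
    refine Finset.sum_congr rfl ?_
    intro n _
    have : Real.exp (-(a + n * (a / 2)) * u) = Real.exp (-(a / 2) * u) ^ n * Real.exp (-a * u) := by
      rw [← Real.exp_nat_mul, ← Real.exp_add]; congr 1; ring
    rw [this]; ring
  simp_rw [h1]
  rw [integral_finsetSum]
  · refine Finset.sum_eq_zero ?_
    intro j _
    rw [integral_const_mul, moment_iter hw hb ha hm, mul_zero]
  · intro j _
    exact (moment_int1 hw hb (moment_int0 (by positivity) 0)).const_mul _

lemma moment_cont {w : ℝ → ℝ} (hw : ContinuousOn w (Set.Ici 0)) {C : ℝ}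
    (hb : ∀ u, 0 ≤ u → ‖w u‖ ≤ C) {a : ℝ} (ha : 0 < a)
    (hm : ∀ k : ℕ, ∫ u in Set.Ioi (0 : ℝ), (u ^ k * Real.exp (-a * u)) * w u = 0)
    (φ : ℝ → ℝ) (hφ : ContinuousOn φ (Set.Icc 0 1)) :
    ∫ u in Set.Ioi (0 : ℝ), (φ (Real.exp (-(a / 2) * u)) * Real.exp (-a * u)) * w u = 0 := by
  have hC : 0 ≤ C := (norm_nonneg _).trans (hb 0 le_rfl)
  have hexpI : IntegrableOn (fun u : ℝ => Real.exp (-a * u)) (Set.Ioi 0) := by
    have := moment_int0 ha 0
    simpa using this
  have hmem : ∀ u : ℝ, u ∈ Set.Ioi (0 : ℝ) → Real.exp (-(a / 2) * u) ∈ Set.Icc (0 : ℝ) 1 := by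
    intro u hu
    have hu0 : (0 : ℝ) < u := hu
    refine ⟨(Real.exp_pos _).le, ?_⟩
    rw [Real.exp_le_one_iff]
    have : 0 < a / 2 * u := by positivity
    linarith
  -- bounded φ
  obtain ⟨D, hD⟩ := isCompact_Icc.exists_bound_of_continuousOn hφ
  have hmeasφ : AEStronglyMeasurable (fun u : ℝ => φ (Real.exp (-(a / 2) * u)))
      (volume.restrict (Set.Ioi 0)) := by
    have h1 : ContinuousOn (fun u : ℝ => φ (Real.exp (-(a / 2) * u))) (Set.Ioi 0) :=
      hφ.comp (by fun_prop) hmem
    exact h1.aestronglyMeasurable measurableSet_Ioi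
  have hIφ : IntegrableOn (fun u : ℝ => φ (Real.exp (-(a / 2) * u)) * Real.exp (-a * u))
      (Set.Ioi 0) := by
    refine Integrable.bdd_mul (c := D) hexpI hmeasφ ?_
    refine (ae_restrict_iff' measurableSet_Ioi).2 (Eventually.of_forall ?_)
    intro u hu
    exact hD _ (hmem u hu)
  by_contra hne
  set I := ∫ u in Set.Ioi (0 : ℝ), (φ (Real.exp (-(a / 2) * u)) * Real.exp (-a * u)) * w u with hI
  set J := ∫ u in Set.Ioi (0 : ℝ), Real.exp (-a * u) * C with hJ
  have hJ0 : 0 ≤ J := by
    refine integral_nonneg ?_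
    intro u
    positivity
  have key : ∀ ε : ℝ, 0 < ε → |I| ≤ ε * J := by
    intro ε hε
    obtain ⟨P, hP⟩ := exists_polynomial_near_of_continuousOn 0 1 φ hφ ε hε
    have h0 := moment_poly hw hb ha hm P
    have hIP : IntegrableOn (fun u : ℝ => P.eval (Real.exp (-(a / 2) * u)) * Real.exp (-a * u))
        (Set.Ioi 0) := by
      have hcP : ContinuousOn (fun v : ℝ => P.eval v) (Set.Icc 0 1) := P.continuous.continuousOn
      obtain ⟨D', hD'⟩ := isCompact_Icc.exists_bound_of_continuousOn hcP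
      refine Integrable.bdd_mul (c := D') hexpI ?_ ?_
      · have : Continuous (fun u : ℝ => P.eval (Real.exp (-(a / 2) * u))) :=
          P.continuous.comp (by fun_prop)
        exact this.aestronglyMeasurable
      · refine (ae_restrict_iff' measurableSet_Ioi).2 (Eventually.of_forall ?_)
        intro u hu
        exact hD' _ (hmem u hu)
    have h1 : I = ∫ u in Set.Ioi (0 : ℝ),
        ((φ (Real.exp (-(a / 2) * u)) - P.eval (Real.exp (-(a / 2) * u))) * Real.exp (-a * u))
          * w u := by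
      have h2 := integral_sub (moment_int1 hw hb hIφ) (moment_int1 hw hb hIP)
      rw [h0, sub_zero] at h2
      rw [hI, ← h2]
      refine integral_congr_ae (Eventually.of_forall ?_)
      intro u
      simp only
      ring
    rw [h1]
    have h3 : ‖∫ u in Set.Ioi (0 : ℝ),
        ((φ (Real.exp (-(a / 2) * u)) - P.eval (Real.exp (-(a / 2) * u))) * Real.exp (-a * u))
          * w u‖ ≤ ∫ u in Set.Ioi (0 : ℝ), ε * (Real.exp (-a * u) * C) := by
      refine norm_integral_le_of_norm_le ((hexpI.mul_const C).const_mul ε) ?_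
      refine (ae_restrict_iff' measurableSet_Ioi).2 (Eventually.of_forall ?_)
      intro u hu
      have hu0 : (0 : ℝ) < u := hu
      have h4 := hP _ (hmem u hu)
      have h5 := hb u hu0.le
      rw [norm_mul, norm_mul, Real.norm_of_nonneg (Real.exp_pos _).le]
      have h6 : ‖φ (Real.exp (-(a / 2) * u)) - P.eval (Real.exp (-(a / 2) * u))‖ ≤ ε := by
        rw [Real.norm_eq_abs, abs_sub_comm]
        exact h4.le
      calc ‖φ (Real.exp (-(a / 2) * u)) - P.eval (Real.exp (-(a / 2) * u))‖ * Real.exp (-a * u)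
            * ‖w u‖ ≤ ε * Real.exp (-a * u) * C := by gcongr
        _ = ε * (Real.exp (-a * u) * C) := by ring
    rw [Real.norm_eq_abs] at h3
    rw [integral_const_mul] at h3
    exact h3
  have hIpos : 0 < |I| := abs_pos.2 hne
  have h7 := key (|I| / (2 * (J + 1))) (by positivity)
  have h8 : |I| / (2 * (J + 1)) * J < |I| := by
    rw [div_mul_eq_mul_div, div_lt_iff₀ (by positivity)]
    nlinarith
  linarith

theorem moment_real {a : ℝ} (ha : 0 < a) (w : ℝ → ℝ) (hw : ContinuousOn w (Set.Ici 0)) (C : ℝ)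
    (hb : ∀ u, 0 ≤ u → ‖w u‖ ≤ C)
    (hm : ∀ k : ℕ, ∫ u in Set.Ioi (0 : ℝ), (u ^ k * Real.exp (-a * u)) * w u = 0) :
    ∀ u, 0 ≤ u → w u = 0 := by
  have hC : 0 ≤ C := (norm_nonneg _).trans (hb 0 le_rfl)
  set φ : ℝ → ℝ := fun v => v * w (-Real.log v / (a / 2)) with hφd
  have hlog : ∀ v ∈ Set.Icc (0 : ℝ) 1, 0 ≤ -Real.log v / (a / 2) := by
    intro v hv
    have : Real.log v ≤ 0 := Real.log_nonpos hv.1 hv.2
    have h2 : 0 ≤ -Real.log v := by linarith
    positivity
  have hφ : ContinuousOn φ (Set.Icc 0 1) := by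
    intro v hv
    rcases eq_or_lt_of_le hv.1 with h0 | h0
    · rw [← h0]
      have e0 : φ 0 = 0 := by simp [hφd]
      unfold ContinuousWithinAt
      rw [e0]
      have h1 : Tendsto (fun x : ℝ => C * x) (𝓝[Set.Icc 0 1] (0 : ℝ)) (𝓝 0) := by
        have : Tendsto (fun x : ℝ => C * x) (𝓝 (0 : ℝ)) (𝓝 (C * 0)) :=
          (continuous_const.mul continuous_id).tendsto 0
        rw [mul_zero] at this
        exact this.mono_left nhdsWithin_le_nhds
      refine squeeze_zero_norm' ?_ h1
      filter_upwards [self_mem_nhdsWithin] with x hx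
      simp only [hφd]
      rw [norm_mul, Real.norm_of_nonneg hx.1, mul_comm]
      exact mul_le_mul_of_nonneg_right (hb _ (hlog x hx)) hx.1
    · have h1 : ContinuousWithinAt (fun v : ℝ => -Real.log v / (a / 2)) (Set.Icc 0 1) v := by
        have : ContinuousAt Real.log v := Real.continuousAt_log h0.ne'
        exact ((this.neg).div_const _).continuousWithinAt
      have h2 : ContinuousWithinAt w (Set.Ici 0) (-Real.log v / (a / 2)) :=
        hw _ (hlog v hv)
      have h3 : ContinuousWithinAt (w ∘ (fun v : ℝ => -Real.log v / (a / 2))) (Set.Icc 0 1) v :=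
        ContinuousWithinAt.comp (f := fun v : ℝ => -Real.log v / (a / 2)) (t := Set.Ici 0) h2 h1
          (fun x hx => hlog x hx)
      exact continuousWithinAt_id.mul h3
  have h1 := moment_cont hw hb ha hm φ hφ
  have h2 : ∀ u : ℝ, (φ (Real.exp (-(a / 2) * u)) * Real.exp (-a * u)) * w u
      = (Real.exp (-(a / 2) * u) * Real.exp (-a * u)) * (w u) ^ 2 := by
    intro u
    simp only [hφd]
    rw [Real.log_exp]
    have : -(-(a / 2) * u) / (a / 2) = u := by
      field_simp
    rw [this]; ring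
  simp_rw [h2] at h1
  have hint : IntegrableOn (fun u : ℝ => (Real.exp (-(a / 2) * u) * Real.exp (-a * u)) * (w u) ^ 2)
      (Set.Ioi 0) := by
    have h3 : IntegrableOn (fun u : ℝ => Real.exp (-(a / 2) * u) * Real.exp (-a * u))
        (Set.Ioi 0) := by
      have := moment_int0 (l := a / 2 + a) (by positivity) 0
      refine this.congr_fun ?_ measurableSet_Ioi
      intro u _
      simp only [pow_zero, one_mul]
      rw [← Real.exp_add]; congr 1; ring
    have h4 := moment_int1 hw hb (moment_int1 hw hb h3)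
    refine h4.congr_fun ?_ measurableSet_Ioi
    intro u _
    simp only
    ring
  have h3 : (fun u : ℝ => (Real.exp (-(a / 2) * u) * Real.exp (-a * u)) * (w u) ^ 2)
      =ᵐ[volume.restrict (Set.Ioi 0)] 0 := by
    refine (integral_eq_zero_iff_of_nonneg ?_ hint).1 h1
    intro u
    simp only [Pi.zero_apply]
    positivity
  have h4 : w =ᵐ[volume.restrict (Set.Ici 0)] (fun _ => (0 : ℝ)) := by
    rw [← restrict_Ioi_eq_restrict_Ici]
    filter_upwards [h3] with u hu
    simp only [Pi.zero_apply] at hu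
    have h5 : Real.exp (-(a / 2) * u) * Real.exp (-a * u) ≠ 0 := by positivity
    have h6 := (mul_eq_zero.1 hu).resolve_left h5
    exact pow_eq_zero_iff (two_ne_zero) |>.1 h6
  have h5 := Measure.eqOn_of_ae_eq (μ := volume) h4 hw continuousOn_const
    (by rw [interior_Ici, closure_Ioi])
  intro u hu
  exact h5 hu

/-- A bounded continuous function on `[0,∞)` all of whose moments against `u^k exp(-a u)` vanish
is zero. -/
theorem moment {a : ℝ} (ha : 0 < a) (w : ℝ → ℂ) (hw : ContinuousOn w (Set.Ici 0)) (C : ℝ)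
    (hb : ∀ u, 0 ≤ u → ‖w u‖ ≤ C)
    (hm : ∀ k : ℕ, ∫ u in Set.Ioi (0 : ℝ), ((u ^ k * Real.exp (-a * u) : ℝ) : ℂ) * w u = 0) :
    ∀ u, 0 ≤ u → w u = 0 := by
  have hmeas : AEStronglyMeasurable w (volume.restrict (Set.Ioi 0)) :=
    (hw.mono Ioi_subset_Ici_self).aestronglyMeasurable measurableSet_Ioi
  have hint : ∀ k : ℕ, IntegrableOn (fun u : ℝ => ((u ^ k * Real.exp (-a * u) : ℝ) : ℂ) * w u)
      (Set.Ioi 0) := by
    intro k
    refine Integrable.mul_bdd (c := C) (moment_int0 ha k).ofReal hmeas ?_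
    refine (ae_restrict_iff' measurableSet_Ioi).2 (Eventually.of_forall ?_)
    intro u hu
    exact hb u (le_of_lt hu)
  have hre : ∀ k : ℕ, ∫ u in Set.Ioi (0 : ℝ), (u ^ k * Real.exp (-a * u)) * (w u).re = 0 := by
    intro k
    have h1 := integral_re (hint k)
    rw [hm k] at h1
    simp only [RCLike.re_eq_complex_re, Complex.re_ofReal_mul, Complex.zero_re] at h1
    exact h1
  have him : ∀ k : ℕ, ∫ u in Set.Ioi (0 : ℝ), (u ^ k * Real.exp (-a * u)) * (w u).im = 0 := by
    intro k
    have h1 := integral_im (hint k)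
    rw [hm k] at h1
    simp only [RCLike.im_eq_complex_im, Complex.im_ofReal_mul, Complex.zero_im] at h1
    exact h1
  have h1 := moment_real ha (fun u => (w u).re) (Complex.continuous_re.comp_continuousOn hw) C
    (fun u hu => by
      rw [Real.norm_eq_abs]
      exact (Complex.abs_re_le_norm _).trans (hb u hu)) hre
  have h2 := moment_real ha (fun u => (w u).im) (Complex.continuous_im.comp_continuousOn hw) C
    (fun u hu => by
      rw [Real.norm_eq_abs]
      exact (Complex.abs_im_le_norm _).trans (hb u hu)) him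
  intro u hu
  exact Complex.ext (h1 u hu) (h2 u hu)

end DC8965
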