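import Pool.Agent.Lib.MP_dc8965_an.Hop
import Pool.Agent.Lib.MP_dc8965_an.Moment

open MeasureTheory Filter Topology Set
open scoped ENNReal NNReal

namespace DC8965

/-! ### scalar integration by parts -/

lemma hopinv_shift (f : ℝ → ℂ) {u : ℝ} :
    ∫ v in Set.Ioi (0 : ℝ), f (v + u) = ∫ s in Set.Ioi u, f s := by
  have h := (MeasurableEquiv.addRight u).measurableEmbedding.integral_map (μ := nu) f
  have h2 : Measure.map (⇑(MeasurableEquiv.addRight u)) nu = volume.restrict (Set.Ioi u) :=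
    map_shift u
  rw [h2] at h
  exact h.symm

lemma hopinv_ibp {a : ℝ} (ha : 0 < a) (w : ℝ → ℂ) (hw : ContinuousOn w (Set.Ici 0)) (C : ℝ)
    (hb : ∀ u, 0 ≤ u → ‖w u‖ ≤ C) (k : ℕ) :
    ∫ u in Set.Ioi (0 : ℝ), ((u ^ (k + 1) * Real.exp (-a * u) : ℝ) : ℂ) * w u
      = ((k : ℂ) + 1) * ∫ u in Set.Ioi (0 : ℝ), ((u ^ k * Real.exp (-a * u) : ℝ) : ℂ) *
          ∫ v in Set.Ioi (0 : ℝ), ((Real.exp (-a * v) : ℝ) : ℂ) * w (v + u) := by
  have hC : 0 ≤ C := (norm_nonneg _).trans (hb 0 le_rfl)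
  have hmeas : AEStronglyMeasurable w (volume.restrict (Set.Ioi 0)) :=
    (hw.mono Ioi_subset_Ici_self).aestronglyMeasurable measurableSet_Ioi
  have hint : ∀ k : ℕ, IntegrableOn (fun u : ℝ => ((u ^ k * Real.exp (-a * u) : ℝ) : ℂ) * w u)
      (Set.Ioi 0) := by
    intro k
    refine Integrable.mul_bdd (c := C) (moment_int0 ha k).ofReal hmeas ?_
    refine (ae_restrict_iff' measurableSet_Ioi).2 (Eventually.of_forall ?_)
    intro u hu
    exact hb u (le_of_lt hu)
  set h : ℝ → ℂ := fun s => ((Real.exp (-a * s) : ℝ) : ℂ) * w s with hh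
  have hinth : IntegrableOn h (Set.Ioi 0) := by
    refine (hint 0).congr_fun ?_ measurableSet_Ioi
    intro u _
    simp only [hh, pow_zero, one_mul]
  set h1 : ℝ → ℂ := Set.indicator (Set.Ioi 0) h with hh1
  have hinth1 : Integrable h1 := (integrable_indicator_iff measurableSet_Ioi).2 hinth
  set G : ℝ → ℂ := fun u => (∫ s, h1 s) - ∫ s in Set.Iic (0 : ℝ), h1 s - ∫ s in (0 : ℝ)..u, h1 s
    with hG
  have hGeq : ∀ u : ℝ, 0 ≤ u → (∫ s in Set.Ioi u, h s)
      = (∫ s in Set.Ioi (0 : ℝ), h s) - ∫ s in (0 : ℝ)..u, h1 s := by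
    intro u hu
    have e1 : ∫ s in (0 : ℝ)..u, h1 s = ∫ s in Set.Ioc (0 : ℝ) u, h s := by
      rw [intervalIntegral.integral_of_le hu]
      refine setIntegral_congr_fun measurableSet_Ioc ?_
      intro s hs
      simp only [hh1]
      rw [Set.indicator_of_mem]
      exact hs.1
    have e2 : (∫ s in Set.Ioi (0 : ℝ), h s)
        = (∫ s in Set.Ioc (0 : ℝ) u, h s) + ∫ s in Set.Ioi u, h s := by
      rw [← setIntegral_union]
      · rw [Set.Ioc_union_Ioi_eq_Ioi hu]
      · exact Set.disjoint_left.2 (fun x hx hx' => absurd hx.2 (not_le.2 hx'))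
      · exact measurableSet_Ioi
      · exact hinth.mono_set Set.Ioc_subset_Ioi_self
      · exact hinth.mono_set (Set.Ioi_subset_Ioi hu)
    rw [e1, e2]; ring
  set A : ℂ := ∫ s in Set.Ioi (0 : ℝ), h s with hA
  -- inner integral
  have hinner : ∀ u : ℝ, 0 ≤ u → ((Real.exp (-a * u) : ℝ) : ℂ) *
      (∫ v in Set.Ioi (0 : ℝ), ((Real.exp (-a * v) : ℝ) : ℂ) * w (v + u))
      = ∫ s in Set.Ioi u, h s := by
    intro u hu
    rw [← integral_const_mul, ← hopinv_shift h]
    refine integral_congr_ae (Eventually.of_forall ?_)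
    intro v
    simp only [hh]
    rw [← mul_assoc]
    congr 1
    rw [← Complex.ofReal_mul, ← Real.exp_add]
    congr 2; ring
  -- bound on the tail
  have htail : ∀ u : ℝ, 0 ≤ u → ‖∫ s in Set.Ioi u, h s‖ ≤ Real.exp (-a * u) * (C / a) := by
    intro u hu
    have e1 : ‖∫ s in Set.Ioi u, h s‖ ≤ ∫ s in Set.Ioi u, Real.exp (-a * s) * C := by
      refine norm_integral_le_of_norm_le ?_ ?_
      · have := (exp_neg_integrableOn_Ioi u ha)
        exact this.mul_const C
      · refine (ae_restrict_iff' measurableSet_Ioi).2 (Eventually.of_forall ?_)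
        intro s hs
        have hs0 : u < s := hs
        simp only [hh]
        rw [norm_mul, Complex.norm_real, Real.norm_of_nonneg (Real.exp_pos _).le]
        have := hb s (by linarith)
        gcongr
    refine e1.trans (le_of_eq ?_)
    rw [integral_mul_const, integral_exp_mul_Ioi (by linarith) u]
    field_simp
  set F : ℝ → ℂ := fun u => ((u ^ (k + 1) : ℝ) : ℂ) * (A - ∫ s in (0 : ℝ)..u, h1 s) with hF
  set F' : ℝ → ℂ := fun u => (((k + 1 : ℕ) * u ^ k : ℝ) : ℂ) * (A - ∫ s in (0 : ℝ)..u, h1 s)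
      + ((u ^ (k + 1) : ℝ) : ℂ) * (- h u) with hF'
  have hcontI : Continuous (fun u : ℝ => ∫ s in (0 : ℝ)..u, h1 s) :=
    intervalIntegral.continuous_primitive (fun _ _ => hinth1.intervalIntegrable) 0
  have hcontF : Continuous F := by
    simp only [hF]
    exact (Complex.continuous_ofReal.comp (continuous_pow _)).mul (continuous_const.sub hcontI)
  have hder : ∀ u ∈ Set.Ioi (0 : ℝ), HasDerivAt F (F' u) u := by
    intro u hu
    have hu0 : (0 : ℝ) < u := hu
    have hwc : ContinuousAt w u := hw.continuousAt (Ici_mem_nhds hu0)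
    have hhc : ContinuousAt h u := by
      simp only [hh]
      refine ContinuousAt.mul ?_ hwc
      exact (Complex.continuous_ofReal.comp (by fun_prop : Continuous fun s : ℝ =>
        Real.exp (-a * s))).continuousAt
    have hev : h1 =ᶠ[𝓝 u] h := by
      filter_upwards [Ioi_mem_nhds hu0] with s hs
      simp only [hh1]
      rw [Set.indicator_of_mem hs]
    have hh1c : ContinuousAt h1 u := hhc.congr hev.symm
    have hd1 : HasDerivAt (fun u : ℝ => ∫ s in (0 : ℝ)..u, h1 s) (h1 u) u :=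
      intervalIntegral.integral_hasDerivAt_right hinth1.intervalIntegrable
        (hinth1.aestronglyMeasurable.stronglyMeasurableAtFilter) hh1c
    have hd2 : HasDerivAt (fun u : ℝ => ((u ^ (k + 1) : ℝ) : ℂ))
        (((((k + 1 : ℕ) : ℝ) * u ^ k : ℝ)) : ℂ) u := by
      have := (hasDerivAt_pow (k + 1) u).ofReal_comp
      simpa using this
    have hd3 := hd2.mul (hd1.const_sub A)
    have e : h1 u = h u := by
      simp only [hh1]
      rw [Set.indicator_of_mem hu]
    rw [e] at hd3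
    exact hd3
  -- integrability of the two parts
  have hI1 : IntegrableOn (fun u : ℝ => (((k + 1 : ℕ) * u ^ k : ℝ) : ℂ) *
      (A - ∫ s in (0 : ℝ)..u, h1 s)) (Set.Ioi 0) := by
    have hdom : IntegrableOn (fun u : ℝ => ((k + 1 : ℕ) : ℝ) * ((u ^ k * Real.exp (-a * u)) * (C / a)))
        (Set.Ioi 0) := ((moment_int0 ha k).mul_const _).const_mul _
    refine Integrable.mono' hdom ?_ ?_
    · have : Continuous (fun u : ℝ => (((k + 1 : ℕ) * u ^ k : ℝ) : ℂ) *
        (A - ∫ s in (0 : ℝ)..u, h1 s)) := by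
        refine Continuous.mul ?_ (continuous_const.sub hcontI)
        exact Complex.continuous_ofReal.comp (by fun_prop)
      exact this.aestronglyMeasurable
    · refine (ae_restrict_iff' measurableSet_Ioi).2 (Eventually.of_forall ?_)
      intro u hu
      have hu0 : (0 : ℝ) < u := hu
      rw [← hGeq u hu0.le, norm_mul, Complex.norm_real, Real.norm_of_nonneg (by positivity)]
      calc ((k + 1 : ℕ) : ℝ) * u ^ k * ‖∫ s in Set.Ioi u, h s‖
          ≤ ((k + 1 : ℕ) : ℝ) * u ^ k * (Real.exp (-a * u) * (C / a)) := by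
            have := htail u hu0.le
            gcongr
        _ = ((k + 1 : ℕ) : ℝ) * ((u ^ k * Real.exp (-a * u)) * (C / a)) := by ring
  have hI2 : IntegrableOn (fun u : ℝ => ((u ^ (k + 1) : ℝ) : ℂ) * (- h u)) (Set.Ioi 0) := by
    have := (hint (k + 1)).neg
    refine this.congr_fun ?_ measurableSet_Ioi
    intro u _
    simp only [hh, Pi.neg_apply]
    push_cast
    ring
  have hlim : Tendsto F atTop (𝓝 0) := by
    have e1 : Tendsto (fun u : ℝ => (u ^ (k + 1) * Real.exp (-a * u)) * (C / a)) atTop (𝓝 0) := by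
      have e2 := (Real.tendsto_pow_mul_exp_neg_atTop_nhds_zero (k + 1)).comp
        (tendsto_id.const_mul_atTop ha)
      have e3 := e2.const_mul ((a ^ (k + 1))⁻¹ * (C / a))
      rw [mul_zero] at e3
      refine e3.congr ?_
      intro u
      simp only [Function.comp_apply, id]
      have ha' : a ^ (k + 1) ≠ 0 := by positivity
      rw [mul_pow]
      field_simp
    refine squeeze_zero_norm' ?_ e1
    filter_upwards [eventually_ge_atTop (0 : ℝ)] with u hu
    simp only [hF]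
    rw [← hGeq u hu, norm_mul, Complex.norm_real, Real.norm_of_nonneg (by positivity)]
    have := htail u hu
    calc u ^ (k + 1) * ‖∫ s in Set.Ioi u, h s‖ ≤ u ^ (k + 1) * (Real.exp (-a * u) * (C / a)) := by
          gcongr
      _ = _ := by ring
  have hfin := integral_Ioi_of_hasDerivAt_of_tendsto hcontF.continuousWithinAt hder
    (hI1.add hI2) hlim
  have hF0 : F 0 = 0 := by simp [hF]
  rw [hF0, sub_zero] at hfin
  have hsum : ∫ u in Set.Ioi (0 : ℝ), F' u = (∫ u in Set.Ioi (0 : ℝ), (((k + 1 : ℕ) * u ^ k : ℝ) : ℂ) *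
      (A - ∫ s in (0 : ℝ)..u, h1 s)) + ∫ u in Set.Ioi (0 : ℝ), ((u ^ (k + 1) : ℝ) : ℂ) * (- h u) :=
    integral_add hI1 hI2
  rw [hsum] at hfin
  have hA1 : ∫ u in Set.Ioi (0 : ℝ), ((u ^ (k + 1) : ℝ) : ℂ) * (- h u)
      = - ∫ u in Set.Ioi (0 : ℝ), ((u ^ (k + 1) * Real.exp (-a * u) : ℝ) : ℂ) * w u := by
    rw [← integral_neg]
    refine integral_congr_ae (Eventually.of_forall ?_)
    intro u
    simp only [hh]
    push_cast
    ring
  have hA2 : (∫ u in Set.Ioi (0 : ℝ), (((k + 1 : ℕ) * u ^ k : ℝ) : ℂ) *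
      (A - ∫ s in (0 : ℝ)..u, h1 s))
      = ((k : ℂ) + 1) * ∫ u in Set.Ioi (0 : ℝ), ((u ^ k * Real.exp (-a * u) : ℝ) : ℂ) *
          ∫ v in Set.Ioi (0 : ℝ), ((Real.exp (-a * v) : ℝ) : ℂ) * w (v + u) := by
    rw [← integral_const_mul]
    refine setIntegral_congr_fun measurableSet_Ioi ?_
    intro u hu
    have hu0 : (0 : ℝ) < u := hu
    simp only
    rw [← hGeq u hu0.le, ← hinner u hu0.le]
    push_cast
    ring
  rw [hA1, hA2] at hfin
  linear_combination -hfin

variable {p : ℝ≥0∞} [Fact (1 ≤ p)]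

lemma hopinv_cont (hp : p ≠ ∞) (ψ : Y p →L[ℂ] ℂ) (g : Y p) :
    ContinuousOn (fun u : ℝ => ψ (V p u g)) (Set.Ici 0) :=
  ψ.continuous.comp_continuousOn (continuousOn_V hp g)

lemma hopinv_bound (ψ : Y p →L[ℂ] ℂ) (g : Y p) (u : ℝ) : ‖ψ (V p u g)‖ ≤ ‖ψ‖ * ‖g‖ :=
  (ψ.le_opNorm _).trans (mul_le_mul_of_nonneg_left (norm_V_apply_le u g) (norm_nonneg _))

/-- moments of `u ↦ ψ (V u g)` -/
theorem moment_Hop (hp : p ≠ ∞) {a : ℝ} (ha : 0 < a) (ψ : Y p →L[ℂ] ℂ) (k : ℕ) (g : Y p) :
    ∫ u in Set.Ioi (0 : ℝ), ((u ^ k * Real.exp (-a * u) : ℝ) : ℂ) * ψ (V p u g)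
      = (k.factorial : ℂ) * ψ ((Hop p a)^[k + 1] g) := by
  induction k generalizing g with
  | zero =>
    have := apply_Hop hp ha g ψ
    simp only [pow_zero, one_mul, Nat.factorial_zero, Nat.cast_one, zero_add, Function.iterate_one]
    exact this.symm
  | succ k ih =>
    rw [hopinv_ibp ha (fun u => ψ (V p u g)) (hopinv_cont hp ψ g) (‖ψ‖ * ‖g‖)
      (fun u _ => hopinv_bound ψ g u) k]
    have e : ∫ u in Set.Ioi (0 : ℝ), ((u ^ k * Real.exp (-a * u) : ℝ) : ℂ) *
          ∫ v in Set.Ioi (0 : ℝ), ((Real.exp (-a * v) : ℝ) : ℂ) * ψ (V p (v + u) g)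
        = ∫ u in Set.Ioi (0 : ℝ), ((u ^ k * Real.exp (-a * u) : ℝ) : ℂ) * ψ (V p u (Hop p a g)) := by
      refine setIntegral_congr_fun measurableSet_Ioi ?_
      intro u hu
      have hu0 : (0 : ℝ) < u := hu
      simp only
      congr 1
      rw [V_Hop hp ha g hu0.le, apply_Hop hp ha]
      refine setIntegral_congr_fun measurableSet_Ioi ?_
      intro v hv
      have hv0 : (0 : ℝ) < v := hv
      simp only
      rw [V_V hv0.le hu0.le]
    rw [e, ih (Hop p a g), Nat.factorial_succ, Function.iterate_succ_apply (Hop p a) (k + 1) g]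
    push_cast
    ring

/-- closed `Hop`-invariant subspaces are translation invariant -/
theorem V_mem_of_Hop (hp : p ≠ ∞) {a : ℝ} (ha : 0 < a) (N : Submodule ℂ (Y p))
    (hN : IsClosed (N : Set (Y p))) (hH : ∀ g ∈ N, Hop p a g ∈ N) {u : ℝ} (hu : 0 ≤ u) {g : Y p}
    (hg : g ∈ N) : V p u g ∈ N := by
  by_contra hne
  have := hN
  have h1 : N.mkQL (V p u g) ≠ 0 := by
    intro h0
    apply hne
    rw [Submodule.mkQL_apply, Submodule.mkQ_apply, Submodule.Quotient.mk_eq_zero] at h0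
    exact h0
  obtain ⟨f, hf⟩ := SeparatingDual.exists_ne_zero (R := ℂ) h1
  set ψ : Y p →L[ℂ] ℂ := f.comp N.mkQL with hψ
  have hψN : ∀ x ∈ N, ψ x = 0 := by
    intro x hx
    have : N.mkQL x = 0 := by
      rw [Submodule.mkQL_apply, Submodule.mkQ_apply, Submodule.Quotient.mk_eq_zero]
      exact hx
    rw [hψ, ContinuousLinearMap.comp_apply, this, map_zero]
  have hiter : ∀ n : ℕ, (Hop p a)^[n] g ∈ N := by
    intro n
    induction n with
    | zero => simpa using hg
    | succ n ih =>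
      rw [Function.iterate_succ_apply']
      exact hH _ ih
  have h2 := moment ha (fun u => ψ (V p u g)) (hopinv_cont hp ψ g) (‖ψ‖ * ‖g‖)
    (fun u _ => hopinv_bound ψ g u)
    (fun k => by rw [moment_Hop hp ha ψ k g, hψN _ (hiter _), mul_zero]) u hu
  exact hf h2

/-- operators commuting with `Hop` commute with the translations -/
theorem V_comm_of_Hop (hp : p ≠ ∞) {a : ℝ} (ha : 0 < a) (T : Y p →L[ℂ] Y p)
    (hT : ∀ g, T (Hop p a g) = Hop p a (T g)) {u : ℝ} (hu : 0 ≤ u) (g : Y p) :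
    T (V p u g) = V p u (T g) := by
  have hiter : ∀ (n : ℕ) (g : Y p), T ((Hop p a)^[n] g) = (Hop p a)^[n] (T g) := by
    intro n
    induction n with
    | zero => intro g; rfl
    | succ n ih =>
      intro g
      rw [Function.iterate_succ_apply, Function.iterate_succ_apply, ih, hT]
  by_contra hne
  obtain ⟨ψ, hψ⟩ := SeparatingDual.exists_ne_zero (R := ℂ) (sub_ne_zero.2 hne)
  have h1 : ∀ k : ℕ, ∫ u in Set.Ioi (0 : ℝ), ((u ^ k * Real.exp (-a * u) : ℝ) : ℂ) *
      ((ψ.comp T) (V p u g) - ψ (V p u (T g))) = 0 := by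
    intro k
    have hmeas : ∀ (χ : Y p →L[ℂ] ℂ) (g : Y p), IntegrableOn (fun u : ℝ =>
        ((u ^ k * Real.exp (-a * u) : ℝ) : ℂ) * χ (V p u g)) (Set.Ioi 0) := by
      intro χ g
      refine Integrable.mul_bdd (c := ‖χ‖ * ‖g‖) (moment_int0 ha k).ofReal
        (((hopinv_cont hp χ g).mono Ioi_subset_Ici_self).aestronglyMeasurable measurableSet_Ioi) ?_
      exact Eventually.of_forall (fun u => hopinv_bound χ g u)
    have h2 := integral_sub (hmeas (ψ.comp T) g) (hmeas ψ (T g))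
    rw [moment_Hop hp ha, moment_Hop hp ha, ContinuousLinearMap.comp_apply, hiter, sub_self] at h2
    rw [← h2]
    refine integral_congr_ae (Eventually.of_forall ?_)
    intro u
    simp only
    ring
  have h2 := moment ha (fun u => (ψ.comp T) (V p u g) - ψ (V p u (T g)))
    ((hopinv_cont hp (ψ.comp T) g).sub (hopinv_cont hp ψ (T g)))
    (‖ψ.comp T‖ * ‖g‖ + ‖ψ‖ * ‖T g‖)
    (fun u _ => (norm_sub_le _ _).trans
      (add_le_add (hopinv_bound (ψ.comp T) g u) (hopinv_bound ψ (T g) u))) h1 u hu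
  apply hψ
  rw [map_sub]
  exact h2

end DC8965
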