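import Pool.Agent.Lib.MP_dc8965_an.Defs

open MeasureTheory Filter Topology Set
open scoped ENNReal NNReal

namespace DC8965

/-- Lebesgue measure on `[0,1]`. -/
noncomputable def mu : Measure ℝ := volume.restrict (Set.Icc 0 1)

lemma Iso_image : (fun t : ℝ => Real.exp (-t)) '' Set.Ioi 0 = Set.Ioo 0 1 := by
  ext x
  simp only [Set.mem_image, Set.mem_Ioi, Set.mem_Ioo]
  constructor
  · rintro ⟨t, ht, rfl⟩
    exact ⟨Real.exp_pos _, Real.exp_lt_one_iff.2 (by linarith)⟩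
  · rintro ⟨h0, h1⟩
    refine ⟨-Real.log x, ?_, ?_⟩
    · have := Real.log_neg h0 h1
      linarith
    · rw [neg_neg, Real.exp_log h0]

lemma Iso_mu : mu = volume.restrict (Set.Ioo 0 1) :=
  Measure.restrict_congr_set Ioo_ae_eq_Icc.symm

/-- (I1) change of variables `x = exp(-t)` -/
theorem lintegral_mu (h : ℝ → ℝ≥0∞) :
    ∫⁻ x, h x ∂mu = ∫⁻ t, ENNReal.ofReal (Real.exp (-t)) * h (Real.exp (-t)) ∂nu := by
  have hd : ∀ t ∈ Set.Ioi (0 : ℝ), HasDerivWithinAt (fun t : ℝ => Real.exp (-t))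
      (-Real.exp (-t)) (Set.Ioi 0) t := by
    intro t _
    have h1 : HasDerivAt (fun t : ℝ => Real.exp (-t)) (Real.exp (-t) * (-1)) t :=
      (hasDerivAt_neg t).exp
    rw [mul_neg, mul_one] at h1
    exact h1.hasDerivWithinAt
  have hinj : Set.InjOn (fun t : ℝ => Real.exp (-t)) (Set.Ioi 0) := by
    intro a _ b _ hab
    have := Real.exp_injective hab
    linarith
  have h2 := lintegral_image_eq_lintegral_abs_deriv_mul measurableSet_Ioi hd hinj h
  rw [Iso_mu, ← Iso_image, h2, nu]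
  simp only [abs_neg, Real.abs_exp]

/-- (I2) -/
theorem qmp_exp : Measure.QuasiMeasurePreserving (fun t : ℝ => Real.exp (-t)) nu mu := by
  refine ⟨by fun_prop, ?_⟩
  refine Measure.AbsolutelyContinuous.mk fun s hs h0 => ?_
  rw [Measure.map_apply (by fun_prop) hs]
  have h1 := lintegral_mu (s.indicator 1)
  rw [lintegral_indicator_one hs, h0] at h1
  have hm : Measurable fun t : ℝ => ENNReal.ofReal (Real.exp (-t)) *
      (s.indicator 1 (Real.exp (-t)) : ℝ≥0∞) := by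
    refine Measurable.mul (by fun_prop) ?_
    exact (measurable_one.indicator hs).comp (by fun_prop)
  rw [eq_comm, lintegral_eq_zero_iff hm] at h1
  have h2 : ∀ᵐ t ∂nu, t ∉ (fun t : ℝ => Real.exp (-t)) ⁻¹' s := by
    filter_upwards [h1] with t ht hmem
    have hmem' : Real.exp (-t) ∈ s := hmem
    have h3 : (s.indicator 1 (Real.exp (-t)) : ℝ≥0∞) = 1 := by
      rw [Set.indicator_of_mem hmem']; rfl
    simp only [Pi.zero_apply] at ht
    rw [h3, mul_one, ENNReal.ofReal_eq_zero] at ht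
    exact absurd ht (not_le.2 (Real.exp_pos _))
  have h3 := ae_iff.1 h2
  have h4 : {a | ¬ (a ∉ (fun t : ℝ => Real.exp (-t)) ⁻¹' s)} = (fun t : ℝ => Real.exp (-t)) ⁻¹' s := by
    ext a; simp
  rwa [h4] at h3

/-- (I3) -/
theorem qmp_log : Measure.QuasiMeasurePreserving (fun x : ℝ => -Real.log x) mu nu := by
  refine ⟨by fun_prop, ?_⟩
  refine Measure.AbsolutelyContinuous.mk fun s hs h0 => ?_
  have hm : Measurable fun x : ℝ => -Real.log x := by fun_prop
  rw [Measure.map_apply hm hs, ← lintegral_indicator_one (hm hs), lintegral_mu]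
  have h2 : ∀ᵐ t ∂nu, t ∉ s := by
    rw [ae_iff]; simpa using h0
  rw [lintegral_eq_zero_iff']
  · filter_upwards [h2] with t ht
    have h3 : Real.exp (-t) ∉ (fun x : ℝ => -Real.log x) ⁻¹' s := by
      simpa using ht
    rw [Set.indicator_of_notMem h3, mul_zero]
    rfl
  · refine (Measurable.mul (by fun_prop) ?_).aemeasurable
    exact (measurable_one.indicator (hm hs)).comp (by fun_prop)

lemma Iso_norm {p : ℝ≥0∞} (hp0 : p ≠ 0) (hp : p ≠ ∞) (f : ℝ → ℂ) :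
    eLpNorm (fun t : ℝ => ((Real.exp (-t / p.toReal) : ℝ) : ℂ) * f (Real.exp (-t))) p nu =
      eLpNorm f p mu := by
  rw [eLpNorm_eq_lintegral_rpow_enorm_toReal hp0 hp, eLpNorm_eq_lintegral_rpow_enorm_toReal hp0 hp,
    lintegral_mu]
  congr 2
  funext t
  have hp' : 0 < p.toReal := ENNReal.toReal_pos hp0 hp
  rw [enorm_mul, ENNReal.mul_rpow_of_nonneg _ _ hp'.le]
  congr 1
  rw [← ofReal_norm, Complex.norm_real, Real.norm_eq_abs, Real.abs_exp,
    ENNReal.ofReal_rpow_of_nonneg (Real.exp_pos _).le hp'.le, ← Real.exp_mul]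
  congr 2
  field_simp

lemma Iso_aesm {f : ℝ → ℂ} (hf : AEStronglyMeasurable f mu) (r : ℝ) :
    AEStronglyMeasurable (fun t : ℝ => ((Real.exp (-t / r) : ℝ) : ℂ) * f (Real.exp (-t))) nu := by
  refine AEStronglyMeasurable.mul ?_ (hf.comp_quasiMeasurePreserving qmp_exp)
  apply Continuous.aestronglyMeasurable
  fun_prop

variable (p : ℝ≥0∞) [Fact (1 ≤ p)]

lemma Iso_memLp (hp : p ≠ ∞) (f : Lp ℂ p mu) :
    MemLp (fun t : ℝ => ((Real.exp (-t / p.toReal) : ℝ) : ℂ) * f (Real.exp (-t))) p nu := by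
  have hp0 : p ≠ 0 := (lt_of_lt_of_le one_pos (Fact.out : 1 ≤ p)).ne'
  refine ⟨Iso_aesm (Lp.aestronglyMeasurable f) _, ?_⟩
  rw [Iso_norm hp0 hp]
  exact Lp.eLpNorm_lt_top f

/-- the isometry as a linear isometry -/
noncomputable def IsoLI (hp : p ≠ ∞) : (Lp ℂ p mu) →ₗᵢ[ℂ] Y p where
  toFun f := (Iso_memLp p hp f).toLp
  map_add' f g := by
    apply Lp.ext
    refine (MemLp.coeFn_toLp _).trans ?_
    refine EventuallyEq.trans ?_ (Lp.coeFn_add _ _).symm
    have h1 := qmp_exp.ae (Lp.coeFn_add f g)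
    filter_upwards [h1, MemLp.coeFn_toLp (Iso_memLp p hp f),
      MemLp.coeFn_toLp (Iso_memLp p hp g)] with t h1 h2 h3
    simp only [Pi.add_apply] at h1 ⊢
    rw [h1, h2, h3, mul_add]
  map_smul' c f := by
    apply Lp.ext
    refine (MemLp.coeFn_toLp _).trans ?_
    refine EventuallyEq.trans ?_ (Lp.coeFn_smul _ _).symm
    have h1 := qmp_exp.ae (Lp.coeFn_smul c f)
    filter_upwards [h1, MemLp.coeFn_toLp (Iso_memLp p hp f)] with t h1 h2
    simp only [Pi.smul_apply, RingHom.id_apply, smul_eq_mul] at h1 ⊢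
    rw [h1, h2]
    ring
  norm_map' f := by
    have hp0 : p ≠ 0 := (lt_of_lt_of_le one_pos (Fact.out : 1 ≤ p)).ne'
    change ‖(Iso_memLp p hp f).toLp‖ = ‖f‖
    rw [Lp.norm_toLp, Iso_norm hp0 hp, Lp.norm_def]

lemma IsoLI_ae (hp : p ≠ ∞) (f : Lp ℂ p mu) :
    ⇑(IsoLI p hp f) =ᵐ[nu] fun t => ((Real.exp (-t / p.toReal) : ℝ) : ℂ) * f (Real.exp (-t)) :=
  MemLp.coeFn_toLp (Iso_memLp p hp f)

lemma IsoLI_surj (hp : p ≠ ∞) : Function.Surjective (IsoLI p hp) := by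
  have hp0 : p ≠ 0 := (lt_of_lt_of_le one_pos (Fact.out : 1 ≤ p)).ne'
  have hp' : 0 < p.toReal := ENNReal.toReal_pos hp0 hp
  intro F
  set f : ℝ → ℂ := fun x => ((Real.exp (-(Real.log x) / p.toReal) : ℝ) : ℂ) * F (-Real.log x)
    with hf
  have hfF : ∀ t : ℝ, ((Real.exp (-t / p.toReal) : ℝ) : ℂ) * f (Real.exp (-t)) = F t := by
    intro t
    rw [hf]
    simp only [Real.log_exp, neg_neg]
    rw [← mul_assoc, ← Complex.ofReal_mul, ← Real.exp_add]
    have : -t / p.toReal + t / p.toReal = 0 := by ring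
    rw [this]
    simp
  have hmeas : AEStronglyMeasurable f mu := by
    refine AEStronglyMeasurable.mul ?_
      ((Lp.aestronglyMeasurable F).comp_quasiMeasurePreserving qmp_log)
    apply Measurable.aestronglyMeasurable
    fun_prop
  have hmem : MemLp f p mu := by
    refine ⟨hmeas, ?_⟩
    rw [← Iso_norm hp0 hp f]
    have : (fun t : ℝ => ((Real.exp (-t / p.toReal) : ℝ) : ℂ) * f (Real.exp (-t))) = F :=
      funext hfF
    rw [this]
    exact Lp.eLpNorm_lt_top F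
  refine ⟨hmem.toLp, ?_⟩
  apply Lp.ext
  refine (IsoLI_ae p hp _).trans ?_
  filter_upwards [qmp_exp.ae (MemLp.coeFn_toLp hmem)] with t ht
  rw [ht, hfF]

/-- (I4) the isometry `L^p[0,1] → L^p(0,∞)`, `(Φ f)(t) = exp(-t/p) f(exp(-t))` -/
theorem exists_Phi (hp : p ≠ ∞) : ∃ Φ : (Lp ℂ p mu) ≃ₗᵢ[ℂ] Y p, ∀ f : Lp ℂ p mu,
    ⇑(Φ f) =ᵐ[nu] fun t => ((Real.exp (-t / p.toReal) : ℝ) : ℂ) * f (Real.exp (-t)) := by
  refine ⟨LinearIsometryEquiv.ofSurjective (IsoLI p hp) (IsoLI_surj p hp), fun f => ?_⟩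
  exact IsoLI_ae p hp f

end DC8965
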