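import Pool.Agent.Lib.MP_dc8965_an.Hop
import Pool.Agent.Lib.MP_dc8965_an.Iso

open MeasureTheory Filter Topology Set
open scoped ENNReal NNReal

namespace DC8965

lemma IsoHardy_ae (P : ℝ → Prop) : (∀ᵐ x ∂mu, P x) ↔ ∀ᵐ t ∂nu, P (Real.exp (-t)) := by
  constructor
  · intro h
    exact qmp_exp.ae h
  · intro h
    have h1 := qmp_log.ae h
    have h2 : ∀ᵐ x ∂mu, x ∈ Set.Ioo (0 : ℝ) 1 := by
      rw [Iso_mu]; exact ae_restrict_mem measurableSet_Ioo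
    filter_upwards [h1, h2] with x hx hx2
    rwa [neg_neg, Real.exp_log hx2.1] at hx

/-- change of variables `y = exp(-(t+u))` -/
lemma IsoHardy_cov (f : ℝ → ℂ) (t : ℝ) :
    ∫ y in (0 : ℝ)..(Real.exp (-t)), f y =
      ∫ u in Set.Ioi (0 : ℝ), ((Real.exp (-(t + u)) : ℝ) : ℂ) * f (Real.exp (-(t + u))) := by
  have himg : (fun u : ℝ => Real.exp (-(t + u))) '' Set.Ioi 0 = Set.Ioo 0 (Real.exp (-t)) := by
    ext x
    simp only [Set.mem_image, Set.mem_Ioi, Set.mem_Ioo]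
    constructor
    · rintro ⟨u, hu, rfl⟩
      exact ⟨Real.exp_pos _, Real.exp_lt_exp.2 (by linarith)⟩
    · rintro ⟨h0, h1⟩
      refine ⟨-Real.log x - t, ?_, ?_⟩
      · have := Real.log_lt_log h0 h1
        rw [Real.log_exp] at this
        linarith
      · have : -(t + (-Real.log x - t)) = Real.log x := by ring
        rw [this, Real.exp_log h0]
  have hd : ∀ u ∈ Set.Ioi (0 : ℝ), HasDerivWithinAt (fun u : ℝ => Real.exp (-(t + u)))
      (-Real.exp (-(t + u))) (Set.Ioi 0) u := by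
    intro u _
    have h1 : HasDerivAt (fun u : ℝ => Real.exp (-(t + u))) (Real.exp (-(t + u)) * (-1)) u :=
      ((hasDerivAt_id u).const_add t).neg.exp
    rw [mul_neg, mul_one] at h1
    exact h1.hasDerivWithinAt
  have hinj : Set.InjOn (fun u : ℝ => Real.exp (-(t + u))) (Set.Ioi 0) := by
    intro a _ b _ hab
    have := Real.exp_injective hab
    linarith
  rw [intervalIntegral.integral_of_le (Real.exp_pos _).le, integral_Ioc_eq_integral_Ioo, ← himg,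
    integral_image_eq_integral_abs_deriv_smul measurableSet_Ioi hd hinj]
  simp only [abs_neg, Real.abs_exp, Complex.real_smul]

variable {p : ℝ≥0∞} [Fact (1 ≤ p)]

/-- the resolvent of the half line model, pointwise -/
lemma IsoHardy_pt (hp1 : 1 < p) (hp : p ≠ ∞) (Φ : (Lp ℂ p mu) ≃ₗᵢ[ℂ] Y p)
    (hΦ : ∀ f : Lp ℂ p mu,
      ⇑(Φ f) =ᵐ[nu] fun t => ((Real.exp (-t / p.toReal) : ℝ) : ℂ) * f (Real.exp (-t)))
    (f : Lp ℂ p mu) {t : ℝ} (ht : 0 ≤ t) :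
    ∫ u in Set.Ioi (0 : ℝ), ((Real.exp (-(1 - 1 / p.toReal) * u) : ℝ) : ℂ) * (Φ f) (t + u) =
      ((Real.exp (-t / p.toReal) : ℝ) : ℂ) *
        (((1 / Real.exp (-t) : ℝ) : ℂ) * ∫ y in (0 : ℝ)..(Real.exp (-t)), f y) := by
  have h1 := (qmp_shift ht).ae (hΦ f)
  rw [IsoHardy_cov, ← mul_assoc, ← integral_const_mul]
  refine integral_congr_ae ?_
  have h2 : ∀ᵐ u ∂(volume.restrict (Set.Ioi (0 : ℝ))), (Φ f) (u + t) =
      ((Real.exp (-(u + t) / p.toReal) : ℝ) : ℂ) * f (Real.exp (-(u + t))) := h1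
  filter_upwards [h2] with u hu
  rw [add_comm t u, hu]
  simp only [← mul_assoc]
  congr 1
  rw [← Complex.ofReal_mul, ← Complex.ofReal_mul, ← Complex.ofReal_mul]
  congr 1
  rw [one_div (Real.exp (-t)), ← Real.exp_neg, ← Real.exp_add, ← Real.exp_add, ← Real.exp_add]
  congr 1
  ring

/-- (IH1) the Hardy operator in the half line model -/
theorem hardy_iff (hp1 : 1 < p) (hp : p ≠ ∞) (Φ : (Lp ℂ p mu) ≃ₗᵢ[ℂ] Y p)
    (hΦ : ∀ f : Lp ℂ p mu,
      ⇑(Φ f) =ᵐ[nu] fun t => ((Real.exp (-t / p.toReal) : ℝ) : ℂ) * f (Real.exp (-t)))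
    (f g : Lp ℂ p mu) :
    (∀ᵐ x ∂mu, g x = ((1 / x : ℝ) : ℂ) * ∫ t in (0 : ℝ)..x, f t)
      ↔ Φ g = Hop p (1 - 1 / p.toReal) (Φ f) := by
  have hp' : 1 < p.toReal := by
    rw [← ENNReal.toReal_one]
    exact (ENNReal.toReal_lt_toReal ENNReal.one_ne_top hp).2 hp1
  have ha : 0 < 1 - 1 / p.toReal := by
    rw [sub_pos, div_lt_one (by linarith)]
    exact hp'
  have h0 : ∀ᵐ t ∂nu, 0 < t := by
    rw [nu]; exact ae_restrict_mem measurableSet_Ioi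
  have hH := Hop_ae hp ha (Φ f)
  rw [IsoHardy_ae]
  constructor
  · intro h
    apply Lp.ext
    filter_upwards [h, hH, h0, hΦ g] with t h1 h2 h3 h4
    rw [h4, h2, IsoHardy_pt hp1 hp Φ hΦ f h3.le, h1]
  · intro h
    rw [← h] at hH
    filter_upwards [hH, h0, hΦ g] with t h2 h3 h4
    rw [h4, IsoHardy_pt hp1 hp Φ hΦ f h3.le] at h2
    have hne : ((Real.exp (-t / p.toReal) : ℝ) : ℂ) ≠ 0 := by
      rw [Complex.ofReal_ne_zero]; exact (Real.exp_pos _).ne'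
    exact mul_left_cancel₀ hne h2

/-- (IH2) monomials correspond to exponentials -/
theorem monomial_iff (hp : p ≠ ∞) (Φ : (Lp ℂ p mu) ≃ₗᵢ[ℂ] Y p)
    (hΦ : ∀ f : Lp ℂ p mu,
      ⇑(Φ f) =ᵐ[nu] fun t => ((Real.exp (-t / p.toReal) : ℝ) : ℂ) * f (Real.exp (-t)))
    (s : ℂ) (b : Ix) (hb : b.1 = s + (1 / p.toReal : ℝ)) (f : Lp ℂ p mu) :
    (⇑f =ᵐ[mu] fun x : ℝ => (x : ℂ) ^ s) ↔ Φ f = ex p b := by
  have key : ∀ t : ℝ, Complex.exp (-b.1 * t) =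
      ((Real.exp (-t / p.toReal) : ℝ) : ℂ) * ((Real.exp (-t) : ℝ) : ℂ) ^ s := by
    intro t
    have hne : ((Real.exp (-t) : ℝ) : ℂ) ≠ 0 := by
      rw [Complex.ofReal_ne_zero]; exact (Real.exp_pos _).ne'
    rw [Complex.cpow_def_of_ne_zero hne, ← Complex.ofReal_log (Real.exp_pos _).le, Real.log_exp, hb,
      Complex.ofReal_exp, ← Complex.exp_add]
    congr 1
    push_cast
    ring
  change (∀ᵐ x ∂mu, f x = (x : ℂ) ^ s) ↔ _
  rw [IsoHardy_ae]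
  constructor
  · intro h
    apply Lp.ext
    filter_upwards [h, hΦ f, ex_ae p b] with t h1 h2 h3
    rw [h2, h3, h1, key]
  · intro h
    have hΦf := hΦ f
    rw [h] at hΦf
    filter_upwards [hΦf, ex_ae p b] with t h2 h3
    rw [h3, key] at h2
    have hne : ((Real.exp (-t / p.toReal) : ℝ) : ℂ) ≠ 0 := by
      rw [Complex.ofReal_ne_zero]; exact (Real.exp_pos _).ne'
    exact (mul_left_cancel₀ hne h2).symm

/-- (IH3) the weighted norms -/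
theorem weighted_eq (hp : p ≠ ∞) (Φ : (Lp ℂ p mu) ≃ₗᵢ[ℂ] Y p)
    (hΦ : ∀ f : Lp ℂ p mu,
      ⇑(Φ f) =ᵐ[nu] fun t => ((Real.exp (-t / p.toReal) : ℝ) : ℂ) * f (Real.exp (-t)))
    (w : ℝ → ℝ≥0∞) (f g : Lp ℂ p mu) :
    ∫⁻ x, w x * ‖f x - g x‖ₑ ^ p.toReal ∂mu
      = ∫⁻ t, w (Real.exp (-t)) * ‖(Φ f) t - (Φ g) t‖ₑ ^ p.toReal ∂nu := by
  have hp0 : p ≠ 0 := (lt_of_lt_of_le one_pos (Fact.out : 1 ≤ p)).ne'
  have hp' : 0 < p.toReal := ENNReal.toReal_pos hp0 hp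
  rw [lintegral_mu]
  refine lintegral_congr_ae ?_
  filter_upwards [hΦ f, hΦ g] with t h1 h2
  rw [h1, h2, ← mul_sub, enorm_mul, ENNReal.mul_rpow_of_nonneg _ _ hp'.le, mul_left_comm]
  congr 2
  rw [← ofReal_norm, Complex.norm_real, Real.norm_eq_abs, Real.abs_exp,
    ENNReal.ofReal_rpow_of_nonneg (Real.exp_pos _).le hp'.le, ← Real.exp_mul]
  congr 2
  field_simp

end DC8965
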