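import Mathlib
import Pool.Agent.Lib.MP_dc8965_an.Half
import Pool.Agent.Lib.MP_dc8965_an.HopInv
import Pool.Agent.Lib.MP_dc8965_an.IsoHardy

/-!
# Monomial spaces of the Hardy operator on `L^p[0,1]`, `1 < p < ∞`
-/

open MeasureTheory Filter Topology Set
open scoped ENNReal NNReal

namespace DC8965

/-- `L^p[0,1]`, complex valued; `mu` is `volume.restrict (Set.Icc 0 1)`, Lebesgue measure
on `[0,1]`. -/
abbrev L (p : ℝ≥0∞) : Type := Lp ℂ p mu

/-- `g = H f` : `g(x) = (1/x) ∫_0^x f(t) dt` for a.e. `x ∈ [0,1]`. -/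
def IsHardy {p : ℝ≥0∞} (f g : L p) : Prop :=
  ∀ᵐ x ∂mu, g x = ((1 / x : ℝ) : ℂ) * ∫ t in (0 : ℝ)..x, f t

/-- `f` is the monomial `x^s`. -/
def IsMono {p : ℝ≥0∞} (s : ℂ) (f : L p) : Prop := ⇑f =ᵐ[mu] fun x : ℝ => (x : ℂ) ^ s

/-- `span {x^s : s ∈ S}` in `L^p[0,1]`. -/
noncomputable def monoSpan (p : ℝ≥0∞) [Fact (1 ≤ p)] (S : Finset ℂ) : Submodule ℂ (L p) :=
  Submodule.span ℂ {f : L p | ∃ s ∈ S, IsMono s f}

/-- `M` is a monomial space: `M = {f : dist(f, M_n) → 0}` for some finite monomial spaces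
`M_n = span {x^s : s ∈ S n}` with `S n` a finite subset of `{Re s > -1/p}`. -/
def IsMonomialSpace {p : ℝ≥0∞} [Fact (1 ≤ p)] (M : Submodule ℂ (L p)) : Prop :=
  ∃ S : ℕ → Finset ℂ, (∀ n, ∀ s ∈ S n, -(1 / p.toReal) < s.re) ∧
    ∀ f : L p, f ∈ M ↔
      Tendsto (fun n => Metric.infDist f (monoSpan p (S n) : Set (L p))) atTop (𝓝 0)

/-! ### Transfer to the half line -/

section transfer
variable {p : ℝ≥0∞} [Fact (1 ≤ p)] (Φ : (Lp ℂ p mu) ≃ₗᵢ[ℂ] Y p)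

/-- transported subspace -/
noncomputable def tr (M : Submodule ℂ (L p)) : Submodule ℂ (Y p) :=
  M.comap (Φ.symm.toLinearEquiv : Y p →ₗ[ℂ] Lp ℂ p mu)

lemma mem_tr (M : Submodule ℂ (L p)) (y : Y p) : y ∈ tr Φ M ↔ Φ.symm y ∈ M := Iff.rfl

lemma mem_tr' (M : Submodule ℂ (L p)) (f : L p) : Φ f ∈ tr Φ M ↔ f ∈ M := by
  rw [mem_tr, Φ.symm_apply_apply]

variable {Φ} in
lemma tr_monoSpan (hp : p ≠ ∞)
    (hΦ : ∀ f : Lp ℂ p mu,
      ⇑(Φ f) =ᵐ[nu] fun t => ((Real.exp (-t / p.toReal) : ℝ) : ℂ) * f (Real.exp (-t)))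
    (S : Finset ℂ) (S' : Finset Ix) (hS : ∀ s ∈ S, -(1 / p.toReal) < s.re)
    (hSS' : ∀ b : Ix, b ∈ S' ↔ b.1 - ((1 / p.toReal : ℝ) : ℂ) ∈ S) :
    tr Φ (monoSpan p S) = fsp (ex p) S' := by
  have h0 : tr Φ (monoSpan p S) = (monoSpan p S).map
      (Φ.toLinearEquiv : Lp ℂ p mu →ₗ[ℂ] Y p) := by
    ext y
    rw [mem_tr, Submodule.mem_map]
    constructor
    · intro h
      exact ⟨_, h, Φ.apply_symm_apply y⟩
    · rintro ⟨f, hf, rfl⟩
      change Φ.symm (Φ f) ∈ _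
      rwa [Φ.symm_apply_apply]
  rw [h0, monoSpan, Submodule.map_span, fsp]
  congr 1
  ext y
  constructor
  · rintro ⟨f, ⟨s, hs, hf⟩, rfl⟩
    have hb : 0 < (s + ((1 / p.toReal : ℝ) : ℂ)).re := by
      have := hS s hs
      rw [Complex.add_re, Complex.ofReal_re]; linarith
    refine ⟨⟨s + ((1 / p.toReal : ℝ) : ℂ), hb⟩, ?_, ?_⟩
    · rw [Finset.mem_coe, hSS']
      simpa using hs
    · exact ((monomial_iff hp Φ hΦ s ⟨_, hb⟩ rfl f).mp hf).symm
  · rintro ⟨b, hb, rfl⟩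
    rw [Finset.mem_coe, hSS'] at hb
    refine ⟨Φ.symm (ex p b), ⟨_, hb, ?_⟩, Φ.apply_symm_apply _⟩
    refine (monomial_iff hp Φ hΦ (b.1 - ((1 / p.toReal : ℝ) : ℂ)) b (by ring) _).mpr ?_
    exact Φ.apply_symm_apply _

lemma infDist_tr (W : Submodule ℂ (L p)) (f : L p) :
    Metric.infDist (Φ f) (tr Φ W : Set (Y p)) = Metric.infDist f (W : Set (L p)) := by
  have h1 : (tr Φ W : Set (Y p)) = Φ '' (W : Set (L p)) := by
    ext y
    constructor
    · intro h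
      exact ⟨Φ.symm y, h, Φ.apply_symm_apply y⟩
    · rintro ⟨g, hg, rfl⟩
      exact (mem_tr' Φ W g).mpr hg
  rw [h1]
  exact Metric.infDist_image Φ.isometry

variable {Φ} in
lemma isMonomialSpace_iff (hp : p ≠ ∞)
    (hΦ : ∀ f : Lp ℂ p mu,
      ⇑(Φ f) =ᵐ[nu] fun t => ((Real.exp (-t / p.toReal) : ℝ) : ℂ) * f (Real.exp (-t)))
    (M : Submodule ℂ (L p)) : IsMonomialSpace M ↔ IsLim (ex p) (tr Φ M) := by
  classical
  constructor
  · rintro ⟨S, hS, hM⟩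
    let S' : ℕ → Finset Ix := fun n => (S n).attach.image fun s =>
      ⟨s.1 + ((1 / p.toReal : ℝ) : ℂ), by
        have := hS n s.1 s.2
        rw [Complex.add_re, Complex.ofReal_re]; linarith⟩
    have hS' : ∀ n, ∀ b : Ix, b ∈ S' n ↔ b.1 - ((1 / p.toReal : ℝ) : ℂ) ∈ S n := by
      intro n b
      simp only [S', Finset.mem_image, Finset.mem_attach, true_and, Subtype.exists]
      constructor
      · rintro ⟨s, hs, hb⟩
        rw [← hb]; simpa using hs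
      · intro h
        exact ⟨_, h, Subtype.ext (by simp)⟩
    refine ⟨S', fun y => ?_⟩
    rw [mem_tr, hM]
    have : ∀ n, Metric.infDist (Φ.symm y) (monoSpan p (S n) : Set (L p))
        = Metric.infDist y (fsp (ex p) (S' n) : Set (Y p)) := by
      intro n
      rw [← tr_monoSpan hp hΦ (S n) (S' n) (hS n) (hS' n), ← infDist_tr Φ, Φ.apply_symm_apply]
    simp only [this]
  · rintro ⟨S', hM⟩
    let S : ℕ → Finset ℂ := fun n => (S' n).image fun b => b.1 - ((1 / p.toReal : ℝ) : ℂ)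
    have hS : ∀ n, ∀ s ∈ S n, -(1 / p.toReal) < s.re := by
      intro n s hs
      obtain ⟨b, -, rfl⟩ := Finset.mem_image.mp hs
      have := b.2
      rw [Complex.sub_re, Complex.ofReal_re]; linarith
    have hS' : ∀ n, ∀ b : Ix, b ∈ S' n ↔ b.1 - ((1 / p.toReal : ℝ) : ℂ) ∈ S n := by
      intro n b
      simp only [S, Finset.mem_image]
      constructor
      · intro h; exact ⟨b, h, rfl⟩
      · rintro ⟨b', hb', h⟩
        have : b' = b := Subtype.ext (sub_left_injective h)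
        rwa [← this]
    refine ⟨S, hS, fun f => ?_⟩
    rw [← mem_tr' Φ M f, hM]
    have : ∀ n, Metric.infDist (Φ f) (fsp (ex p) (S' n) : Set (Y p))
        = Metric.infDist f (monoSpan p (S n) : Set (L p)) := by
      intro n
      rw [← tr_monoSpan hp hΦ (S n) (S' n) (hS n) (hS' n), infDist_tr Φ]
    simp only [this]

end transfer

/-! ### The four statements -/

section main
variable {p : ℝ≥0∞} [Fact (1 ≤ p)]

theorem part_inter (hp : p ≠ ∞) (F : Set (Submodule ℂ (L p)))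
    (hF : ∀ M ∈ F, IsMonomialSpace M) : IsMonomialSpace (sInf F) := by
  obtain ⟨Φ, hΦ⟩ := exists_Phi p hp
  rw [isMonomialSpace_iff hp hΦ]
  have h1 : tr Φ (sInf F) = sInf (tr Φ '' F) := by
    ext y
    rw [mem_tr, Submodule.mem_sInf, Submodule.mem_sInf]
    constructor
    · rintro h _ ⟨M, hM, rfl⟩
      exact h M hM
    · intro h M hM
      exact h _ ⟨M, hM, rfl⟩
  rw [h1]
  refine half_sInf hp _ ?_
  rintro _ ⟨M, hM, rfl⟩
  exact (isMonomialSpace_iff hp hΦ M).mp (hF M hM)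

omit [Fact (1 ≤ p)] in
lemma one_sub_pos (hp1 : 1 < p) (hp : p ≠ ∞) : 0 < 1 - 1 / p.toReal := by
  have h1 : 1 < p.toReal := by
    have := (ENNReal.toReal_lt_toReal ENNReal.one_ne_top hp).mpr hp1
    simpa using this
  have : 1 / p.toReal < 1 := by
    rw [div_lt_one (by linarith)]; exact h1
  linarith

theorem part_comm (hp1 : 1 < p) (hp : p ≠ ∞) (T : L p →L[ℂ] L p)
    (hT : ∀ f g : L p, IsHardy f g → IsHardy (T f) (T g)) (M : Submodule ℂ (L p))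
    (hM : IsMonomialSpace M) : IsMonomialSpace (M.comap (T : L p →ₗ[ℂ] L p)) := by
  obtain ⟨Φ, hΦ⟩ := exists_Phi p hp
  rw [isMonomialSpace_iff hp hΦ] at hM ⊢
  let T' : Y p →L[ℂ] Y p :=
    (Φ.toContinuousLinearEquiv : Lp ℂ p mu →L[ℂ] Y p).comp
      ((T : Lp ℂ p mu →L[ℂ] Lp ℂ p mu).comp
        (Φ.symm.toContinuousLinearEquiv : Y p →L[ℂ] Lp ℂ p mu))
  have hT'app : ∀ y, T' y = Φ (T (Φ.symm y)) := fun y => rfl
  have hT' : ∀ g, T' (Hop p (1 - 1 / p.toReal) g) = Hop p (1 - 1 / p.toReal) (T' g) := by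
    intro g
    rw [hT'app, hT'app]
    have h1 : IsHardy (Φ.symm g : L p) (Φ.symm (Hop p (1 - 1 / p.toReal) g)) := by
      refine (hardy_iff hp1 hp Φ hΦ _ _).mpr ?_
      rw [Φ.apply_symm_apply, Φ.apply_symm_apply]
    exact (hardy_iff hp1 hp Φ hΦ _ _).mp (hT _ _ h1)
  have h2 := half_comap hp T' (fun u hu g => V_comm_of_Hop hp (one_sub_pos hp1 hp) T' hT' hu g)
    (tr Φ M) hM
  convert h2 using 1
  ext y
  rw [mem_tr, Submodule.mem_comap, Submodule.mem_comap, mem_tr]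
  change T (Φ.symm y) ∈ M ↔ Φ.symm (T' y) ∈ M
  rw [hT'app, Φ.symm_apply_apply]

/-- preimages and intersections together -/
theorem part_sep (hp1 : 1 < p) (hp : p ≠ ∞) (M : Submodule ℂ (L p))
    (hM : ∀ f : L p, f ∉ M → ∃ (T : L p →L[ℂ] L p) (N : Submodule ℂ (L p)),
      (∀ u v : L p, IsHardy u v → IsHardy (T u) (T v)) ∧ IsMonomialSpace N ∧
      (∀ g ∈ M, T g ∈ N) ∧ T f ∉ N) : IsMonomialSpace M := by
  have h1 : M = sInf {K : Submodule ℂ (L p) | IsMonomialSpace K ∧ M ≤ K} := by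
    apply le_antisymm
    · exact le_sInf fun K hK => hK.2
    · intro f hf
      by_contra hfM
      obtain ⟨T, N, hT, hN, hMN, hfN⟩ := hM f hfM
      have h2 := (Submodule.mem_sInf.mp hf) (N.comap (T : L p →ₗ[ℂ] L p))
        ⟨part_comm hp1 hp T hT N hN, fun g hg => hMN g hg⟩
      exact hfN h2
  rw [h1]
  exact part_inter hp _ fun K hK => hK.1

/-- separation in weighted `L^p` norms -/
theorem part_weight (hp1 : 1 < p) (hp : p ≠ ∞) (M : Submodule ℂ (L p))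
    (hM : ∀ f ∈ M, ∀ g : L p, IsHardy f g → g ∈ M)
    (hsep : ∀ f : L p, f ∉ M → ∃ ω : ℝ → ℝ≥0∞, Measurable ω ∧ (∀ x, ω x ≤ 1) ∧
      ∫⁻ x, ω x * ENNReal.ofReal (1 / x) ∂mu ≠ ∞ ∧
      ∃ ε : ℝ≥0∞, 0 < ε ∧ ∀ g ∈ M, ε ≤ ∫⁻ x, ω x * ‖f x - g x‖ₑ ^ p.toReal ∂mu) :
    IsMonomialSpace M := by
  obtain ⟨Φ, hΦ⟩ := exists_Phi p hp
  rw [isMonomialSpace_iff hp hΦ]
  have hsep' : ∀ f : Y p, f ∉ tr Φ M → ∃ w : ℝ → ℝ≥0∞, Measurable w ∧ (∀ t, w t ≤ 1) ∧
      ∫⁻ t, w t ∂nu ≠ ∞ ∧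
      ∃ ε : ℝ≥0∞, 0 < ε ∧ ∀ g ∈ tr Φ M, ε ≤ ∫⁻ t, w t * ‖f t - g t‖ₑ ^ p.toReal ∂nu := by
    intro f hf
    obtain ⟨ω, hω, hω1, hωi, ε, hε, hsp⟩ := hsep (Φ.symm f) hf
    refine ⟨fun t => ω (Real.exp (-t)), ?_, fun t => hω1 _, ?_, ε, hε, fun g hg => ?_⟩
    · apply hω.comp; fun_prop
    · have h1 := lintegral_mu fun x => ω x * ENNReal.ofReal (1 / x)
      have h2 : ∫⁻ t, ω (Real.exp (-t)) ∂nu = ∫⁻ t, ENNReal.ofReal (Real.exp (-t)) *
          (ω (Real.exp (-t)) * ENNReal.ofReal (1 / Real.exp (-t))) ∂nu := by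
        refine lintegral_congr fun t => ?_
        have h3 : ENNReal.ofReal (Real.exp (-t)) * ENNReal.ofReal (1 / Real.exp (-t)) = 1 := by
          rw [← ENNReal.ofReal_mul (Real.exp_pos _).le, mul_one_div_cancel (Real.exp_pos _).ne',
            ENNReal.ofReal_one]
        calc ω (Real.exp (-t)) = ω (Real.exp (-t)) * (ENNReal.ofReal (Real.exp (-t))
              * ENNReal.ofReal (1 / Real.exp (-t))) := by rw [h3, mul_one]
          _ = _ := by ring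
      rw [h2, ← h1]; exact hωi
    · have h1 := weighted_eq hp Φ hΦ ω (Φ.symm f) (Φ.symm g)
      rw [Φ.apply_symm_apply, Φ.apply_symm_apply] at h1
      rw [← h1]
      exact hsp _ hg
  -- `tr Φ M` is closed
  have hclosed : IsClosed (tr Φ M : Set (Y p)) := by
    rw [← isSeqClosed_iff_isClosed]
    intro f a hf hlim
    by_contra haM
    obtain ⟨w, hw, hw1, hwi, ε, hε, hsp⟩ := hsep' a haM
    have h1 : Tendsto (fun n => ‖a - f n‖ₑ ^ p.toReal) atTop (𝓝 0) := by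
      have h2 : Tendsto (fun n => ‖a - f n‖ₑ) atTop (𝓝 0) := by
        have h3 : Tendsto (fun n => a - f n) atTop (𝓝 (a - a)) := tendsto_const_nhds.sub hlim
        rw [sub_self] at h3
        have := h3.enorm
        rwa [enorm_zero] at this
      have hp0 : 0 < p.toReal := toReal_pos' hp
      have h4 := h2.ennrpow_const p.toReal
      rwa [ENNReal.zero_rpow_of_pos hp0] at h4
    obtain ⟨n, hn⟩ := (h1.eventually (gt_mem_nhds hε)).exists
    refine absurd hn (not_lt.mpr ((hsp (f n) (hf n)).trans ?_))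
    rw [enorm_rpow_eq hp]
    refine lintegral_mono_ae ?_
    filter_upwards [Lp.coeFn_sub a (f n)] with t ht
    rw [ht, Pi.sub_apply]
    calc w t * ‖a t - f n t‖ₑ ^ p.toReal ≤ 1 * ‖a t - f n t‖ₑ ^ p.toReal := by
          gcongr; exact hw1 t
      _ = _ := one_mul _
  have hH : ∀ g ∈ tr Φ M, Hop p (1 - 1 / p.toReal) g ∈ tr Φ M := by
    intro g hg
    rw [mem_tr] at hg ⊢
    refine hM _ hg _ ?_
    refine (hardy_iff hp1 hp Φ hΦ _ _).mpr ?_
    rw [Φ.apply_symm_apply, Φ.apply_symm_apply]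
  exact half_closed hp (tr Φ M)
    (fun u hu g hg => V_mem_of_Hop hp (one_sub_pos hp1 hp) (tr Φ M) hclosed hH hu hg) hsep'

/-- Hölder: the `L^s` norm is dominated by the `L^p(x^δ dx)` norm, `δ = (p-s)/(2s)`. -/
lemma holder_mu {P s : ℝ} (hs : 0 < s) (hsP : s < P) (h : ℝ → ℂ) (hh : AEStronglyMeasurable h mu) :
    ∫⁻ x, ‖h x‖ₑ ^ s ∂mu ≤
      (∫⁻ x, min 1 (ENNReal.ofReal (x ^ ((P - s) / (2 * s)))) * ‖h x‖ₑ ^ P ∂mu) ^ (s / P)
        * (∫⁻ x, ENNReal.ofReal (x ^ (-(1 / 2) : ℝ)) ∂mu) ^ ((P - s) / P) := by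
  have hP : 0 < P := hs.trans hsP
  have hPs : 0 < P - s := by linarith
  set δ : ℝ := (P - s) / (2 * s) with hδ
  have hδ0 : 0 < δ := by positivity
  have hconj : (P / s).HolderConjugate (P / (P - s)) := by
    rw [Real.holderConjugate_iff]
    refine ⟨by rw [lt_div_iff₀ hs]; linarith, ?_⟩
    rw [inv_div, inv_div]
    field_simp
    ring
  let w : ℝ → ℝ≥0∞ := fun x => min 1 (ENNReal.ofReal (x ^ δ))
  have hwm : Measurable w := by
    apply Measurable.min measurable_const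
    exact ENNReal.measurable_ofReal.comp (by fun_prop)
  let F : ℝ → ℝ≥0∞ := fun x => w x ^ (s / P) * ‖h x‖ₑ ^ s
  let G : ℝ → ℝ≥0∞ := fun x => (w x ^ (s / P))⁻¹
  have hae : ∀ᵐ x ∂mu, 0 < x ∧ x ≤ 1 := by
    have h1 : ∀ᵐ x ∂mu, x ∈ Set.Icc (0 : ℝ) 1 := by
      rw [mu]; exact ae_restrict_mem measurableSet_Icc
    have h2 : ∀ᵐ x ∂mu, x ≠ 0 := by
      rw [mu]; exact ae_restrict_of_ae (Measure.ae_ne volume 0)
    filter_upwards [h1, h2] with x hx hx0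
    exact ⟨lt_of_le_of_ne hx.1 (Ne.symm hx0), hx.2⟩
  have hw : ∀ x : ℝ, 0 < x → x ≤ 1 → w x = ENNReal.ofReal (x ^ δ) := by
    intro x hx hx1
    simp only [w]
    refine min_eq_right ?_
    rw [← ENNReal.ofReal_one]
    exact ENNReal.ofReal_le_ofReal (Real.rpow_le_one hx.le hx1 hδ0.le)
  have hFG : ∫⁻ x, ‖h x‖ₑ ^ s ∂mu = ∫⁻ x, (F * G) x ∂mu := by
    refine lintegral_congr_ae ?_
    filter_upwards [hae] with x hx
    simp only [Pi.mul_apply, F, G]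
    have hw0 : w x ^ (s / P) ≠ 0 := by
      rw [hw x hx.1 hx.2]
      have : 0 < ENNReal.ofReal (x ^ δ) := ENNReal.ofReal_pos.mpr (Real.rpow_pos_of_pos hx.1 _)
      exact (ENNReal.rpow_pos this ENNReal.ofReal_ne_top).ne'
    have hwt : w x ^ (s / P) ≠ ∞ := by
      refine ENNReal.rpow_ne_top_of_nonneg (by positivity) ?_
      exact ne_top_of_le_ne_top ENNReal.one_ne_top (min_le_left _ _)
    rw [mul_comm (w x ^ (s / P)), mul_assoc, ENNReal.mul_inv_cancel hw0 hwt, mul_one]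
  rw [hFG]
  have hFm : AEMeasurable F mu :=
    (hwm.pow_const _).aemeasurable.mul (hh.enorm.pow_const _)
  have hGm : AEMeasurable G mu := ((hwm.pow_const _).inv).aemeasurable
  refine (ENNReal.lintegral_mul_le_Lp_mul_Lq mu hconj hFm hGm).trans ?_
  have e1 : ∀ x, F x ^ (P / s) = w x * ‖h x‖ₑ ^ P := by
    intro x
    simp only [F]
    rw [ENNReal.mul_rpow_of_nonneg _ _ (by positivity), ← ENNReal.rpow_mul, ← ENNReal.rpow_mul]
    have h1 : s / P * (P / s) = 1 := by field_simp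
    have h2 : s * (P / s) = P := by field_simp
    rw [h1, h2, ENNReal.rpow_one]
  have e2 : ∀ᵐ x ∂mu, G x ^ (P / (P - s)) = ENNReal.ofReal (x ^ (-(1 / 2) : ℝ)) := by
    filter_upwards [hae] with x hx
    simp only [G]
    rw [hw x hx.1 hx.2, ENNReal.inv_rpow, ← ENNReal.rpow_mul,
      ENNReal.ofReal_rpow_of_pos (Real.rpow_pos_of_pos hx.1 _), ← Real.rpow_mul hx.1.le,
      ← ENNReal.ofReal_inv_of_pos (Real.rpow_pos_of_pos hx.1 _), ← Real.rpow_neg hx.1.le]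
    congr 2
    rw [hδ]
    field_simp
  rw [lintegral_congr e1, lintegral_congr_ae e2]
  have h3 : 1 / (P / s) = s / P := by rw [one_div_div]
  have h4 : 1 / (P / (P - s)) = (P - s) / P := by rw [one_div_div]
  rw [h3, h4]

lemma lintegral_rpow_mu {c : ℝ} (hc : 0 < c) :
    ∫⁻ x, ENNReal.ofReal (x ^ (c - 1)) ∂mu ≠ ∞ := by
  rw [lintegral_mu]
  have h1 : ∀ t : ℝ, ENNReal.ofReal (Real.exp (-t)) * ENNReal.ofReal (Real.exp (-t) ^ (c - 1))
      = ENNReal.ofReal (Real.exp (-c * t)) := by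
    intro t
    rw [← ENNReal.ofReal_mul (Real.exp_pos _).le, ← Real.exp_mul, ← Real.exp_add]
    congr 2; ring
  rw [lintegral_congr h1]
  have h2 : IntegrableOn (fun t : ℝ => Real.exp (-c * t)) (Set.Ioi 0) := exp_neg_integrableOn_Ioi 0 hc
  have h3 := h2.lintegral_lt_top
  exact h3.ne

/-- separation in the metrics of `L^s(ω dx)`, `s < p` arbitrary, or `s = p` and `∫ ω dx/x < ∞` -/
theorem part_Ls (hp1 : 1 < p) (hp : p ≠ ∞) (M : Submodule ℂ (L p))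
    (hM : ∀ f ∈ M, ∀ g : L p, IsHardy f g → g ∈ M)
    (hsep : ∀ f : L p, f ∉ M → ∃ (s : ℝ) (ω : ℝ → ℝ≥0∞), 0 < s ∧ s ≤ p.toReal ∧
      Measurable ω ∧ (∀ x, ω x ≤ 1) ∧
      (s < p.toReal ∨ ∫⁻ x, ω x * ENNReal.ofReal (1 / x) ∂mu ≠ ∞) ∧
      ∃ ε : ℝ≥0∞, 0 < ε ∧ ∀ g ∈ M, ε ≤ ∫⁻ x, ω x * ‖f x - g x‖ₑ ^ s ∂mu) :
    IsMonomialSpace M := by
  refine part_weight hp1 hp M hM fun f hf => ?_
  obtain ⟨s, ω, hs, hsp, hω, hω1, hcase, ε, hε, hsepf⟩ := hsep f hf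
  have hP : 0 < p.toReal := hs.trans_le hsp
  by_cases hi : ∫⁻ x, ω x * ENNReal.ofReal (1 / x) ∂mu ≠ ∞ ∧ s = p.toReal
  · exact ⟨ω, hω, hω1, hi.1, ε, hε, fun g hg => hi.2 ▸ hsepf g hg⟩
  have hsp' : s < p.toReal := by
    rcases hcase with h | h
    · exact h
    · exact lt_of_le_of_ne hsp fun h2 => hi ⟨h, h2⟩
  set δ : ℝ := (p.toReal - s) / (2 * s) with hδ
  have hδ0 : 0 < δ := div_pos (by linarith) (by linarith)
  -- the constant of Hölder's inequality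
  set K : ℝ≥0∞ := (∫⁻ x, ENNReal.ofReal (x ^ (-(1 / 2) : ℝ)) ∂mu) ^ ((p.toReal - s) / p.toReal)
    with hK
  have hKt : K ≠ ∞ := by
    refine ENNReal.rpow_ne_top_of_nonneg (div_nonneg (by linarith) hP.le) ?_
    have := lintegral_rpow_mu (c := 1 / 2) (by norm_num)
    norm_num at this ⊢
    exact this
  obtain ⟨η, hη, hηε⟩ : ∃ η : ℝ≥0∞, 0 < η ∧ η ^ (s / p.toReal) * K < ε := by
    have h1 : Tendsto (fun η : ℝ≥0∞ => η ^ (s / p.toReal) * K) (𝓝 0) (𝓝 (0 * K)) := by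
      have h2 : Tendsto (fun η : ℝ≥0∞ => η ^ (s / p.toReal)) (𝓝 0) (𝓝 0) := by
        have := (ENNReal.continuous_rpow_const (y := s / p.toReal)).tendsto 0
        rwa [ENNReal.zero_rpow_of_pos (by positivity)] at this
      exact ENNReal.Tendsto.mul_const h2 (Or.inr hKt)
    rw [zero_mul] at h1
    have h3 := h1.eventually (gt_mem_nhds hε)
    obtain ⟨b, hb, hb2⟩ := (ENNReal.nhds_zero_basis.eventually_iff).mp h3
    obtain ⟨η, hη0, hηb⟩ := exists_between hb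
    exact ⟨η, hη0, hb2 hηb⟩
  refine ⟨fun x => min 1 (ENNReal.ofReal (x ^ δ)), ?_, fun x => min_le_left _ _, ?_, η, hη,
    fun g hg => ?_⟩
  · apply Measurable.min measurable_const
    exact ENNReal.measurable_ofReal.comp (by fun_prop)
  · refine ne_top_of_le_ne_top (lintegral_rpow_mu hδ0) ?_
    refine lintegral_mono_ae ?_
    have h1 : ∀ᵐ x ∂mu, x ∈ Set.Icc (0 : ℝ) 1 := by
      rw [mu]; exact ae_restrict_mem measurableSet_Icc
    have h2 : ∀ᵐ x ∂mu, x ≠ 0 := by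
      rw [mu]; exact ae_restrict_of_ae (Measure.ae_ne volume 0)
    filter_upwards [h1, h2] with x hx hx0
    have hx' : 0 < x := lt_of_le_of_ne hx.1 (Ne.symm hx0)
    calc min 1 (ENNReal.ofReal (x ^ δ)) * ENNReal.ofReal (1 / x)
        ≤ ENNReal.ofReal (x ^ δ) * ENNReal.ofReal (1 / x) := by gcongr; exact min_le_right _ _
      _ = ENNReal.ofReal (x ^ (δ - 1)) := by
          rw [← ENNReal.ofReal_mul (Real.rpow_pos_of_pos hx' _).le, Real.rpow_sub_one hx'.ne',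
            mul_one_div]
  · by_contra hlt
    rw [not_le] at hlt
    have h4 := holder_mu hs hsp' (fun x => f x - g x) ((Lp.aestronglyMeasurable f).sub
      (Lp.aestronglyMeasurable g))
    have h5 : ε ≤ ∫⁻ x, ‖f x - g x‖ₑ ^ s ∂mu := by
      refine (hsepf g hg).trans (lintegral_mono fun x => ?_)
      calc ω x * ‖f x - g x‖ₑ ^ s ≤ 1 * ‖f x - g x‖ₑ ^ s := by gcongr; exact hω1 x
        _ = _ := one_mul _
    refine absurd (h5.trans h4) (not_le.mpr (lt_of_le_of_lt ?_ hηε))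
    gcongr

end main

end DC8965
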