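import Pool.Agent.Lib.MP_dc8965_an.HSStep

/-!
Claim E: approximation by exponentials with separation from one vector.
-/

open MeasureTheory Filter Topology Set
open scoped ENNReal NNReal Polynomial

namespace DC8965

variable {p : ℝ≥0∞} [Fact (1 ≤ p)]

/-- finitely many vectors are close to step functions of one level -/
lemma hs_common_step (hp : p ≠ ∞) {k : ℕ} (g : Fin k → Y p) {δ : ℝ} (hδ : 0 < δ) :
    ∃ (l : ℝ) (I : ℕ) (y : Fin k → ℕ → ℂ), 0 < l ∧ (∀ i n, I ≤ n → y i n = 0) ∧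
      ∀ i, ‖g i - ∑ m ∈ Finset.range I, y i m • bx p l m‖ < δ := by
  choose n K y hy using fun i => dense_step hp (g i) hδ
  obtain ⟨n', hn'⟩ := (Finset.univ.image n).exists_le
  obtain ⟨K', hK'⟩ := (Finset.univ.image K).exists_le
  have hn : ∀ i, n i ≤ n' := fun i => hn' _ (Finset.mem_image_of_mem _ (Finset.mem_univ i))
  have hK : ∀ i, K i ≤ K' := fun i => hK' _ (Finset.mem_image_of_mem _ (Finset.mem_univ i))
  choose y' hy'0 hy' using fun i => step_level (p := p) (n i) (K i) n' K' (hn i) (hK i) (y i)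
  refine ⟨(1 / 2) ^ n', K' * 2 ^ n', y', by positivity, hy'0, fun i => ?_⟩
  rw [← hy' i]
  exact hy i

lemma hs_sum_extend (K M : ℕ) (hKM : K ≤ M) (f : ℕ → ℂ) (hf : ∀ m, K ≤ m → f m = 0) :
    ∑ m ∈ Finset.range K, f m = ∑ m ∈ Finset.range M, f m := by
  refine Finset.sum_subset (Finset.range_mono hKM) fun m _ hm => ?_
  exact hf m (by simpa using hm)

/-- Claim E -/
theorem hs_claimE (hp : p ≠ ∞) {q : ℝ} (hpq : p.toReal.HolderConjugate q)
    (hS : TheoremS p.toReal q) (φ : Y p →L[ℂ] ℂ) (f : Y p) (hf : φ f ≠ 0) {k : ℕ}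
    (g : Fin k → Y p) (hg : ∀ i u, 0 ≤ u → φ (V p u (g i)) = 0) {ε : ℝ} (hε : 0 < ε) :
    ∃ E : Finset Ix, (∀ i, ∃ x ∈ fsp (ex p) E, ‖g i - x‖ < ε) ∧
      ‖φ f‖ / (4 * (‖φ‖ + 1)) ≤ Metric.infDist f (fsp (ex p) E : Set (Y p)) := by
  classical
  set r : ℝ := p.toReal with hr
  have hr0 : 0 < r := toReal_pos' hp
  have hq0 : 0 < q := hpq.symm.pos
  have hφf : 0 < ‖φ f‖ := norm_pos_iff.mpr hf
  have hφ0 : 0 ≤ ‖φ‖ := norm_nonneg _
  -- constants
  set ε₁ : ℝ := min 1 (‖φ f‖ / (8 * (‖f‖ + 1))) with hε₁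
  have hε₁0 : 0 < ε₁ := by positivity
  set εS : ℝ := min ((ε / 4) ^ r) (ε₁ ^ q) with hεS
  have hεS0 : 0 < εS := by positivity
  obtain ⟨κ, hκ, hmain⟩ := hS εS hεS0 k
  set κ' : ℝ := min (ε / 4) (min (κ / (‖φ‖ + 1)) (‖φ f‖ / (16 * (‖φ‖ + 1)))) with hκ'
  have hκ'0 : 0 < κ' := by positivity
  -- step functions
  obtain ⟨l, I, y, hl, hy0, hy⟩ := hs_common_step hp (Fin.cons f g : Fin (k + 1) → Y p) hκ'0
  have hyf : ‖f - ∑ m ∈ Finset.range I, y 0 m • bx p l m‖ < κ' := by simpa using hy 0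
  have hyg : ∀ i : Fin k, ‖g i - ∑ m ∈ Finset.range I, y i.succ m • bx p l m‖ < κ' := by
    intro i; simpa using hy i.succ
  set s : ℝ := l ^ (1 / r) with hs
  have hs0 : 0 < s := Real.rpow_pos_of_pos hl _
  have hsC : (s : ℂ) ≠ 0 := by exact_mod_cast hs0.ne'
  set c : ℕ → ℂ := fun n => if n < I then (s : ℂ)⁻¹ * φ (bx p l n) else 0 with hc
  set a : Fin k → ℕ → ℂ := fun i n => (s : ℂ) * y i.succ n with ha
  have hc0 : ∀ n, I ≤ n → c n = 0 := fun n hn => if_neg (not_lt.mpr hn)
  have ha0 : ∀ i n, I ≤ n → a i n = 0 := fun i n hn => by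
    simp only [ha]; rw [hy0 _ n hn, mul_zero]
  obtain ⟨U, x, hUn, hU0, hxs, hxU, hUc, hxa⟩ := hmain I c a hc0 ha0 (by
    intro i N v B hB hMB
    set P : ℂ[X] := ∑ j ∈ Finset.range N, Polynomial.monomial j (v j) with hP
    have hPB : ‖Polynomial.aeval (V p l) P‖ ≤ B := transf hp hl B hB N v hMB
    have h1 : φ (Polynomial.aeval (V p l) P (∑ m ∈ Finset.range I, y i.succ m • bx p l m))
        = ∑ j ∈ Finset.range N, v j * ∑ m ∈ Finset.range I, c m * a i (j + m) := by
      rw [hP, transf_eq hl, _root_.sum_apply, map_sum]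
      refine Finset.sum_congr rfl fun j _ => ?_
      rw [_root_.smul_apply, map_smul, smul_eq_mul, V_step hl I j _ (hy0 _), map_sum]
      congr 1
      refine Finset.sum_congr rfl fun m hm => ?_
      rw [map_smul, smul_eq_mul]
      simp only [hc, ha]
      rw [if_pos (Finset.mem_range.mp hm), add_comm j m]
      field_simp
    have h2 : φ (Polynomial.aeval (V p l) P (g i)) = 0 := by
      rw [hP, transf_eq hl, _root_.sum_apply, map_sum]
      refine Finset.sum_eq_zero fun j _ => ?_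
      rw [_root_.smul_apply, map_smul, hg i _ (by positivity), smul_zero]
    have h3 : ∑ j ∈ Finset.range N, v j * ∑ m ∈ Finset.range I, c m * a i (j + m)
        = -φ (Polynomial.aeval (V p l) P (g i - ∑ m ∈ Finset.range I, y i.succ m • bx p l m)) := by
      rw [map_sub, map_sub, h2, h1]; ring
    rw [h3, norm_neg]
    calc ‖φ (Polynomial.aeval (V p l) P (g i - ∑ m ∈ Finset.range I, y i.succ m • bx p l m))‖
        ≤ ‖φ‖ * ‖Polynomial.aeval (V p l) P (g i - ∑ m ∈ Finset.range I, y i.succ m • bx p l m)‖ :=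
          φ.le_opNorm _
      _ ≤ ‖φ‖ * (B * κ') := by
          gcongr
          refine ((Polynomial.aeval (V p l) P).le_opNorm _).trans ?_
          exact mul_le_mul hPB (hyg i).le (norm_nonneg _) hB
      _ ≤ ‖φ‖ * (B * (κ / (‖φ‖ + 1))) := by
          gcongr
          exact (min_le_right _ _).trans (min_le_left _ _)
      _ = (‖φ‖ / (‖φ‖ + 1)) * (κ * B) := by ring
      _ ≤ 1 * (κ * B) := by
          gcongr
          rw [div_le_one (by positivity)]; linarith
      _ = κ * B := one_mul _)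
  -- the elements of the kernel
  have hxs' : ∀ i, Summable fun n => ‖(s : ℂ)⁻¹ * x i n‖ := by
    intro i
    simp only [norm_mul]
    exact (hxs i).mul_left _
  set x' : Fin k → Y p := fun i => hstep p l (fun n => (s : ℂ)⁻¹ * x i n) with hx'
  have hx'ker : ∀ i, Polynomial.aeval (V p l) U (x' i) = 0 := by
    intro i
    refine hs_hstep_ker hp hl U (hxs' i) fun j => ?_
    have := hxU i j
    calc ∑ m ∈ Finset.range (U.natDegree + 1), U.coeff m * ((s : ℂ)⁻¹ * x i (j + m))
        = (s : ℂ)⁻¹ * ∑ m ∈ Finset.range (U.natDegree + 1), U.coeff m * x i (j + m) := by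
          rw [Finset.mul_sum]
          exact Finset.sum_congr rfl fun m _ => by ring
      _ = 0 := by rw [this, mul_zero]
  have hsl : ENNReal.ofReal l * ‖(s : ℂ)⁻¹‖ₑ ^ r = 1 := by
    have h1 : ‖(s : ℂ)⁻¹‖ₑ = ENNReal.ofReal s⁻¹ := by
      rw [← ofReal_norm, norm_inv, Complex.norm_real, Real.norm_of_nonneg hs0.le]
    rw [h1, ENNReal.ofReal_rpow_of_pos (by positivity), ← ENNReal.ofReal_mul hl.le,
      Real.inv_rpow hs0.le, hs, ← Real.rpow_mul hl.le, one_div, inv_mul_cancel₀ hr0.ne',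
      Real.rpow_one, mul_inv_cancel₀ hl.ne', ENNReal.ofReal_one]
  have hx's : ∀ i, ‖x' i - ∑ m ∈ Finset.range I, y i.succ m • bx p l m‖ ≤ ε / 4 := by
    intro i
    have hys : Summable fun n => ‖y i.succ n‖ := by
      refine summable_of_ne_finset_zero (s := Finset.range I) fun n hn => ?_
      rw [hy0 _ n (by simpa using hn), norm_zero]
    have h1 : x' i - ∑ m ∈ Finset.range I, y i.succ m • bx p l m
        = hstep p l (fun n => (s : ℂ)⁻¹ * (x i n - a i n)) := by
      rw [← hs_hstep_finite l I _ (hy0 _)]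
      have h2 : (fun n => (s : ℂ)⁻¹ * (x i n - a i n))
          = fun n => (s : ℂ)⁻¹ * x i n + (-1) * y i.succ n := by
        ext n
        simp only [ha]
        field_simp
        ring
      rw [h2, hs_hstep_add hp hl (hxs' i) (by simpa using hys),
        hs_hstep_smul (p := p) l (-1) (y i.succ), neg_smul, one_smul, sub_eq_add_neg]
    have h3 : Summable fun n => ‖(s : ℂ)⁻¹ * (x i n - a i n)‖ := by
      have h4 : Summable fun n => ‖a i n‖ := by
        simp only [ha, norm_mul]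
        exact hys.mul_left _
      simp only [norm_mul]
      refine Summable.mul_left _ ?_
      exact Summable.of_nonneg_of_le (fun n => norm_nonneg _) (fun n => norm_sub_le _ _)
        ((hxs i).add h4)
    have h5 := hs_enorm_hstep hp hl h3
    rw [← h1] at h5
    have h6 : ENNReal.ofReal l * ∑' n : ℕ, ‖(s : ℂ)⁻¹ * (x i n - a i n)‖ₑ ^ r
        = ∑' n : ℕ, ‖x i n - a i n‖ₑ ^ r := by
      have h7 : ∀ n, ‖(s : ℂ)⁻¹ * (x i n - a i n)‖ₑ ^ r = ‖(s : ℂ)⁻¹‖ₑ ^ r * ‖x i n - a i n‖ₑ ^ r := by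
        intro n
        rw [enorm_mul, ENNReal.mul_rpow_of_nonneg _ _ hr0.le]
      simp only [h7]
      rw [ENNReal.tsum_mul_left, ← mul_assoc, hsl, one_mul]
    rw [← hr, h6] at h5
    have h8 : ‖x' i - ∑ m ∈ Finset.range I, y i.succ m • bx p l m‖ₑ ^ r
        ≤ ENNReal.ofReal ((ε / 4) ^ r) :=
      h5.trans ((hxa i).trans (ENNReal.ofReal_le_ofReal (min_le_left _ _)))
    rw [← ENNReal.ofReal_rpow_of_pos (by positivity), ENNReal.rpow_le_rpow_iff hr0,
      ← ofReal_norm] at h8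
    exact (ENNReal.ofReal_le_ofReal_iff (by positivity)).mp h8
  -- exponentials
  choose E hE z hz hzd using fun i => hs_ker_exp hp hl U hUn hU0 (x' i) (hx'ker i)
    (show 0 < ε / 4 by positivity)
  refine ⟨Finset.univ.biUnion E, fun i => ⟨z i, ?_, ?_⟩, ?_⟩
  · exact Submodule.span_mono (Set.image_mono (by
      intro b hb
      exact Finset.mem_biUnion.mpr ⟨i, Finset.mem_univ i, hb⟩)) (hz i)
  · have h1 : g i - z i = (g i - ∑ m ∈ Finset.range I, y i.succ m • bx p l m)
        - (x' i - ∑ m ∈ Finset.range I, y i.succ m • bx p l m) + (x' i - z i) := by abel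
    rw [h1]
    calc _ ≤ ‖g i - ∑ m ∈ Finset.range I, y i.succ m • bx p l m‖
        + ‖x' i - ∑ m ∈ Finset.range I, y i.succ m • bx p l m‖ + ‖x' i - z i‖ :=
          (norm_add_le _ _).trans (by gcongr; exact norm_sub_le _ _)
      _ < ε / 4 + ε / 4 + ε / 4 := by
          have h2 := (hyg i).trans_le (min_le_left _ _)
          have h3 := hx's i
          have h4 := hzd i
          linarith
      _ ≤ ε := by linarith
  · -- separation
    have hker : ∀ e ∈ fsp (ex p) (Finset.univ.biUnion E), Polynomial.aeval (V p l) U e = 0 := by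
      intro e he
      refine hs_fsp_ker hl U _ (fun b hb => ?_) he
      obtain ⟨i, -, hb⟩ := Finset.mem_biUnion.mp hb
      exact hE i b hb
    set M : ℕ := max (U.natDegree + 1) I with hM
    -- the two functionals
    set ψ : Y p → ℂ := fun h => ∑ m ∈ Finset.range M, U.coeff m * ((s : ℂ) * avg l m h) with hψ
    set ψc : Y p → ℂ := fun h => ∑ m ∈ Finset.range M, c m * ((s : ℂ) * avg l m h) with hψc
    have hψker : ∀ e ∈ fsp (ex p) (Finset.univ.biUnion E), ψ e = 0 := by
      intro e he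
      have h1 := hs_psi_ker hl U (hker e he)
      have h2 : ψ e = (s : ℂ) * ∑ m ∈ Finset.range M, U.coeff m * avg l m e := by
        simp only [hψ]
        rw [Finset.mul_sum]
        exact Finset.sum_congr rfl fun m _ => by ring
      rw [h2, ← hs_sum_extend (U.natDegree + 1) M (le_max_left _ _) _ (fun m hm => by
        rw [Polynomial.coeff_eq_zero_of_natDegree_lt (by omega), zero_mul]), h1, mul_zero]
    have hψcφ : ∀ h : Y p, ψc h = φ (∑ m ∈ Finset.range I, avg l m h • bx p l m) := by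
      intro h
      simp only [hψc]
      rw [← hs_sum_extend I M (le_max_right _ _) _ (fun m hm => by rw [hc0 m hm, zero_mul]),
        map_sum]
      refine Finset.sum_congr rfl fun m hm => ?_
      rw [map_smul, smul_eq_mul]
      simp only [hc]
      rw [if_pos (Finset.mem_range.mp hm)]
      field_simp
    have hψsub : ∀ h h' : Y p, ψ (h - h') = ψ h - ψ h' := by
      intro h h'
      simp only [hψ, map_sub]
      rw [← Finset.sum_sub_distrib]
      exact Finset.sum_congr rfl fun m _ => by ring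
    have hdiff : ∀ h : Y p, ‖ψ h - ψc h‖ ≤ ε₁ * ‖h‖ := by
      intro h
      have h1 : ψ h - ψc h = ∑ m ∈ Finset.range M, (U.coeff m - c m) * ((s : ℂ) * avg l m h) := by
        simp only [hψ, hψc]
        rw [← Finset.sum_sub_distrib]
        exact Finset.sum_congr rfl fun m _ => by ring
      have h2 := hs_psi_bound hp hpq hl M (fun m => U.coeff m - c m) h
      rw [← hr, ← hs, ← h1] at h2
      have h3 : (∑ m ∈ Finset.range M, ‖U.coeff m - c m‖ₑ ^ q) ^ (1 / q) ≤ ENNReal.ofReal ε₁ := by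
        have h4 : ∑ m ∈ Finset.range M, ‖U.coeff m - c m‖ₑ ^ q ≤ (ENNReal.ofReal ε₁) ^ q := by
          rw [ENNReal.ofReal_rpow_of_pos hε₁0]
          exact (ENNReal.sum_le_tsum _).trans
            (hUc.trans (ENNReal.ofReal_le_ofReal (min_le_right _ _)))
        calc (∑ m ∈ Finset.range M, ‖U.coeff m - c m‖ₑ ^ q) ^ (1 / q)
            ≤ ((ENNReal.ofReal ε₁) ^ q) ^ (1 / q) := by gcongr
          _ = ENNReal.ofReal ε₁ := by
              rw [← ENNReal.rpow_mul, mul_one_div_cancel hq0.ne', ENNReal.rpow_one]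
      have h5 : ‖ψ h - ψc h‖ₑ ≤ ENNReal.ofReal (ε₁ * ‖h‖) := by
        refine h2.trans ?_
        rw [ENNReal.ofReal_mul hε₁0.le, ofReal_norm]
        gcongr
      rw [← ofReal_norm] at h5
      exact (ENNReal.ofReal_le_ofReal_iff (by positivity)).mp h5
    have hψcb : ∀ h : Y p, ‖ψc h‖ ≤ ‖φ‖ * ‖h‖ := by
      intro h
      rw [hψcφ]
      exact (φ.le_opNorm _).trans (by gcongr; exact enorm_avg_le hp hl I h)
    have hψb : ∀ h : Y p, ‖ψ h‖ ≤ (‖φ‖ + 1) * ‖h‖ := by
      intro h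
      have h1 : ψ h = (ψ h - ψc h) + ψc h := by ring
      rw [h1]
      calc _ ≤ ‖ψ h - ψc h‖ + ‖ψc h‖ := norm_add_le _ _
        _ ≤ ε₁ * ‖h‖ + ‖φ‖ * ‖h‖ := add_le_add (hdiff h) (hψcb h)
        _ ≤ 1 * ‖h‖ + ‖φ‖ * ‖h‖ := by gcongr; exact min_le_left _ _
        _ = _ := by ring
    -- the vector `f`
    set sf : Y p := ∑ m ∈ Finset.range I, y 0 m • bx p l m with hsf
    have hAf : ‖(∑ m ∈ Finset.range I, avg l m f • bx p l m) - f‖ ≤ 2 * κ' := by
      have h1 : (∑ m ∈ Finset.range I, avg l m sf • bx p l m) = sf := by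
        rw [hsf]
        refine Finset.sum_congr rfl fun m hm => ?_
        congr 1
        rw [map_sum]
        rw [Finset.sum_eq_single_of_mem m hm]
        · rw [map_smul, avg_bx hl, if_pos rfl, smul_eq_mul, mul_one]
        · intro j _ hj
          rw [map_smul, avg_bx hl, if_neg (Ne.symm hj), smul_zero]
      have h2 : (∑ m ∈ Finset.range I, avg l m f • bx p l m) - f
          = (∑ m ∈ Finset.range I, avg l m (f - sf) • bx p l m) - (f - sf) := by
        have h3 : (∑ m ∈ Finset.range I, avg l m (f - sf) • bx p l m)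
            = (∑ m ∈ Finset.range I, avg l m f • bx p l m) - sf := by
          conv_rhs => rw [← h1]
          rw [← Finset.sum_sub_distrib]
          refine Finset.sum_congr rfl fun m _ => ?_
          rw [map_sub, sub_smul]
        rw [h3]; abel
      rw [h2]
      calc _ ≤ ‖∑ m ∈ Finset.range I, avg l m (f - sf) • bx p l m‖ + ‖f - sf‖ := norm_sub_le _ _
        _ ≤ ‖f - sf‖ + ‖f - sf‖ := by gcongr; exact enorm_avg_le hp hl I _
        _ ≤ 2 * κ' := by linarith [hyf.le]
    have hne : (fsp (ex p) (Finset.univ.biUnion E) : Set (Y p)).Nonempty :=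
      ⟨0, Submodule.zero_mem _⟩
    refine (Metric.le_infDist hne).mpr fun e he => ?_
    rw [dist_eq_norm]
    have h1 : φ f = φ (f - ∑ m ∈ Finset.range I, avg l m f • bx p l m) + (ψc f - ψ f)
        + ψ (f - e) := by
      rw [hψsub, hψker e he, map_sub, ← hψcφ]; ring
    have h2 : ‖φ f‖ ≤ ‖φ‖ * (2 * κ') + ε₁ * ‖f‖ + (‖φ‖ + 1) * ‖f - e‖ := by
      rw [h1]
      refine (norm_add_le _ _).trans ?_
      refine add_le_add ((norm_add_le _ _).trans (add_le_add ?_ ?_)) (hψb _)
      · refine (φ.le_opNorm _).trans ?_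
        gcongr
        rw [norm_sub_rev]; exact hAf
      · rw [norm_sub_rev]; exact hdiff f
    have h3 : ‖φ‖ * (2 * κ') ≤ ‖φ f‖ / 8 := by
      have h4 : κ' ≤ ‖φ f‖ / (16 * (‖φ‖ + 1)) := (min_le_right _ _).trans (min_le_right _ _)
      calc ‖φ‖ * (2 * κ') ≤ ‖φ‖ * (2 * (‖φ f‖ / (16 * (‖φ‖ + 1)))) := by gcongr
        _ = (‖φ‖ / (‖φ‖ + 1)) * (‖φ f‖ / 8) := by field_simp; ring
        _ ≤ 1 * (‖φ f‖ / 8) := by
            gcongr
            rw [div_le_one (by positivity)]; linarith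
        _ = _ := one_mul _
    have h5 : ε₁ * ‖f‖ ≤ ‖φ f‖ / 8 := by
      calc ε₁ * ‖f‖ ≤ (‖φ f‖ / (8 * (‖f‖ + 1))) * ‖f‖ := by gcongr; exact min_le_right _ _
        _ = (‖f‖ / (‖f‖ + 1)) * (‖φ f‖ / 8) := by field_simp
        _ ≤ 1 * (‖φ f‖ / 8) := by
            gcongr
            rw [div_le_one (by positivity)]; linarith
        _ = _ := one_mul _
    rw [div_le_iff₀ (by positivity)]
    nlinarith
end DC8965
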