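import Pool.Agent.Lib.MP_dc8965_an.Half
import Pool.Agent.Lib.MP_dc8965_an.HSDefs

/-!
Kernels of polynomials in one translation are limits of exponentials.
-/

open MeasureTheory Filter Topology Set
open scoped ENNReal NNReal Polynomial

namespace DC8965

variable {p : ℝ≥0∞} [Fact (1 ≤ p)]

/-- kernels of polynomials with simple nonzero roots are limits of exponentials -/
lemma hs_ker_exp (hp : p ≠ ∞) {l : ℝ} (hl : 0 < l) (U : ℂ[X]) (hU : U.roots.Nodup)
    (hU0 : U.eval 0 ≠ 0) (g : Y p) (hg : Polynomial.aeval (V p l) U g = 0) {ε : ℝ} (hε : 0 < ε) :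
    ∃ E : Finset Ix, (∀ b ∈ E, U.eval (Complex.exp (-b.1 * l)) = 0) ∧
      ∃ x ∈ fsp (ex p) E, ‖g - x‖ < ε := by
  classical
  have hne : U ≠ 0 := by
    rintro rfl
    simp at hU0
  let W : Finset ℂ := U.roots.toFinset
  have hsplit : U = Polynomial.C U.leadingCoeff * ∏ w ∈ W, (Polynomial.X - Polynomial.C w) := by
    have h1 := (IsAlgClosed.splits U).eq_prod_roots
    have h2 : (U.roots.map fun a => Polynomial.X - Polynomial.C a).prod
        = ∏ w ∈ W, (Polynomial.X - Polynomial.C w) := by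
      rw [Finset.prod_multiset_map_count]
      refine Finset.prod_congr rfl fun w hw => ?_
      have h3 : U.roots.count w = 1 :=
        Multiset.count_eq_one_of_mem hU (Multiset.mem_toFinset.mp hw)
      rw [h3, pow_one]
    rw [← h2]; exact h1
  have hW0 : ∀ w ∈ W, w ≠ 0 := by
    intro w hw h0
    have h1 : U.IsRoot w := (Polynomial.mem_roots hne).mp (Multiset.mem_toFinset.mp hw)
    rw [h0] at h1
    exact hU0 h1.eq_zero
  have hWroot : ∀ w ∈ W, U.eval w = 0 := fun w hw =>
    ((Polynomial.mem_roots hne).mp (Multiset.mem_toFinset.mp hw)).eq_zero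
  have hker1 : Polynomial.aeval (V p l) (∏ w ∈ W, (Polynomial.X - Polynomial.C w)) g = 0 := by
    have h1 : Polynomial.aeval (V p l) U g = U.leadingCoeff •
        Polynomial.aeval (V p l) (∏ w ∈ W, (Polynomial.X - Polynomial.C w)) g := by
      conv_lhs => rw [hsplit]
      rw [map_mul, Polynomial.aeval_C, Algebra.algebraMap_eq_smul_one, smul_mul_assoc, one_mul,
        _root_.smul_apply]
    rw [hg] at h1
    exact (smul_eq_zero.mp h1.symm).resolve_left (Polynomial.leadingCoeff_ne_zero.mpr hne)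
  rcases W.eq_empty_or_nonempty with hW | hW
  · refine ⟨∅, by simp, 0, Submodule.zero_mem _, ?_⟩
    rw [hW, Finset.prod_empty, map_one] at hker1
    have h2 : g = 0 := by simpa using hker1
    rw [h2]; simpa using hε
  · obtain ⟨gs, hgs, hgsw⟩ := ker_decomp (V p l) W hW _ hker1
    have hWcard : (0 : ℝ) < W.card := by exact_mod_cast hW.card_pos
    have hch : ∀ w ∈ W, ∃ E : Finset Ix, (∀ b ∈ E, Complex.exp (-b.1 * l) = w) ∧
        ∃ x ∈ fsp (ex p) E, ‖gs w - x‖ < ε / W.card := fun w hw =>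
      kerApprox hp hl (hW0 w hw) (hgsw w hw) (div_pos hε hWcard)
    choose! Ew hEw xw hxw hxwd using hch
    refine ⟨W.biUnion Ew, ?_, ∑ w ∈ W, xw w, ?_, ?_⟩
    · intro b hb
      obtain ⟨w, hw, hb⟩ := Finset.mem_biUnion.mp hb
      rw [hEw w hw b hb]
      exact hWroot w hw
    · refine Submodule.sum_mem _ fun w hw => ?_
      exact Submodule.span_mono (Set.image_mono (by
        intro i hi
        exact Finset.mem_biUnion.mpr ⟨w, hw, hi⟩)) (hxw w hw)
    · have h1 : g - ∑ w ∈ W, xw w = ∑ w ∈ W, (gs w - xw w) := by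
        rw [Finset.sum_sub_distrib, ← hgs]
      rw [h1]
      calc ‖∑ w ∈ W, (gs w - xw w)‖ ≤ ∑ w ∈ W, ‖gs w - xw w‖ := norm_sum_le _ _
        _ < ∑ _w ∈ W, ε / W.card := Finset.sum_lt_sum_of_nonempty hW fun w hw => hxwd w hw
        _ = ε := by
            rw [Finset.sum_const, nsmul_eq_mul]; exact mul_div_cancel₀ ε hWcard.ne'

/-- the exponentials found above lie in the kernel -/
lemma hs_fsp_ker {l : ℝ} (hl : 0 < l) (U : ℂ[X]) (E : Finset Ix)
    (hE : ∀ b ∈ E, U.eval (Complex.exp (-b.1 * l)) = 0) {x : Y p} (hx : x ∈ fsp (ex p) E) :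
    Polynomial.aeval (V p l) U x = 0 := by
  have h1 : fsp (ex p) E ≤ LinearMap.ker ((Polynomial.aeval (V p l) U : Y p →L[ℂ] Y p) : Y p →ₗ[ℂ] Y p) := by
    rw [fsp, Submodule.span_le]
    rintro _ ⟨b, hb, rfl⟩
    change Polynomial.aeval (V p l) U (ex p b) = 0
    rw [aeval_eigen (V p l) (V_ex hl.le b) U, hE b hb, zero_smul]
  exact h1 hx

end DC8965
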