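import Pool.Agent.Lib.MP_dc8965_an.Defs

open MeasureTheory Filter Topology Set
open scoped ENNReal NNReal

namespace DC8965

lemma nu_Ioc_ne_top (a b : ℝ) : nu (Set.Ioc a b) ≠ ∞ := by
  rw [nu, Measure.restrict_apply measurableSet_Ioc]
  exact ((measure_mono Set.inter_subset_left).trans_lt measure_Ioc_lt_top).ne

/-- The indicator function of `(i l, (i+1) l]` in `L^p(0,∞)`. -/
noncomputable def bx (p : ℝ≥0∞) (l : ℝ) (i : ℕ) : Y p :=
  indicatorConstLp p (measurableSet_Ioc (a := i * l) (b := (i + 1) * l)) (nu_Ioc_ne_top _ _) (1 : ℂ)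

variable {p : ℝ≥0∞} [Fact (1 ≤ p)]

lemma integrableOn_box (g : Y p) (a b : ℝ) : IntegrableOn g (Set.Ioc a b) nu := by
  have : IsFiniteMeasure (nu.restrict (Set.Ioc a b)) :=
    ⟨by rw [Measure.restrict_apply_univ]; exact (nu_Ioc_ne_top a b).lt_top⟩
  exact ((Lp.memLp g).restrict _).integrable Fact.out

/-- The average of `g` over `(i l, (i+1) l]`. -/
noncomputable def avg (l : ℝ) (i : ℕ) : Y p →ₗ[ℂ] ℂ where
  toFun g := ((1 / l : ℝ) : ℂ) * ∫ t in Set.Ioc (i * l) ((i + 1) * l), g t ∂nu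
  map_add' f g := by
    rw [← mul_add, ← integral_add (integrableOn_box f _ _) (integrableOn_box g _ _)]
    congr 1
    refine integral_congr_ae (ae_restrict_of_ae ?_)
    filter_upwards [Lp.coeFn_add f g] with t ht
    rw [ht, Pi.add_apply]
  map_smul' c g := by
    rw [RingHom.id_apply, smul_eq_mul, ← mul_assoc, mul_comm c, mul_assoc, ← smul_eq_mul c,
      ← integral_smul]
    congr 1
    refine integral_congr_ae (ae_restrict_of_ae ?_)
    filter_upwards [Lp.coeFn_smul c g] with t ht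
    rw [ht, Pi.smul_apply]

lemma avg_def (l : ℝ) (i : ℕ) (g : Y p) :
    avg l i g = ((1 / l : ℝ) : ℂ) * ∫ t in Set.Ioc (i * l) ((i + 1) * l), g t ∂nu := rfl

lemma bx_ae (l : ℝ) (i : ℕ) :
    ⇑(bx p l i) =ᵐ[nu] Set.indicator (Set.Ioc (i * l) ((i + 1) * l)) (fun _ => (1 : ℂ)) :=
  indicatorConstLp_coeFn

/-- (S1) -/
theorem avg_V {l : ℝ} (hl : 0 < l) (i : ℕ) (g : Y p) : avg l i g = avg l 0 (V p (i * l) g) := by
  have hil : 0 ≤ (i : ℝ) * l := by positivity
  rw [avg_def, avg_def]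
  congr 1
  have h1 : ∫ t in Set.Ioc ((0 : ℕ) * l) (((0 : ℕ) + 1) * l), (V p (i * l) g) t ∂nu
      = ∫ t in Set.Ioc ((0 : ℕ) * l) (((0 : ℕ) + 1) * l), g (t + i * l) ∂nu :=
    integral_congr_ae (ae_restrict_of_ae (V_ae hil g))
  rw [h1]
  have hres : ∀ a b : ℝ, 0 ≤ a → nu.restrict (Set.Ioc a b) = volume.restrict (Set.Ioc a b) := by
    intro a b ha
    rw [nu, Measure.restrict_restrict measurableSet_Ioc]
    congr 1
    exact Set.inter_eq_left.mpr fun x hx => lt_of_le_of_lt ha hx.1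
  rw [hres _ _ hil, hres _ _ (by simp)]
  have h2 := (measurePreserving_add_right volume ((i : ℝ) * l)).setIntegral_preimage_emb
    (measurableEmbedding_addRight ((i : ℝ) * l)) g (Set.Ioc (i * l) ((i + 1) * l))
  rw [← h2]
  congr 2
  ext x
  simp only [Set.mem_preimage, Set.mem_Ioc, Nat.cast_zero, zero_mul, zero_add, one_mul]
  constructor
  · rintro ⟨h1, h2⟩; exact ⟨by linarith, by nlinarith⟩
  · rintro ⟨h1, h2⟩; exact ⟨by linarith, by nlinarith⟩

/-- (S2) -/
theorem V_bx {l : ℝ} (hl : 0 < l) (i k : ℕ) :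
    V p (i * l) (bx p l k) = if i ≤ k then bx p l (k - i) else 0 := by
  have hil : 0 ≤ (i : ℝ) * l := by positivity
  have h1 := V_ae hil (bx p l k)
  have h2 := (qmp_shift hil).ae (bx_ae (p := p) l k)
  have h3 : ∀ᵐ t ∂nu, 0 < t := by
    rw [nu]; exact ae_restrict_mem measurableSet_Ioi
  split_ifs with hik
  · apply Lp.ext
    filter_upwards [h1, h2, bx_ae (p := p) l (k - i)] with t h1 h2 h4
    rw [h1, h2, h4]
    have hc : ((k - i : ℕ) : ℝ) = k - i := by push_cast [Nat.cast_sub hik]; ring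
    simp only [Set.indicator_apply, Set.mem_Ioc, hc]
    have : ((k : ℝ) * l < t + i * l ∧ t + i * l ≤ (k + 1) * l) ↔
        (((k : ℝ) - i) * l < t ∧ t ≤ ((k : ℝ) - i + 1) * l) := by
      constructor
      · rintro ⟨h1, h2⟩; exact ⟨by linarith, by linarith⟩
      · rintro ⟨h1, h2⟩; exact ⟨by linarith, by linarith⟩
    simp only [this]
  · apply Lp.ext
    filter_upwards [h1, h2, h3, Lp.coeFn_zero ℂ p nu] with t h1 h2 h3 h4
    rw [h1, h2, h4, Set.indicator_of_notMem, Pi.zero_apply]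
    rintro ⟨-, h6⟩
    have h7 : (k : ℝ) + 1 ≤ i := by exact_mod_cast not_le.mp hik
    nlinarith

lemma nu_box {l : ℝ} (hl : 0 < l) (i : ℕ) :
    nu (Set.Ioc (i * l) ((i + 1) * l)) = ENNReal.ofReal l := by
  have hil : 0 ≤ (i : ℝ) * l := by positivity
  rw [nu, Measure.restrict_apply measurableSet_Ioc, Set.inter_eq_left.mpr, Real.volume_Ioc]
  · congr 1; ring
  · exact fun x hx => lt_of_le_of_lt hil hx.1

lemma box_unique {l : ℝ} (hl : 0 < l) {i k : ℕ} {t : ℝ} (h1 : t ∈ Set.Ioc (i * l) ((i + 1) * l))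
    (h2 : t ∈ Set.Ioc (k * l) ((k + 1) * l)) : i = k := by
  have a1 : (i : ℝ) * l < (k + 1) * l := h1.1.trans_le h2.2
  have a2 : (k : ℝ) * l < (i + 1) * l := h2.1.trans_le h1.2
  have b1 : (i : ℝ) < k + 1 := lt_of_mul_lt_mul_right a1 hl.le
  have b2 : (k : ℝ) < i + 1 := lt_of_mul_lt_mul_right a2 hl.le
  have c1 : i < k + 1 := by exact_mod_cast b1
  have c2 : k < i + 1 := by exact_mod_cast b2
  omega

/-- (S3) -/
theorem avg_bx {l : ℝ} (hl : 0 < l) (i k : ℕ) : avg l i (bx p l k) = if i = k then 1 else 0 := by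
  rw [avg_def]
  have h1 : ∫ t in Set.Ioc (i * l) ((i + 1) * l), (bx p l k) t ∂nu
      = ∫ t in Set.Ioc (i * l) ((i + 1) * l), (if i = k then (1 : ℂ) else 0) ∂nu := by
    refine integral_congr_ae ?_
    filter_upwards [ae_restrict_of_ae (bx_ae (p := p) l k), ae_restrict_mem measurableSet_Ioc] with t h1 h2
    rw [h1, Set.indicator_apply]
    split_ifs with h3 h4 h4
    · rfl
    · exact absurd (box_unique hl h2 h3) h4
    · subst h4; exact absurd h2 h3
    · rfl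
  rw [h1, setIntegral_const, Measure.real, nu_box hl, ENNReal.toReal_ofReal hl.le]
  split_ifs with h
  · rw [Complex.real_smul, mul_one]
    push_cast
    rw [one_div, inv_mul_cancel₀]
    exact_mod_cast hl.ne'
  · simp

lemma toReal_pos' (hp : p ≠ ∞) : 0 < p.toReal := by
  have : (1 : ℝ≥0∞) ≤ p := Fact.out
  exact ENNReal.toReal_pos (zero_lt_one.trans_le this).ne' hp

lemma enorm_rpow_eq (hp : p ≠ ∞) (g : Y p) :
    ‖g‖ₑ ^ p.toReal = ∫⁻ t, ‖g t‖ₑ ^ p.toReal ∂nu := by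
  have hp0 : p ≠ 0 := by
    have : (1 : ℝ≥0∞) ≤ p := Fact.out
    exact (zero_lt_one.trans_le this).ne'
  rw [Lp.enorm_def, eLpNorm_eq_lintegral_rpow_enorm_toReal hp0 hp, ← ENNReal.rpow_mul,
    one_div, inv_mul_cancel₀ (toReal_pos' hp).ne', ENNReal.rpow_one]

lemma step_ae (l : ℝ) (I : ℕ) (y : ℕ → ℂ) :
    ⇑(∑ i ∈ Finset.range I, y i • bx p l i) =ᵐ[nu] fun t =>
      ∑ i ∈ Finset.range I, Set.indicator (Set.Ioc (i * l) ((i + 1) * l)) (fun _ => y i) t := by
  have h1 := Lp.coeFn_finsetSum (Finset.range I) (fun i => y i • bx p l i)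
  have h2 : ∀ᵐ t ∂nu, ∀ i ∈ Finset.range I, (y i • bx p l i) t
      = Set.indicator (Set.Ioc (i * l) ((i + 1) * l)) (fun _ => y i) t := by
    rw [Finset.eventually_all]
    intro i _
    filter_upwards [Lp.coeFn_smul (y i) (bx p l i), bx_ae (p := p) l i] with t h3 h4
    rw [h3, Pi.smul_apply, h4]
    simp only [Set.indicator_apply]
    split_ifs <;> simp
  filter_upwards [h1, h2] with t h1 h2
  rw [h1, Finset.sum_apply]
  exact Finset.sum_congr rfl h2

lemma step_enorm {l : ℝ} (hl : 0 < l) (I : ℕ) (y : ℕ → ℂ) (t : ℝ) {q : ℝ} (hq : 0 < q) :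
    ‖∑ i ∈ Finset.range I, Set.indicator (Set.Ioc (i * l) ((i + 1) * l)) (fun _ => y i) t‖ₑ ^ q
      = ∑ i ∈ Finset.range I,
          Set.indicator (Set.Ioc (i * l) ((i + 1) * l)) (fun _ => ‖y i‖ₑ ^ q) t := by
  by_cases h : ∃ k ∈ Finset.range I, t ∈ Set.Ioc (k * l) ((k + 1) * l)
  · obtain ⟨k, hk, hkt⟩ := h
    rw [Finset.sum_eq_single_of_mem k hk, Finset.sum_eq_single_of_mem k hk,
      Set.indicator_of_mem hkt, Set.indicator_of_mem hkt]
    · intro j _ hjk
      exact Set.indicator_of_notMem (fun hj => hjk (box_unique hl hj hkt)) _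
    · intro j _ hjk
      exact Set.indicator_of_notMem (fun hj => hjk (box_unique hl hj hkt)) _
  · push Not at h
    rw [Finset.sum_eq_zero fun j hj => Set.indicator_of_notMem (h j hj) _,
      Finset.sum_eq_zero fun j hj => Set.indicator_of_notMem (h j hj) _, enorm_zero,
      ENNReal.zero_rpow_of_pos hq]

/-- (S4) -/
theorem enorm_step (hp : p ≠ ∞) {l : ℝ} (hl : 0 < l) (I : ℕ) (y : ℕ → ℂ) :
    ‖∑ i ∈ Finset.range I, y i • bx p l i‖ₑ ^ p.toReal
      = ENNReal.ofReal l * ∑ i ∈ Finset.range I, ‖y i‖ₑ ^ p.toReal := by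
  rw [enorm_rpow_eq hp]
  have h1 : ∫⁻ t, ‖(∑ i ∈ Finset.range I, y i • bx p l i : Y p) t‖ₑ ^ p.toReal ∂nu
      = ∫⁻ t, ∑ i ∈ Finset.range I,
          Set.indicator (Set.Ioc (i * l) ((i + 1) * l)) (fun _ => ‖y i‖ₑ ^ p.toReal) t ∂nu := by
    refine lintegral_congr_ae ?_
    filter_upwards [step_ae (p := p) l I y] with t ht
    rw [ht, step_enorm hl I y t (toReal_pos' hp)]
  rw [h1, lintegral_finsetSum]
  · rw [Finset.mul_sum]
    refine Finset.sum_congr rfl fun i _ => ?_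
    rw [lintegral_indicator measurableSet_Ioc, setLIntegral_const, nu_box hl, mul_comm]
  · intro i _
    exact measurable_const.indicator measurableSet_Ioc

/-- (S5) Jensen -/
theorem enorm_avg_le (hp : p ≠ ∞) {l : ℝ} (hl : 0 < l) (I : ℕ) (g : Y p) :
    ‖∑ i ∈ Finset.range I, avg l i g • bx p l i‖ ≤ ‖g‖ := by
  have hq : 0 < p.toReal := toReal_pos' hp
  have hq1 : 1 ≤ p.toReal := by
    have h1 : 1 ≤ p := Fact.out
    simpa using ENNReal.toReal_mono hp h1
  have hl0 : ENNReal.ofReal l ≠ 0 := (ENNReal.ofReal_pos.mpr hl).ne'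
  -- each average
  have h1 : ∀ i : ℕ, ENNReal.ofReal l * ‖avg l i g‖ₑ ^ p.toReal
      ≤ ∫⁻ t in Set.Ioc (i * l) ((i + 1) * l), ‖g t‖ₑ ^ p.toReal ∂nu := by
    intro i
    set B : Set ℝ := Set.Ioc (i * l) ((i + 1) * l) with hB
    have h2 : ‖avg l i g‖ₑ ≤ (ENNReal.ofReal l)⁻¹ * ∫⁻ t in B, ‖g t‖ₑ ∂nu := by
      rw [avg_def, enorm_mul]
      have h3 : ‖((1 / l : ℝ) : ℂ)‖ₑ = (ENNReal.ofReal l)⁻¹ := by
        rw [← ofReal_norm, Complex.norm_real, Real.norm_of_nonneg (by positivity), one_div,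
          ENNReal.ofReal_inv_of_pos hl]
      rw [h3]
      gcongr
      exact enorm_integral_le_lintegral_enorm _
    -- Hölder
    have h4 : ∫⁻ t in B, ‖g t‖ₑ ∂nu
        ≤ (∫⁻ t in B, ‖g t‖ₑ ^ p.toReal ∂nu) ^ (1 / p.toReal)
          * (ENNReal.ofReal l) ^ (1 - 1 / p.toReal) := by
      have h5 := eLpNorm_le_eLpNorm_mul_rpow_measure_univ (μ := nu.restrict B) (p := 1) (q := p)
        (f := g) Fact.out ((Lp.aestronglyMeasurable g).restrict)
      have hp0 : p ≠ 0 := by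
        have : (1 : ℝ≥0∞) ≤ p := Fact.out
        exact (zero_lt_one.trans_le this).ne'
      rw [eLpNorm_one_eq_lintegral_enorm, eLpNorm_eq_lintegral_rpow_enorm_toReal hp0 hp,
        Measure.restrict_apply_univ, hB, nu_box hl] at h5
      simpa using h5
    have h6 : ‖avg l i g‖ₑ ≤ (ENNReal.ofReal l)⁻¹ * ((∫⁻ t in B, ‖g t‖ₑ ^ p.toReal ∂nu) ^ (1 / p.toReal)
          * (ENNReal.ofReal l) ^ (1 - 1 / p.toReal)) := h2.trans (by gcongr)
    calc ENNReal.ofReal l * ‖avg l i g‖ₑ ^ p.toReal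
        ≤ ENNReal.ofReal l * ((ENNReal.ofReal l)⁻¹ * ((∫⁻ t in B, ‖g t‖ₑ ^ p.toReal ∂nu) ^ (1 / p.toReal)
          * (ENNReal.ofReal l) ^ (1 - 1 / p.toReal))) ^ p.toReal := by gcongr
      _ = ∫⁻ t in B, ‖g t‖ₑ ^ p.toReal ∂nu := by
          rw [ENNReal.mul_rpow_of_nonneg _ _ hq.le, ENNReal.mul_rpow_of_nonneg _ _ hq.le,
            ← ENNReal.rpow_mul, ← ENNReal.rpow_mul, one_div, inv_mul_cancel₀ hq.ne',
            ENNReal.rpow_one, ENNReal.inv_rpow]
          have h7 : (1 - p.toReal⁻¹) * p.toReal = p.toReal - 1 := by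
            field_simp
          rw [h7]
          have h8 : ENNReal.ofReal l * ((ENNReal.ofReal l ^ p.toReal)⁻¹
              * (ENNReal.ofReal l) ^ (p.toReal - 1)) = 1 := by
            rw [← ENNReal.rpow_neg, ← ENNReal.rpow_add _ _ hl0 ENNReal.ofReal_ne_top]
            nth_rw 1 [← ENNReal.rpow_one (ENNReal.ofReal l)]
            rw [← ENNReal.rpow_add _ _ hl0 ENNReal.ofReal_ne_top]
            have : (1 : ℝ) + (-p.toReal + (p.toReal - 1)) = 0 := by ring
            rw [this, ENNReal.rpow_zero]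
          calc _ = (ENNReal.ofReal l * ((ENNReal.ofReal l ^ p.toReal)⁻¹
              * (ENNReal.ofReal l) ^ (p.toReal - 1))) * ∫⁻ t in B, ‖g t‖ₑ ^ p.toReal ∂nu := by ring
            _ = _ := by rw [h8, one_mul]
  have h2 : ‖∑ i ∈ Finset.range I, avg l i g • bx p l i‖ₑ ^ p.toReal ≤ ‖g‖ₑ ^ p.toReal := by
    rw [enorm_step hp hl, enorm_rpow_eq hp, Finset.mul_sum]
    calc ∑ i ∈ Finset.range I, ENNReal.ofReal l * ‖avg l i g‖ₑ ^ p.toReal
        ≤ ∑ i ∈ Finset.range I, ∫⁻ t in Set.Ioc (i * l) ((i + 1) * l), ‖g t‖ₑ ^ p.toReal ∂nu :=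
          Finset.sum_le_sum fun i _ => h1 i
      _ = ∫⁻ t in ⋃ i ∈ Finset.range I, Set.Ioc (i * l) ((i + 1) * l), ‖g t‖ₑ ^ p.toReal ∂nu := by
          rw [lintegral_biUnion_finset]
          · intro i _ j _ hij
            exact Set.disjoint_left.mpr fun t ht ht2 => hij (box_unique hl ht ht2)
          · intro i _; exact measurableSet_Ioc
      _ ≤ _ := setLIntegral_le_lintegral _ _
  have h3 : ‖∑ i ∈ Finset.range I, avg l i g • bx p l i‖ₑ ≤ ‖g‖ₑ :=
    (ENNReal.rpow_le_rpow_iff hq).mp h2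
  rw [← ofReal_norm, ← ofReal_norm] at h3
  exact (ENNReal.ofReal_le_ofReal_iff (norm_nonneg _)).mp h3

/-- (S6) shifting a step function -/
theorem V_step {l : ℝ} (hl : 0 < l) (I j : ℕ) (y : ℕ → ℂ) (hy : ∀ i, I ≤ i → y i = 0) :
    V p (j * l) (∑ i ∈ Finset.range I, y i • bx p l i)
      = ∑ i ∈ Finset.range I, y (i + j) • bx p l i := by
  rw [map_sum]
  simp only [map_smul, V_bx hl, smul_ite, smul_zero]
  rw [← Finset.sum_filter]
  have h1 : ∑ i ∈ Finset.range I, y (i + j) • bx p l i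
      = ∑ i ∈ (Finset.range I).filter (fun i => i + j < I), y (i + j) • bx p l i := by
    rw [Finset.sum_filter]
    refine Finset.sum_congr rfl fun i _ => ?_
    split_ifs with h
    · rfl
    · rw [hy _ (not_lt.mp h), zero_smul]
  rw [h1]
  refine Finset.sum_bij' (fun i _ => i - j) (fun i _ => i + j) ?_ ?_ ?_ ?_ ?_
  · intro i hi
    simp only [Finset.mem_filter, Finset.mem_range] at hi ⊢
    omega
  · intro i hi
    simp only [Finset.mem_filter, Finset.mem_range] at hi ⊢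
    omega
  · intro i hi
    simp only [Finset.mem_filter, Finset.mem_range] at hi
    omega
  · intro i hi
    omega
  · intro i hi
    simp only [Finset.mem_filter, Finset.mem_range] at hi
    rw [Nat.sub_add_cancel hi.2]

end DC8965
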