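import Mathlib

open Filter Topology Set
open scoped ENNReal NNReal

namespace DC8965

/-- window restriction of a sequence: keep `n` with `n ≤ s < n + N` -/
noncomputable def fejer_win (N s : ℕ) (y : ℕ → ℂ) (n : ℕ) : ℂ :=
  if n ≤ s ∧ s < n + N then y n else 0

lemma fejer_win_sum (N : ℕ) (c y : ℕ → ℂ) (i r : ℕ) (hr : r < N) :
    ∑ j ∈ Finset.range (i + r + 1), c j * fejer_win N (i + r) y (i + j)
      = ∑ j ∈ Finset.range N, if j ≤ r then c j * y (i + j) else 0 := by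
  have h1 : ∑ j ∈ Finset.range (i + r + 1), c j * fejer_win N (i + r) y (i + j)
      = ∑ j ∈ Finset.range (r + 1), c j * y (i + j) := by
    symm
    apply Finset.sum_subset_zero_on_sdiff (Finset.range_mono (by omega))
    · intro j hj
      simp only [Finset.mem_sdiff, Finset.mem_range] at hj
      have : ¬ (i + j ≤ i + r ∧ i + r < i + j + N) := by omega
      rw [fejer_win, if_neg this, mul_zero]
    · intro j hj
      simp only [Finset.mem_range] at hj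
      have : i + j ≤ i + r ∧ i + r < i + j + N := by omega
      rw [fejer_win, if_pos this]
  have h2 : ∑ j ∈ Finset.range N, (if j ≤ r then c j * y (i + j) else 0)
      = ∑ j ∈ Finset.range (r + 1), c j * y (i + j) := by
    symm
    apply Finset.sum_subset_zero_on_sdiff (Finset.range_mono (by omega))
    · intro j hj
      simp only [Finset.mem_sdiff, Finset.mem_range] at hj
      have : ¬ (j ≤ r) := by omega
      simp [this]
    · intro j hj
      simp only [Finset.mem_range] at hj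
      have : j ≤ r := by omega
      simp [this]
  rw [h1, h2]

lemma fejer_avg (N : ℕ) (hN : 0 < N) (c y : ℕ → ℂ) (i : ℕ) :
    ∑ j ∈ Finset.range N, ((1 - (j : ℂ) / N) * c j) * y (i + j)
      = ∑ r ∈ Finset.range N, (N : ℂ)⁻¹ *
        (∑ j ∈ Finset.range (i + r + 1), c j * fejer_win N (i + r) y (i + j)) := by
  have hN' : (N : ℂ) ≠ 0 := by exact_mod_cast hN.ne'
  have h1 : ∑ r ∈ Finset.range N, (N : ℂ)⁻¹ *
        (∑ j ∈ Finset.range (i + r + 1), c j * fejer_win N (i + r) y (i + j))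
      = ∑ r ∈ Finset.range N, ∑ j ∈ Finset.range N,
          (N : ℂ)⁻¹ * (if j ≤ r then c j * y (i + j) else 0) := by
    refine Finset.sum_congr rfl ?_
    intro r hr
    rw [fejer_win_sum N c y i r (Finset.mem_range.1 hr), Finset.mul_sum]
  rw [h1, Finset.sum_comm]
  refine Finset.sum_congr rfl ?_
  intro j hj
  have hj' : j < N := Finset.mem_range.1 hj
  rw [← Finset.mul_sum]
  have h2 : ∑ r ∈ Finset.range N, (if j ≤ r then c j * y (i + j) else 0)
      = ((N : ℂ) - j) * (c j * y (i + j)) := by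
    rw [← Finset.sum_filter]
    rw [Finset.sum_const, nsmul_eq_mul]
    congr 1
    have : (Finset.range N).filter (fun r => j ≤ r) = Finset.Ico j N := by
      ext r
      simp only [Finset.mem_filter, Finset.mem_range, Finset.mem_Ico]
      omega
    rw [this, Nat.card_Ico, Nat.cast_sub hj'.le]
  rw [h2]
  field_simp

/-- Fejér means of a bounded Toeplitz matrix (backward shifts) on `ℓ^q`. -/
theorem fejer {q : ℝ} (hq : 1 ≤ q) (K : ℝ≥0∞) (c : ℕ → ℂ)
    (hc : ∀ (I : ℕ) (y : ℕ → ℂ), (∀ i, I ≤ i → y i = 0) →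
      ∑' i : ℕ, ‖∑ j ∈ Finset.range I, c j * y (i + j)‖ₑ ^ q ≤ K ^ q * ∑' i : ℕ, ‖y i‖ₑ ^ q)
    (N : ℕ) (hN : 0 < N) (y : ℕ → ℂ) :
    ∑' i : ℕ, ‖∑ j ∈ Finset.range N, ((1 - (j : ℂ) / N) * c j) * y (i + j)‖ₑ ^ q
      ≤ K ^ q * ∑' i : ℕ, ‖y i‖ₑ ^ q := by
  have hq0 : 0 < q := by linarith
  have hNne : (N : ℝ≥0∞) ≠ 0 := by exact_mod_cast hN.ne'
  have hNtop : (N : ℝ≥0∞) ≠ ∞ := ENNReal.natCast_ne_top N
  set g : ℕ → ℕ → ℝ≥0∞ := fun s i =>
    ‖∑ j ∈ Finset.range (s + 1), c j * fejer_win N s y (i + j)‖ₑ ^ q with hg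
  have hnorm : ‖((N : ℂ)⁻¹)‖ₑ = (N : ℝ≥0∞)⁻¹ := by
    rw [enorm_inv (by exact_mod_cast hN.ne')]
    congr 1
    rw [← ofReal_norm, Complex.norm_natCast, ENNReal.ofReal_natCast]
  -- step 1: pointwise in i
  have h1 : ∀ i : ℕ, ‖∑ j ∈ Finset.range N, ((1 - (j : ℂ) / N) * c j) * y (i + j)‖ₑ ^ q
      ≤ (N : ℝ≥0∞)⁻¹ * ∑' s : ℕ, g s i := by
    intro i
    rw [fejer_avg N hN c y i]
    have h2 : ‖∑ r ∈ Finset.range N, (N : ℂ)⁻¹ *
        (∑ j ∈ Finset.range (i + r + 1), c j * fejer_win N (i + r) y (i + j))‖ₑ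
        ≤ ∑ r ∈ Finset.range N, (N : ℝ≥0∞)⁻¹ *
          ‖∑ j ∈ Finset.range (i + r + 1), c j * fejer_win N (i + r) y (i + j)‖ₑ := by
      refine (enorm_sum_le _ _).trans (le_of_eq ?_)
      refine Finset.sum_congr rfl ?_
      intro r _
      rw [enorm_mul, hnorm]
    have h3 := ENNReal.rpow_arith_mean_le_arith_mean_rpow (Finset.range N)
      (fun _ => (N : ℝ≥0∞)⁻¹)
      (fun r => ‖∑ j ∈ Finset.range (i + r + 1), c j * fejer_win N (i + r) y (i + j)‖ₑ)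
      (by
        rw [Finset.sum_const, Finset.card_range, nsmul_eq_mul]
        exact ENNReal.mul_inv_cancel hNne hNtop) hq
    refine (ENNReal.rpow_le_rpow h2 hq0.le).trans (h3.trans ?_)
    rw [← Finset.mul_sum]
    refine mul_le_mul_right ?_ _
    have h4 : ∑ r ∈ Finset.range N, g (i + r) i = ∑ s ∈ Finset.Ico i (i + N), g s i := by
      rw [Finset.sum_Ico_eq_sum_range]
      simp
    refine le_trans (le_of_eq ?_) (h4.le.trans (ENNReal.sum_le_tsum _))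
    rfl
  -- step 2: use the hypothesis
  have h5 : ∀ s : ℕ, ∑' i : ℕ, g s i ≤ K ^ q * ∑' n : ℕ, ‖fejer_win N s y n‖ₑ ^ q := by
    intro s
    refine hc (s + 1) (fejer_win N s y) ?_
    intro i hi
    have : ¬ (i ≤ s ∧ s < i + N) := by omega
    simp [fejer_win, this]
  have h6 : ∀ n : ℕ, ∑' s : ℕ, ‖fejer_win N s y n‖ₑ ^ q = N * ‖y n‖ₑ ^ q := by
    intro n
    rw [tsum_eq_sum (s := Finset.Ico n (n + N))]
    · have : ∀ s ∈ Finset.Ico n (n + N), ‖fejer_win N s y n‖ₑ ^ q = ‖y n‖ₑ ^ q := by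
        intro s hs
        simp only [Finset.mem_Ico] at hs
        simp [fejer_win, hs]
      rw [Finset.sum_congr rfl this, Finset.sum_const, Nat.card_Ico, nsmul_eq_mul]
      simp
    · intro s hs
      simp only [Finset.mem_Ico] at hs
      simp [fejer_win, hs, hq0]
  calc ∑' i : ℕ, ‖∑ j ∈ Finset.range N, ((1 - (j : ℂ) / N) * c j) * y (i + j)‖ₑ ^ q
      ≤ ∑' i : ℕ, (N : ℝ≥0∞)⁻¹ * ∑' s : ℕ, g s i := ENNReal.tsum_le_tsum h1
    _ = (N : ℝ≥0∞)⁻¹ * ∑' s : ℕ, ∑' i : ℕ, g s i := by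
        rw [ENNReal.tsum_mul_left, ENNReal.tsum_comm]
    _ ≤ (N : ℝ≥0∞)⁻¹ * ∑' s : ℕ, K ^ q * ∑' n : ℕ, ‖fejer_win N s y n‖ₑ ^ q :=
        mul_le_mul_right (ENNReal.tsum_le_tsum h5) _
    _ = (N : ℝ≥0∞)⁻¹ * (K ^ q * ∑' n : ℕ, (N * ‖y n‖ₑ ^ q)) := by
        rw [ENNReal.tsum_mul_left, ENNReal.tsum_comm]
        simp_rw [h6]
    _ = K ^ q * ∑' i : ℕ, ‖y i‖ₑ ^ q := by
        rw [ENNReal.tsum_mul_left, ← mul_assoc, ← mul_assoc, mul_comm _ (N : ℝ≥0∞), ← mul_assoc,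
          ENNReal.mul_inv_cancel hNne hNtop, one_mul]

end DC8965
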