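import Pool.Agent.Lib.MP_dc8965_an.HSAll
import Pool.Agent.Lib.MP_dc8965_an.Main

/-!
All closed Hardy-invariant subspaces of `L^p[0,1]`, given the sequence theorem.
-/

open MeasureTheory Filter Topology Set
open scoped ENNReal NNReal Polynomial

namespace DC8965

variable {p : ℝ≥0∞} [Fact (1 ≤ p)]

/-- The theorem for `L^p[0,1]`, given the sequence theorem for `p` and the conjugate exponent. -/
theorem hs_main (hp1 : 1 < p) (hp : p ≠ ∞) {q : ℝ} (hpq : p.toReal.HolderConjugate q)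
    (hS : TheoremS p.toReal q) (M : Submodule ℂ (L p)) (hMc : IsClosed (M : Set (L p)))
    (hM : ∀ f ∈ M, ∀ g : L p, IsHardy f g → g ∈ M) : IsMonomialSpace M := by
  obtain ⟨Φ, hΦ⟩ := exists_Phi p hp
  rw [isMonomialSpace_iff hp hΦ]
  have hclosed : IsClosed (tr Φ M : Set (Y p)) := by
    have h1 : (tr Φ M : Set (Y p)) = Φ.symm ⁻¹' (M : Set (L p)) := by
      ext y
      exact mem_tr Φ M y
    rw [h1]
    exact hMc.preimage Φ.symm.continuous
  have hH : ∀ g ∈ tr Φ M, Hop p (1 - 1 / p.toReal) g ∈ tr Φ M := by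
    intro g hg
    rw [mem_tr] at hg ⊢
    refine hM _ hg _ ?_
    refine (hardy_iff hp1 hp Φ hΦ _ _).mpr ?_
    rw [Φ.apply_symm_apply, Φ.apply_symm_apply]
  exact hs_half_all hp hpq hS (tr Φ M) hclosed
    (fun u hu g hg => V_mem_of_Hop hp (one_sub_pos hp1 hp) (tr Φ M) hclosed hH hu hg)

end DC8965
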