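import Pool.Agent.Lib.MP_dc8965_an.HSKer

/-!
Infinite step functions and step functionals.
-/

open MeasureTheory Filter Topology Set
open scoped ENNReal NNReal Polynomial

namespace DC8965

variable {p : ℝ≥0∞} [Fact (1 ≤ p)]

/-- the step function with (summable) coefficients `x` -/
noncomputable def hstep (p : ℝ≥0∞) [Fact (1 ≤ p)] (l : ℝ) (x : ℕ → ℂ) : Y p :=
  ∑' n : ℕ, x n • bx p l n

lemma hs_norm_bx (hp : p ≠ ∞) {l : ℝ} (hl : 0 < l) (n : ℕ) :
    ‖bx p l n‖ = l ^ (1 / p.toReal) := by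
  have h0 : p ≠ 0 := by
    have : (1 : ℝ≥0∞) ≤ p := Fact.out
    exact (zero_lt_one.trans_le this).ne'
  rw [bx, norm_indicatorConstLp h0 hp, norm_one, one_mul, Measure.real, nu_box hl,
    ENNReal.toReal_ofReal hl.le]

lemma hs_summable (hp : p ≠ ∞) {l : ℝ} (hl : 0 < l) {x : ℕ → ℂ} (hx : Summable fun n => ‖x n‖) :
    Summable fun n : ℕ => x n • bx p l n := by
  refine Summable.of_norm ?_
  refine (hx.mul_right (l ^ (1 / p.toReal))).congr fun n => ?_
  rw [norm_smul, hs_norm_bx hp hl]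

lemma hs_hstep_zero (l : ℝ) : hstep p l (fun _ => 0) = 0 := by
  simp [hstep]

lemma hs_hstep_add (hp : p ≠ ∞) {l : ℝ} (hl : 0 < l) {x y : ℕ → ℂ}
    (hx : Summable fun n => ‖x n‖) (hy : Summable fun n => ‖y n‖) :
    hstep p l (fun n => x n + y n) = hstep p l x + hstep p l y := by
  rw [hstep, hstep, hstep, ← (hs_summable hp hl hx).tsum_add (hs_summable hp hl hy)]
  exact tsum_congr fun n => add_smul _ _ _

lemma hs_hstep_smul (l : ℝ) (c : ℂ) (x : ℕ → ℂ) :
    hstep p l (fun n => c * x n) = c • hstep p l x := by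
  rw [hstep, hstep, ← tsum_const_smul'']
  exact tsum_congr fun n => mul_smul _ _ _

lemma hs_V_hstep (hp : p ≠ ∞) {l : ℝ} (hl : 0 < l) {x : ℕ → ℂ} (hx : Summable fun n => ‖x n‖)
    (j : ℕ) : V p (j * l) (hstep p l x) = hstep p l (fun n => x (n + j)) := by
  have h1 := hs_summable hp hl hx
  rw [hstep, (V p (j * l)).map_tsum h1]
  have h2 : Summable fun n : ℕ => V p (j * l) (x n • bx p l n) := h1.mapL (V p (j * l))
  rw [← h2.sum_add_tsum_nat_add j]
  have h3 : ∑ i ∈ Finset.range j, V p (j * l) (x i • bx p l i) = 0 := by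
    refine Finset.sum_eq_zero fun i hi => ?_
    rw [map_smul, V_bx hl, if_neg (not_le.mpr (Finset.mem_range.mp hi)), smul_zero]
  rw [h3, zero_add, hstep]
  refine tsum_congr fun n => ?_
  rw [map_smul, V_bx hl, if_pos (Nat.le_add_left j n), Nat.add_sub_cancel]

lemma hs_hstep_finite (l : ℝ) (I : ℕ) (y : ℕ → ℂ) (hy : ∀ n, I ≤ n → y n = 0) :
    hstep p l y = ∑ i ∈ Finset.range I, y i • bx p l i := by
  rw [hstep]
  refine tsum_eq_sum fun i hi => ?_
  rw [hy i (by simpa using hi), zero_smul]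

lemma hs_enorm_hstep (hp : p ≠ ∞) {l : ℝ} (hl : 0 < l) {x : ℕ → ℂ}
    (hx : Summable fun n => ‖x n‖) :
    ‖hstep p l x‖ₑ ^ p.toReal ≤ ENNReal.ofReal l * ∑' n : ℕ, ‖x n‖ₑ ^ p.toReal := by
  have h1 := (hs_summable hp hl hx).hasSum.tendsto_sum_nat
  have h2 : Tendsto (fun N : ℕ => ‖∑ i ∈ Finset.range N, x i • bx p l i‖ₑ ^ p.toReal) atTop
      (𝓝 (‖hstep p l x‖ₑ ^ p.toReal)) := (h1.enorm).ennrpow_const p.toReal
  refine le_of_tendsto' h2 fun N => ?_
  rw [enorm_step hp hl]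
  gcongr
  exact ENNReal.sum_le_tsum _

/-- a step functional is bounded by the `ℓ^q` norm of its coefficients -/
lemma hs_psi_bound (hp : p ≠ ∞) {q : ℝ} (hpq : p.toReal.HolderConjugate q) {l : ℝ} (hl : 0 < l)
    (K : ℕ) (u : ℕ → ℂ) (h : Y p) :
    ‖∑ m ∈ Finset.range K, u m * (((l ^ (1 / p.toReal) : ℝ) : ℂ) * avg l m h)‖ₑ
      ≤ (∑ m ∈ Finset.range K, ‖u m‖ₑ ^ q) ^ (1 / q) * ‖h‖ₑ := by
  have hr : 0 < p.toReal := toReal_pos' hp
  have hs0 : 0 < l ^ (1 / p.toReal) := Real.rpow_pos_of_pos hl _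
  have h1 : ‖∑ m ∈ Finset.range K, u m * (((l ^ (1 / p.toReal) : ℝ) : ℂ) * avg l m h)‖ₑ
      ≤ ∑ m ∈ Finset.range K, ‖u m‖ₑ * ‖((l ^ (1 / p.toReal) : ℝ) : ℂ) * avg l m h‖ₑ := by
    refine (enorm_sum_le _ _).trans (le_of_eq ?_)
    exact Finset.sum_congr rfl fun m _ => enorm_mul _ _
  have h2 := ENNReal.inner_le_Lp_mul_Lq (Finset.range K) (fun m => ‖u m‖ₑ)
    (fun m => ‖((l ^ (1 / p.toReal) : ℝ) : ℂ) * avg l m h‖ₑ) hpq.symm
  refine h1.trans (h2.trans ?_)
  gcongr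
  have h3 : ∑ m ∈ Finset.range K, ‖((l ^ (1 / p.toReal) : ℝ) : ℂ) * avg l m h‖ₑ ^ p.toReal
      = ‖∑ i ∈ Finset.range K, avg l i h • bx p l i‖ₑ ^ p.toReal := by
    rw [enorm_step hp hl, Finset.mul_sum]
    refine Finset.sum_congr rfl fun m _ => ?_
    rw [enorm_mul, ENNReal.mul_rpow_of_nonneg _ _ hr.le]
    congr 1
    rw [← ofReal_norm, Complex.norm_real, Real.norm_of_nonneg hs0.le,
      ENNReal.ofReal_rpow_of_pos hs0, ← Real.rpow_mul hl.le, one_div, inv_mul_cancel₀ hr.ne',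
      Real.rpow_one]
  rw [h3, ← ENNReal.rpow_mul, one_div, mul_inv_cancel₀ hr.ne', ENNReal.rpow_one]
  rw [← ofReal_norm, ← ofReal_norm]
  exact ENNReal.ofReal_le_ofReal (enorm_avg_le hp hl K h)

/-- a step functional built from `U` kills the kernel of `U(V_l)` -/
lemma hs_psi_ker {l : ℝ} (hl : 0 < l) (U : ℂ[X]) {e : Y p}
    (he : Polynomial.aeval (V p l) U e = 0) :
    ∑ m ∈ Finset.range (U.natDegree + 1), U.coeff m * avg l m e = 0 := by
  have h1 : avg l 0 (Polynomial.aeval (V p l) U e)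
      = ∑ m ∈ Finset.range (U.natDegree + 1), U.coeff m * avg l m e := by
    rw [Polynomial.aeval_eq_sum_range, _root_.sum_apply, map_sum]
    refine Finset.sum_congr rfl fun m _ => ?_
    rw [_root_.smul_apply, map_smul, smul_eq_mul, V_pow hl.le, ← avg_V hl]
  rw [← h1, he, map_zero]

/-- step functions in the kernel of `U(V_l)` -/
lemma hs_hstep_ker (hp : p ≠ ∞) {l : ℝ} (hl : 0 < l) (U : ℂ[X]) {x : ℕ → ℂ}
    (hx : Summable fun n => ‖x n‖)
    (h : ∀ j, ∑ m ∈ Finset.range (U.natDegree + 1), U.coeff m * x (j + m) = 0) :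
    Polynomial.aeval (V p l) U (hstep p l x) = 0 := by
  have hx' : ∀ m : ℕ, Summable fun n => ‖x (n + m)‖ := fun m =>
    (summable_nat_add_iff m).mpr hx
  have h1 : Polynomial.aeval (V p l) U (hstep p l x)
      = ∑ m ∈ Finset.range (U.natDegree + 1), U.coeff m • hstep p l (fun n => x (n + m)) := by
    rw [Polynomial.aeval_eq_sum_range, _root_.sum_apply]
    refine Finset.sum_congr rfl fun m _ => ?_
    rw [_root_.smul_apply, V_pow hl.le, hs_V_hstep hp hl hx]
  have h2 : ∀ N : ℕ, ∑ m ∈ Finset.range N, U.coeff m • hstep p l (fun n => x (n + m))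
      = hstep p l (fun n => ∑ m ∈ Finset.range N, U.coeff m * x (n + m)) := by
    intro N
    induction N with
    | zero => simp [hs_hstep_zero]
    | succ N ih =>
      rw [Finset.sum_range_succ, ih, ← hs_hstep_smul, ← hs_hstep_add hp hl]
      · congr 1
        ext n
        rw [Finset.sum_range_succ]
      · refine Summable.of_nonneg_of_le (fun n => norm_nonneg _) (fun n => norm_sum_le _ _) ?_
        refine summable_sum fun m _ => ?_
        simp only [norm_mul]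
        exact (hx' m).mul_left _
      · simp only [norm_mul]
        exact (hx' N).mul_left _
  rw [h1, h2]
  have h3 : (fun n => ∑ m ∈ Finset.range (U.natDegree + 1), U.coeff m * x (n + m)) = fun _ => 0 := by
    ext n
    exact h n
  rw [h3, hs_hstep_zero]

end DC8965
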