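import Pool.Agent.Lib.MP_dc8965_an.Cont

open MeasureTheory Filter Topology Set
open scoped ENNReal NNReal

namespace DC8965

variable (p : ℝ≥0∞) [Fact (1 ≤ p)]

/-- The resolvent `∫_0^∞ exp(-a u) V_u du` of the translation semigroup. -/
noncomputable def Hop (a : ℝ) (g : Y p) : Y p :=
  ∫ u in Set.Ioi (0 : ℝ), ((Real.exp (-a * u) : ℝ) : ℂ) • V p u g

variable {p}

lemma Hop_norm_exp (a u : ℝ) : ‖((Real.exp (-a * u) : ℝ) : ℂ)‖ = Real.exp (-a * u) := by
  rw [Complex.norm_real, Real.norm_eq_abs, abs_of_pos (Real.exp_pos _)]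

theorem integrableOn_Hop (hp : p ≠ ∞) {a : ℝ} (ha : 0 < a) (g : Y p) :
    IntegrableOn (fun u : ℝ => ((Real.exp (-a * u) : ℝ) : ℂ) • V p u g) (Set.Ioi 0) := by
  have hc : ContinuousOn (fun u : ℝ => ((Real.exp (-a * u) : ℝ) : ℂ) • V p u g) (Set.Ioi 0) := by
    have h1 : ContinuousOn (fun u : ℝ => ((Real.exp (-a * u) : ℝ) : ℂ)) (Set.Ioi 0) := by
      fun_prop
    exact h1.smul ((continuousOn_V hp g).mono Set.Ioi_subset_Ici_self)
  have hm : AEStronglyMeasurable (fun u : ℝ => ((Real.exp (-a * u) : ℝ) : ℂ) • V p u g)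
      (volume.restrict (Set.Ioi 0)) := hc.aestronglyMeasurable measurableSet_Ioi
  have hb : IntegrableOn (fun u : ℝ => Real.exp (-a * u) * ‖g‖) (Set.Ioi 0) :=
    (exp_neg_integrableOn_Ioi 0 ha).mul_const _
  refine Integrable.mono' hb hm (Eventually.of_forall fun u => ?_)
  rw [norm_smul, Hop_norm_exp]
  exact mul_le_mul_of_nonneg_left (norm_V_apply_le u g) (Real.exp_pos _).le

/-- scalar form -/
theorem apply_Hop (hp : p ≠ ∞) {a : ℝ} (ha : 0 < a) (g : Y p) (ψ : Y p →L[ℂ] ℂ) :
    ψ (Hop p a g) = ∫ u in Set.Ioi (0 : ℝ), ((Real.exp (-a * u) : ℝ) : ℂ) * ψ (V p u g) := by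
  rw [Hop, ← ψ.integral_comp_comm (integrableOn_Hop hp ha g)]
  simp only [map_smul, smul_eq_mul]

/-- `Hop` commutes with the translations. -/
theorem V_Hop (hp : p ≠ ∞) {a : ℝ} (ha : 0 < a) (g : Y p) {v : ℝ} (hv : 0 ≤ v) :
    V p v (Hop p a g) = Hop p a (V p v g) := by
  rw [Hop, ← (V p v).integral_comp_comm (integrableOn_Hop hp ha g), Hop]
  refine setIntegral_congr_fun measurableSet_Ioi fun u hu => ?_
  simp only [map_smul]
  rw [V_comm hv (le_of_lt hu)]

lemma Hop_integrableOn {A : Set ℝ} (hA : nu A < ∞) (h : Y p) : IntegrableOn h A nu := by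
  have : IsFiniteMeasure (nu.restrict A) := ⟨by simpa using hA⟩
  exact ((Lp.memLp h).restrict A).integrable Fact.out

/-- the bound -/
lemma Hop_bound {A : Set ℝ} (hA : nu A < ∞) : ∃ C : ℝ, 0 ≤ C ∧ ∀ h : Y p,
    ∫ t in A, ‖h t‖ ∂nu ≤ C * ‖h‖ := by
  have : IsFiniteMeasure (nu.restrict A) := ⟨by simpa using hA⟩
  have hp1 : (1 : ℝ≥0∞) ≤ p := Fact.out
  refine ⟨((nu A) ^ (1 / (1 : ℝ≥0∞).toReal - 1 / p.toReal)).toReal, ENNReal.toReal_nonneg, fun h => ?_⟩
  have hint := Hop_integrableOn hA h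
  have h1 : ∫ t in A, ‖h t‖ ∂nu = (eLpNorm h 1 (nu.restrict A)).toReal := by
    rw [integral_norm_eq_lintegral_enorm hint.1, eLpNorm_one_eq_lintegral_enorm]
  have h2 := eLpNorm_le_eLpNorm_mul_rpow_measure_univ (μ := nu.restrict A) (f := (h : ℝ → ℂ)) hp1 hint.1
  rw [Measure.restrict_apply_univ] at h2
  have h3 : eLpNorm h p (nu.restrict A) ≤ eLpNorm h p nu := eLpNorm_mono_measure _ Measure.restrict_le_self
  have hne : (nu A) ^ (1 / (1 : ℝ≥0∞).toReal - 1 / p.toReal) ≠ ∞ := by
    apply ENNReal.rpow_ne_top_of_nonneg _ hA.ne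
    have : 1 / p.toReal ≤ 1 := by
      rcases eq_or_ne p ∞ with rfl | hp
      · simp
      · rw [div_le_one (ENNReal.toReal_pos (by positivity) hp)]
        simpa using (ENNReal.toReal_le_toReal (by simp) hp).mpr hp1
    simp only [ENNReal.toReal_one, div_one]
    linarith
  rw [h1, Lp.norm_def, ← ENNReal.toReal_mul]
  refine ENNReal.toReal_mono (ENNReal.mul_ne_top hne (Lp.eLpNorm_ne_top h)) ?_
  refine h2.trans ?_
  rw [mul_comm]
  gcongr

/-- integration over a set of finite measure -/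
noncomputable def Hop_psi {A : Set ℝ} (hA : nu A < ∞) : Y p →L[ℂ] ℂ :=
  LinearMap.mkContinuousOfExistsBound
    { toFun := fun h => ∫ t in A, h t ∂nu
      map_add' := fun f g => by
        rw [← integral_add (Hop_integrableOn hA f) (Hop_integrableOn hA g)]
        exact integral_congr_ae (ae_restrict_of_ae (Lp.coeFn_add f g))
      map_smul' := fun c g => by
        simp only [RingHom.id_apply]
        rw [← integral_smul]
        exact integral_congr_ae (ae_restrict_of_ae (Lp.coeFn_smul c g)) }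
    (by
      obtain ⟨C, _, hC⟩ := Hop_bound (p := p) hA
      refine ⟨C, fun h => ?_⟩
      exact (norm_integral_le_integral_norm _).trans (hC h))

lemma Hop_psi_apply {A : Set ℝ} (hA : nu A < ∞) (h : Y p) : Hop_psi hA h = ∫ t in A, h t ∂nu := rfl

instance : SigmaFinite nu := by rw [nu]; infer_instance

lemma Hop_prod {a : ℝ} (ha : 0 < a) (g : Y p) {A : Set ℝ} (hA : nu A < ∞) :
    Integrable (Function.uncurry fun u t : ℝ => ((Real.exp (-a * u) : ℝ) : ℂ) * g (t + u))
      ((volume.restrict (Set.Ioi 0)).prod (nu.restrict A)) := by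
  obtain ⟨C, hC0, hC⟩ := Hop_bound (p := p) hA
  have hsm : StronglyMeasurable (Function.uncurry fun u t : ℝ =>
      ((Real.exp (-a * u) : ℝ) : ℂ) * g (t + u)) := by
    apply StronglyMeasurable.mul
    · apply Continuous.stronglyMeasurable
      fun_prop
    · exact (Lp.stronglyMeasurable g).comp_measurable (by fun_prop)
  rw [integrable_prod_iff hsm.aestronglyMeasurable]
  have key : ∀ u : ℝ, 0 < u → Integrable (fun t => ((Real.exp (-a * u) : ℝ) : ℂ) * g (t + u))
      (nu.restrict A) := by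
    intro u hu
    refine Integrable.const_mul ?_ _
    exact (Hop_integrableOn hA (V p u g)).congr (ae_restrict_of_ae (V_ae hu.le g))
  refine ⟨?_, ?_⟩
  · filter_upwards [ae_restrict_mem measurableSet_Ioi] with u hu
    exact key u hu
  · have hb : IntegrableOn (fun u : ℝ => Real.exp (-a * u) * (C * ‖g‖)) (Set.Ioi 0) :=
      (exp_neg_integrableOn_Ioi 0 ha).mul_const _
    refine Integrable.mono' hb ?_ ?_
    · exact (hsm.norm.integral_prod_right' (ν := nu.restrict A)).aestronglyMeasurable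
    · filter_upwards [ae_restrict_mem measurableSet_Ioi] with u hu
      have hu' : (0 : ℝ) < u := hu
      rw [Real.norm_of_nonneg (integral_nonneg fun t => norm_nonneg _)]
      simp only [Function.uncurry_apply_pair, norm_mul, Hop_norm_exp]
      rw [integral_const_mul]
      refine mul_le_mul_of_nonneg_left ?_ (Real.exp_pos _).le
      have h1 : ∫ t in A, ‖g (t + u)‖ ∂nu = ∫ t in A, ‖V p u g t‖ ∂nu := by
        refine integral_congr_ae (ae_restrict_of_ae ?_)
        filter_upwards [V_ae hu'.le g] with t ht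
        rw [ht]
      rw [h1]
      exact (hC _).trans (mul_le_mul_of_nonneg_left (norm_V_apply_le u g) hC0)

/-- the pointwise formula -/
theorem Hop_ae (hp : p ≠ ∞) {a : ℝ} (ha : 0 < a) (g : Y p) :
    ⇑(Hop p a g) =ᵐ[nu] fun t => ∫ u in Set.Ioi (0 : ℝ), ((Real.exp (-a * u) : ℝ) : ℂ) * g (t + u) := by
  refine ae_eq_of_forall_setIntegral_eq_of_sigmaFinite ?_ ?_ ?_
  · intro A _ hA
    exact Hop_integrableOn hA _
  · intro A _ hA
    exact (Hop_prod ha g hA).integral_prod_right
  · intro A _ hA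
    have h1 := apply_Hop hp ha g (Hop_psi hA)
    rw [Hop_psi_apply] at h1
    rw [h1]
    have h2 := integral_integral_swap (Hop_prod ha g hA)
    rw [← h2]
    refine setIntegral_congr_fun measurableSet_Ioi fun u hu => ?_
    have hu' : (0 : ℝ) < u := hu
    simp only [Hop_psi_apply]
    rw [integral_const_mul]
    congr 1
    exact integral_congr_ae (ae_restrict_of_ae (V_ae hu'.le g))

end DC8965
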